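import Pool.Agent.Lib.MP_17a322_ntU3.Defs
import Pool.Agent.Lib.MP_17a322_ntU2.B2

/-!
uv2 general form, leaf B2: algebraic relations of bounded degree on all translates.
-/

universe u

namespace UVC

open MvPolynomial UVB
open Pool.Agent.Lib.MP_17a322_nt.VA

/-- The quadratic form of the leaf. -/
private noncomputable def B2_q {K : Type u} [Field K] {N : ℕ} (A : AV K N) (x : Fin (N + 1) → K)
    (c' a : Fin (N + 1)) : MvPolynomial (Fin (N + 1)) K :=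
  aeval (Sum.elim X (fun i => C (x i))) (A.S a c')

private theorem B2_q_homog {K : Type u} [Field K] {N : ℕ} (A : AV K N) (x : Fin (N + 1) → K)
    (c' a : Fin (N + 1)) : (B2_q A x c' a).IsHomogeneous 2 := by
  unfold B2_q
  rw [aeval_def, eval₂_eq']
  refine IsHomogeneous.sum _ _ _ fun m hm => ?_
  obtain ⟨h1, -⟩ := A.bihomog a c' m hm
  rw [Fintype.prod_sum_type]
  simp only [Sum.elim_inl, Sum.elim_inr]
  have e1 : (algebraMap K (MvPolynomial (Fin (N + 1)) K) (coeff m (A.S a c'))).IsHomogeneous 0 :=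
    isHomogeneous_C _ _
  have e2 : (∏ i, (X i : MvPolynomial (Fin (N + 1)) K) ^ m (Sum.inl i)).IsHomogeneous
      (∑ i, 1 * m (Sum.inl i)) :=
    IsHomogeneous.prod _ _ _ fun i _ => (isHomogeneous_X K i).pow _
  have e3 : (∏ i, (C (x i) : MvPolynomial (Fin (N + 1)) K) ^ m (Sum.inr i)).IsHomogeneous
      (∑ i, 0 * m (Sum.inr i)) :=
    IsHomogeneous.prod _ _ _ fun i _ => (isHomogeneous_C (Fin (N + 1)) (x i)).pow _
  have e4 := e1.mul (e2.mul e3)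
  have e5 : 0 + (∑ i, 1 * m (Sum.inl i) + ∑ i, 0 * m (Sum.inr i)) = 2 := by
    simp only [one_mul, zero_mul, Finset.sum_const_zero, zero_add, add_zero]
    exact h1
  rw [e5] at e4
  exact e4

private theorem B2_q_eval {K : Type u} [Field K] {N : ℕ} (A : AV K N) (x : Fin (N + 1) → K)
    (c' a : Fin (N + 1)) {L : Type u} [Field L] [Algebra K L] (y : Fin (N + 1) → L) :
    aeval y (B2_q A x c' a) =
      aeval (Sum.elim y (fun i => algebraMap K L (x i))) (A.S a c') := by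
  unfold B2_q
  have h : ((aeval y : MvPolynomial (Fin (N + 1)) K →ₐ[K] L).comp
      (aeval (Sum.elim X (fun i => C (x i))) :
        MvPolynomial (Fin (N + 1) ⊕ Fin (N + 1)) K →ₐ[K] MvPolynomial (Fin (N + 1)) K)) =
      aeval (Sum.elim y (fun i => algebraMap K L (x i))) := by
    apply MvPolynomial.algHom_ext
    intro i
    rw [AlgHom.comp_apply, aeval_X, aeval_X]
    cases i with
    | inl i => rw [Sum.elim_inl, Sum.elim_inl, aeval_X]
    | inr i => rw [Sum.elim_inr, Sum.elim_inr, aeval_C]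
  rw [← h, AlgHom.comp_apply]

private theorem B2_sub_homog {K : Type u} [Field K] {N n : ℕ} {g : MvPolynomial (Fin (N + 1)) K}
    (hg : g.IsHomogeneous n) (q : Fin (N + 1) → MvPolynomial (Fin (N + 1)) K)
    (hq : ∀ i, (q i).IsHomogeneous 2) :
    (aeval q g : MvPolynomial (Fin (N + 1)) K).IsHomogeneous (2 * n) :=
  hg.aeval q hq

private theorem B2_sub_eval {K : Type u} [Field K] {N : ℕ} (g : MvPolynomial (Fin (N + 1)) K)
    (q : Fin (N + 1) → MvPolynomial (Fin (N + 1)) K) {L : Type u} [Field L] [Algebra K L]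
    (y : Fin (N + 1) → L) :
    aeval y (aeval q g : MvPolynomial (Fin (N + 1)) K) = aeval (fun i => aeval y (q i)) g := by
  have h : ((aeval y : MvPolynomial (Fin (N + 1)) K →ₐ[K] L).comp
      (aeval q : MvPolynomial (Fin (N + 1)) K →ₐ[K] MvPolynomial (Fin (N + 1)) K)) =
      aeval (fun i => aeval y (q i)) := by
    apply MvPolynomial.algHom_ext
    intro i
    rw [AlgHom.comp_apply, aeval_X, aeval_X]
  rw [← h, AlgHom.comp_apply]

private theorem B2_sub_smul {K : Type u} [Field K] {N n : ℕ} {g : MvPolynomial (Fin (N + 1)) K}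
    (hg : g.IsHomogeneous n) {L : Type u} [Field L] [Algebra K L] (ρ : L)
    (y : Fin (N + 1) → L) : aeval (fun i => ρ * y i) g = ρ ^ n * aeval y g := by
  rw [aeval_def, aeval_def, eval₂_eq', eval₂_eq', Finset.mul_sum]
  refine Finset.sum_congr rfl fun m hm => ?_
  have h1 : ∑ i, m i = n := by
    have h2 := hg (mem_support_iff.mp hm)
    rw [← h2, Finsupp.weight_apply, Finsupp.sum_fintype]
    · simp
    · intro i
      simp
  have e1 : ∏ i, (ρ * y i) ^ m i = ρ ^ n * ∏ i, y i ^ m i := by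
    simp only [mul_pow, Finset.prod_mul_distrib]
    rw [Finset.prod_pow_eq_pow_sum, h1]
  rw [e1]
  ring

private theorem B2_mem {K : Type u} [Field K] {N : ℕ} {F : Type u} [Field F] [Algebra K F]
    (g : Fin (N + 1) → F) {k : ℕ} {f : MvPolynomial (Fin (N + 1)) K} (hf : f.IsHomogeneous k) :
    aeval g f ∈ Submodule.span K (Set.range fun μ : Mo N k => ∏ i, g i ^ (μ.1 i : ℕ)) := by
  rw [aeval_def, eval₂_eq']
  refine Submodule.sum_mem _ fun m hm => ?_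
  have h1 : ∑ i, m i = k := by
    have h2 := hf (mem_support_iff.mp hm)
    rw [← h2, Finsupp.weight_apply, Finsupp.sum_fintype]
    · simp
    · intro i
      simp
  have h3 : ∀ i, m i < k + 1 := by
    intro i
    have h4 : m i ≤ ∑ i, m i := Finset.single_le_sum (fun _ _ => Nat.zero_le _) (Finset.mem_univ i)
    omega
  rw [← Algebra.smul_def]
  refine Submodule.smul_mem _ _ (Submodule.subset_span ?_)
  exact ⟨⟨fun i => ⟨m i, h3 i⟩, h1⟩, rfl⟩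

/-- The form of the leaf. -/
private noncomputable def B2_F {K : Type u} [Field K] {N m Δ : ℕ}
    (q : Fin (N + 1) → MvPolynomial (Fin (N + 1)) K) (j₀ : Fin (N + 1))
    (I : Fin m → Fin (N + 1)) (g₁ h₁ g₂ h₂ : MvPolynomial (Fin (N + 1)) K)
    (s : Fin (Δ + 1) × Fin (Δ + 1) × (Fin m → Fin (Δ + 1))) : MvPolynomial (Fin (N + 1)) K :=
  ((aeval q g₁ : MvPolynomial (Fin (N + 1)) K) ^ (s.1 : ℕ) *
    (aeval q h₁ : MvPolynomial (Fin (N + 1)) K) ^ (Δ - s.1) *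
    ((aeval q g₂ : MvPolynomial (Fin (N + 1)) K) ^ (s.2.1 : ℕ) *
      (aeval q h₂ : MvPolynomial (Fin (N + 1)) K) ^ (Δ - s.2.1))) *
    (∏ k, X (I k) ^ (s.2.2 k : ℕ)) * X j₀ ^ (m * Δ - ∑ k, (s.2.2 k : ℕ))

private theorem B2_sum_le {m Δ : ℕ} (μ : Fin m → Fin (Δ + 1)) : ∑ k, (μ k : ℕ) ≤ m * Δ := by
  have h := Finset.sum_le_card_nsmul (Finset.univ : Finset (Fin m)) (fun k => (μ k : ℕ)) Δ
    fun k _ => Nat.lt_succ_iff.1 (μ k).2
  rwa [Finset.card_univ, Fintype.card_fin, smul_eq_mul] at h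

private theorem B2_i {Δ : ℕ} (i : Fin (Δ + 1)) : (i : ℕ) + (Δ - i) = Δ := by
  have h1 := i.2
  omega

private theorem B2_F_homog {K : Type u} [Field K] {N m Δ n : ℕ}
    (q : Fin (N + 1) → MvPolynomial (Fin (N + 1)) K) (hq : ∀ i, (q i).IsHomogeneous 2)
    (j₀ : Fin (N + 1)) (I : Fin m → Fin (N + 1)) {g₁ h₁ g₂ h₂ : MvPolynomial (Fin (N + 1)) K}
    (hg₁ : g₁.IsHomogeneous n) (hh₁ : h₁.IsHomogeneous n) (hg₂ : g₂.IsHomogeneous n)
    (hh₂ : h₂.IsHomogeneous n) (s : Fin (Δ + 1) × Fin (Δ + 1) × (Fin m → Fin (Δ + 1))) :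
    (B2_F q j₀ I g₁ h₁ g₂ h₂ s).IsHomogeneous (4 * n * Δ + m * Δ) := by
  unfold B2_F
  have e1 := (B2_sub_homog hg₁ q hq).pow (s.1 : ℕ)
  have e1' := (B2_sub_homog hh₁ q hq).pow (Δ - s.1)
  have e2 := (B2_sub_homog hg₂ q hq).pow (s.2.1 : ℕ)
  have e2' := (B2_sub_homog hh₂ q hq).pow (Δ - s.2.1)
  have e4 : (∏ k, (X (I k) : MvPolynomial (Fin (N + 1)) K) ^ (s.2.2 k : ℕ)).IsHomogeneous
      (∑ k, 1 * (s.2.2 k : ℕ)) :=
    IsHomogeneous.prod _ _ _ fun k _ => (isHomogeneous_X K (I k)).pow _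
  have e5 := (isHomogeneous_X K j₀).pow (m * Δ - ∑ k, (s.2.2 k : ℕ))
  have e6 := (((e1.mul e1').mul (e2.mul e2')).mul e4).mul e5
  have e7 : 2 * n * (s.1 : ℕ) + 2 * n * (Δ - s.1) + (2 * n * (s.2.1 : ℕ) + 2 * n * (Δ - s.2.1)) +
      ∑ k, 1 * (s.2.2 k : ℕ) + 1 * (m * Δ - ∑ k, (s.2.2 k : ℕ)) = 4 * n * Δ + m * Δ := by
    have h2 := B2_sum_le s.2.2
    simp only [one_mul]
    rw [← mul_add, ← mul_add, B2_i, B2_i, add_assoc, Nat.add_sub_cancel' h2]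
    ring
  rw [e7] at e6
  exact e6

private theorem B2_F_eval {K : Type u} [Field K] {N m Δ n : ℕ}
    (q : Fin (N + 1) → MvPolynomial (Fin (N + 1)) K)
    (j₀ : Fin (N + 1)) (I : Fin m → Fin (N + 1)) {g₁ h₁ g₂ h₂ : MvPolynomial (Fin (N + 1)) K}
    (hg₁ : g₁.IsHomogeneous n) (hh₁ : h₁.IsHomogeneous n) (hg₂ : g₂.IsHomogeneous n)
    (hh₂ : h₂.IsHomogeneous n) (s : Fin (Δ + 1) × Fin (Δ + 1) × (Fin m → Fin (Δ + 1)))
    {L : Type u} [Field L] [Algebra K L] (x y : Fin (N + 1) → L) (ρ : L)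
    (h : ∀ i, aeval x (q i) = ρ * y i) :
    aeval x (B2_F q j₀ I g₁ h₁ g₂ h₂ s) = ρ ^ (n * (2 * Δ)) *
      (aeval y g₁ ^ (s.1 : ℕ) * aeval y h₁ ^ (Δ - s.1) *
        (aeval y g₂ ^ (s.2.1 : ℕ) * aeval y h₂ ^ (Δ - s.2.1)) *
          (∏ k, x (I k) ^ (s.2.2 k : ℕ)) * x j₀ ^ (m * Δ - ∑ k, (s.2.2 k : ℕ))) := by
  unfold B2_F
  have h1 : (fun i => aeval x (q i)) = fun i => ρ * y i := funext h
  have h2 : aeval x (∏ k, (X (I k) : MvPolynomial (Fin (N + 1)) K) ^ (s.2.2 k : ℕ)) =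
      ∏ k, x (I k) ^ (s.2.2 k : ℕ) := by
    rw [map_prod]
    exact Finset.prod_congr rfl fun k _ => by rw [map_pow, aeval_X]
  rw [map_mul, map_mul, map_mul, map_mul, map_mul, map_pow, map_pow, map_pow, map_pow, map_pow, h2,
    B2_sub_eval, B2_sub_eval, B2_sub_eval, B2_sub_eval, aeval_X, h1, B2_sub_smul hg₁,
    B2_sub_smul hh₁, B2_sub_smul hg₂, B2_sub_smul hh₂]
  have h3 : ρ ^ (n * (2 * Δ)) = ρ ^ (n * (s.1 : ℕ)) * ρ ^ (n * (Δ - s.1)) *
      (ρ ^ (n * (s.2.1 : ℕ)) * ρ ^ (n * (Δ - s.2.1))) := by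
    rw [← pow_add, ← pow_add, ← pow_add, ← mul_add, ← mul_add, B2_i, B2_i]
    congr 1
    ring
  rw [h3, mul_pow (ρ ^ n), mul_pow (ρ ^ n), mul_pow (ρ ^ n), mul_pow (ρ ^ n), ← pow_mul, ← pow_mul,
    ← pow_mul, ← pow_mul]
  ring

private theorem B2_count {N m n C Δ : ℕ} (hΔ : Δ = (N + 1) * C * (4 * n + m + 1) ^ (m + 1)) :
    (N + 1) * (C * (4 * n * Δ + m * Δ + 1) ^ (m + 1)) < (Δ + 1) * ((Δ + 1) * (Δ + 1) ^ m) := by
  have h1 : 4 * n * Δ + m * Δ + 1 ≤ (4 * n + m + 1) * (Δ + 1) := by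
    have : (4 * n + m + 1) * (Δ + 1) = 4 * n * Δ + m * Δ + 1 + (Δ + 4 * n + m) := by ring
    omega
  have h2 : (4 * n * Δ + m * Δ + 1) ^ (m + 1) ≤ ((4 * n + m + 1) * (Δ + 1)) ^ (m + 1) :=
    Nat.pow_le_pow_left h1 _
  have h3 : (N + 1) * (C * (4 * n * Δ + m * Δ + 1) ^ (m + 1)) ≤ Δ * (Δ + 1) ^ (m + 1) := by
    calc (N + 1) * (C * (4 * n * Δ + m * Δ + 1) ^ (m + 1))
        ≤ (N + 1) * (C * ((4 * n + m + 1) * (Δ + 1)) ^ (m + 1)) :=
          Nat.mul_le_mul_left _ (Nat.mul_le_mul_left _ h2)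
      _ = ((N + 1) * C * (4 * n + m + 1) ^ (m + 1)) * (Δ + 1) ^ (m + 1) := by
          rw [mul_pow]
          ring
      _ = Δ * (Δ + 1) ^ (m + 1) := by rw [← hΔ]
  have h4 : Δ * (Δ + 1) ^ (m + 1) < (Δ + 1) * (Δ + 1) ^ (m + 1) :=
    Nat.mul_lt_mul_of_pos_right (Nat.lt_succ_self Δ) (Nat.pow_pos (Nat.succ_pos Δ))
  have h5 : (Δ + 1) * (Δ + 1) ^ (m + 1) = (Δ + 1) * ((Δ + 1) * (Δ + 1) ^ m) := by
    rw [pow_succ' (Δ + 1) m]
  rw [← h5]
  exact lt_of_le_of_lt h3 h4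

/-- RELATIONS.  UVB.B2 (file MP_17a322_ntU2/B2.lean, done by helper59) for the functions `g₁ / h₁`, `g₂ / h₂` of `y = w + b`: arbitrary homogeneous polynomials `g₁`, `h₁`,
`g₂`, `h₂` of degree `n`.  Same proof with `F_{c', s} = (g₁ (q)) ^ i * (h₁ (q)) ^ (Δ - i) * (g₂ (q)) ^ j * (h₂ (q)) ^ (Δ - j) * ∏ k, X (I k) ^ μ k * X j₀ ^ (m Δ - ∑ μ)`,
of the same degree `4 n Δ + m Δ` in `b`, and the same `Δ`. -/
theorem B2 {K : Type u} [Field K] [NumberField K] {N : ℕ} {A B : AV K N} (hB : IsSubAV B A)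
    {m : ℕ} (hm : B.dimIs (m + 1)) (n : ℕ) : ∃ Δ : ℕ, ∀ (w : A.Pts K) (j₀ : Fin (N + 1))
      (I : Fin m → Fin (N + 1)) (g₁ h₁ g₂ h₂ : MvPolynomial (Fin (N + 1)) K),
      g₁.IsHomogeneous n → h₁.IsHomogeneous n → g₂.IsHomogeneous n → h₂.IsHomogeneous n →
      ∃ Φ : Fin (Δ + 1) × Fin (Δ + 1) × (Fin m → Fin (Δ + 1)) → K, Φ ≠ 0 ∧
        ∀ (L : Type u) [Field L] [Algebra K L] (b : B.Pts L),
          ∑ s, algebraMap K L (Φ s) *
            (aeval (yw hB w b) g₁ ^ (s.1 : ℕ) * aeval (yw hB w b) h₁ ^ (Δ - s.1) *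
              (aeval (yw hB w b) g₂ ^ (s.2.1 : ℕ) * aeval (yw hB w b) h₂ ^ (Δ - s.2.1)) *
                (∏ k, B.x b (I k) ^ (s.2.2 k : ℕ)) *
                  B.x b j₀ ^ (m * Δ - ∑ k, (s.2.2 k : ℕ))) = 0 := by
  obtain ⟨C', hC⟩ := B1 B hm
  obtain ⟨Δ, hΔ⟩ : ∃ Δ : ℕ, Δ = (N + 1) * C' * (4 * n + m + 1) ^ (m + 1) := ⟨_, rfl⟩
  refine ⟨Δ, fun w j₀ I g₁ h₁ g₂ h₂ hg₁ hh₁ hg₂ hh₂ => ?_⟩
  let k : ℕ := 4 * n * Δ + m * Δ
  let V : Submodule K B.FF := Submodule.span K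
    (Set.range fun μ : Mo N k => ∏ i, B.gp i ^ (μ.1 i : ℕ))
  let G : Fin (N + 1) → (Fin (Δ + 1) × Fin (Δ + 1) × (Fin m → Fin (Δ + 1))) →
      MvPolynomial (Fin (N + 1)) K := fun c' s =>
    B2_F (B2_q A (A.x w) c') j₀ I g₁ h₁ g₂ h₂ s
  have hG : ∀ c' s, (aeval B.gp (G c' s) : B.FF) ∈ V := fun c' s =>
    B2_mem B.gp (B2_F_homog _ (B2_q_homog A (A.x w) c') j₀ I hg₁ hh₁ hg₂ hh₂ s)
  have hV : Module.Finite K V := Module.Finite.span_of_finite K (Set.finite_range _)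
  let T : ((Fin (Δ + 1) × Fin (Δ + 1) × (Fin m → Fin (Δ + 1))) → K) →ₗ[K]
      (Fin (N + 1) → V) :=
    LinearMap.pi fun c' => Fintype.linearCombination K
      (fun s => (⟨aeval B.gp (G c' s), hG c' s⟩ : V))
  have hlt : Module.finrank K (Fin (N + 1) → V) <
      Module.finrank K ((Fin (Δ + 1) × Fin (Δ + 1) × (Fin m → Fin (Δ + 1))) → K) := by
    rw [Module.finrank_pi_fintype, Module.finrank_fintype_fun_eq_card, Finset.sum_const,
      Finset.card_univ, Fintype.card_fin, smul_eq_mul, Fintype.card_prod, Fintype.card_prod,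
      Fintype.card_fun, Fintype.card_fin, Fintype.card_fin]
    exact lt_of_le_of_lt (Nat.mul_le_mul_left _ (hC k)) (B2_count hΔ)
  have hker := LinearMap.ker_ne_bot_of_finrank_lt (f := T) hlt
  obtain ⟨Φ, hΦ, hΦ0⟩ := (Submodule.ne_bot_iff _).1 hker
  refine ⟨Φ, hΦ0, fun L _ _ b => ?_⟩
  have h0 : ∀ c', ∑ s, algebraMap K L (Φ s) * aeval (B.x b) (G c' s) = 0 := by
    intro c'
    have h1 : aeval B.gp (∑ s, C (Φ s) * G c' s) = 0 := by
      have h2 := congrFun (LinearMap.mem_ker.1 hΦ) c'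
      have h3 : (Fintype.linearCombination K
        (fun s => (⟨aeval B.gp (G c' s), hG c' s⟩ : V)) Φ) = 0 := h2
      rw [Fintype.linearCombination_apply] at h3
      have h4 := congrArg (fun v : V => (v : B.FF)) h3
      simp only [Submodule.coe_sum, Submodule.coe_smul, Submodule.coe_zero] at h4
      rw [map_sum, ← h4]
      refine Finset.sum_congr rfl fun s _ => ?_
      rw [map_mul, aeval_C, Algebra.smul_def]
    have h5 := B2a B _ h1 b
    rw [map_sum] at h5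
    rw [← h5]
    refine Finset.sum_congr rfl fun s _ => ?_
    rw [map_mul, aeval_C]
  obtain ⟨γ, hγ, hS⟩ := (AV.Rep.self (hB.inc L b)).spec (A.img_rep (Algebra.ofId K L) w)
  obtain ⟨c', hc'⟩ := A.exists_x_ne (hB.inc L b - A.img (Algebra.ofId K L) w)
  have h6 : ∀ i, aeval (B.x b) (B2_q A (A.x w) c' i) =
      (γ * A.x (hB.inc L b - A.img (Algebra.ofId K L) w) c') * yw hB w b i := by
    intro i
    rw [B2_q_eval]
    have h7 := hS i c'
    rw [hB.x_inc b] at h7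
    have h8 : yw hB w b i = A.x (hB.inc L b + A.img (Algebra.ofId K L) w) i := by
      unfold yw
      rw [add_comm]
    rw [h8]
    refine Eq.trans h7 ?_
    ring
  have h9 := h0 c'
  have h10 : ∀ s, algebraMap K L (Φ s) * aeval (B.x b) (G c' s) =
      (γ * A.x (hB.inc L b - A.img (Algebra.ofId K L) w) c') ^ (n * (2 * Δ)) *
        (algebraMap K L (Φ s) *
            (aeval (yw hB w b) g₁ ^ (s.1 : ℕ) * aeval (yw hB w b) h₁ ^ (Δ - s.1) *
              (aeval (yw hB w b) g₂ ^ (s.2.1 : ℕ) * aeval (yw hB w b) h₂ ^ (Δ - s.2.1)) *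
                (∏ k, B.x b (I k) ^ (s.2.2 k : ℕ)) *
                  B.x b j₀ ^ (m * Δ - ∑ k, (s.2.2 k : ℕ)))) := by
    intro s
    have h11 := B2_F_eval (B2_q A (A.x w) c') j₀ I hg₁ hh₁ hg₂ hh₂ s (B.x b) (yw hB w b) _ h6
    show algebraMap K L (Φ s) * aeval (B.x b) (B2_F (B2_q A (A.x w) c') j₀ I g₁ h₁ g₂ h₂ s) = _
    rw [h11]
    ring
  rw [Finset.sum_congr rfl fun s _ => h10 s, ← Finset.mul_sum] at h9
  exact (mul_eq_zero.1 h9).resolve_left (pow_ne_zero _ (mul_ne_zero hγ hc'))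

end UVC
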