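import Pool.Agent.Lib.MP_17a322_ntU3.B2

/-!
uv2 general form, leaf B3: the bad pairs of coefficients lie on a curve of bounded degree.
-/

universe u

namespace UVC

open UVB
open Pool.Agent.Lib.MP_17a322_nt.VA

private theorem B3_term {F : Type*} [Field F] {m Δ i j : ℕ} (hi : i ≤ Δ) (hj : j ≤ Δ) (φ a₁ a₂ y₁ y₂ b : F)
    (hb : b ≠ 0) (z : Fin m → F) (ν : Fin m → Fin (Δ + 1)) :
    φ * ((-(a₁ * y₁)) ^ i * y₁ ^ (Δ - i) * ((-(a₂ * y₂)) ^ j * y₂ ^ (Δ - j)) *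
      (∏ k, z k ^ (ν k : ℕ)) * b ^ (m * Δ - ∑ k, (ν k : ℕ))) =
      (y₁ ^ Δ * y₂ ^ Δ) * b ^ (m * Δ) * (φ * (-a₁) ^ i * (-a₂) ^ j * ∏ k, (z k / b) ^ (ν k : ℕ)) := by
  have h1 : ∑ k, (ν k : ℕ) ≤ m * Δ := by
    have h2 : ∑ k, (ν k : ℕ) ≤ ∑ _k : Fin m, Δ := Finset.sum_le_sum fun k _ => by
      have := (ν k).2
      omega
    rw [Finset.sum_const, Finset.card_univ, Fintype.card_fin, smul_eq_mul] at h2
    exact h2
  have h3 : ∏ k, z k ^ (ν k : ℕ) = b ^ (∑ k, (ν k : ℕ)) * ∏ k, (z k / b) ^ (ν k : ℕ) := by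
    rw [← Finset.prod_pow_eq_pow_sum, ← Finset.prod_mul_distrib]
    refine Finset.prod_congr rfl fun k _ => ?_
    rw [← mul_pow, mul_div_cancel₀ _ hb]
  have h4 : b ^ (m * Δ) = b ^ (∑ k, (ν k : ℕ)) * b ^ (m * Δ - ∑ k, (ν k : ℕ)) := by
    rw [← pow_add, Nat.add_sub_cancel' h1]
  have h5 : y₁ ^ Δ = y₁ ^ i * y₁ ^ (Δ - i) := by
    rw [← pow_add, Nat.add_sub_cancel' hi]
  have h6 : y₂ ^ Δ = y₂ ^ j * y₂ ^ (Δ - j) := by
    rw [← pow_add, Nat.add_sub_cancel' hj]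
  rw [h3, h4, h5, h6, ← neg_mul, ← neg_mul, mul_pow (-a₁), mul_pow (-a₂)]
  ring

/-- THE CURVE OF THE BAD PAIRS.  UVB.B3 (file MP_17a322_ntU2/B3.lean, done by helper32) for the forms `g₁ + a₁ h₁`, `g₂ + a₂ h₂`: same proof with B2:
at a point as in `BadAt` one has `g₁ (y) = - a₁ h₁ (y)`, `g₂ (y) = - a₂ h₂ (y)`, and the relation becomes
`h₁ (y) ^ Δ h₂ (y) ^ Δ b_{j₀} ^ (m Δ) ∑_ν (∑_{i, j} Φ (i, j, ν) (- a₁) ^ i (- a₂) ^ j) ∏ k, t k ^ ν k = 0`. -/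
theorem B3 {K : Type u} [Field K] [NumberField K] {N : ℕ} {A B : AV K N} (hB : IsSubAV B A)
    {m : ℕ} (hm : B.dimIs (m + 1)) (n : ℕ) : ∃ Δ : ℕ, ∀ (w : A.Pts K) (j₀ : Fin (N + 1))
      (I : Fin m → Fin (N + 1)) (g₁ h₁ g₂ h₂ : MvPolynomial (Fin (N + 1)) K),
      g₁.IsHomogeneous n → h₁.IsHomogeneous n → g₂.IsHomogeneous n → h₂.IsHomogeneous n →
      ∃ Q : Fin (Δ + 1) → Fin (Δ + 1) → K, Q ≠ 0 ∧ ∀ a₁ a₂ : K,
        BadAt hB w h₁ h₂ j₀ I g₁ g₂ a₁ a₂ →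
          ∑ i, ∑ j, Q i j * a₁ ^ (i : ℕ) * a₂ ^ (j : ℕ) = 0 := by
  classical
  obtain ⟨Δ, hΔ⟩ := B2 hB hm n
  refine ⟨Δ, fun w j₀ I g₁ h₁ g₂ h₂ hg₁ hh₁ hg₂ hh₂ => ?_⟩
  obtain ⟨Φ, hΦ, hrel⟩ := hΔ w j₀ I g₁ h₁ g₂ h₂ hg₁ hh₁ hg₂ hh₂
  obtain ⟨⟨i', j', μ⟩, hμ⟩ : ∃ s, Φ s ≠ 0 := by
    by_contra hcon
    push Not at hcon
    exact hΦ (funext hcon)
  refine ⟨fun i j => Φ (i, j, μ) * (-1) ^ ((i : ℕ) + (j : ℕ)), fun h0 => ?_, ?_⟩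
  · have h1 := congrFun (congrFun h0 i') j'
    have h2 : ((-1 : K)) ^ ((i' : ℕ) + (j' : ℕ)) ≠ 0 := pow_ne_zero _ (neg_ne_zero.2 one_ne_zero)
    exact (mul_ne_zero hμ h2) h1
  · rintro a₁ a₂ ⟨L, iF, iA, b, hy1, hy2, hb, hind, h1, h2⟩
    rw [add_eq_zero_iff_eq_neg] at h1 h2
    have h3 := hrel L b
    rw [h1, h2] at h3
    obtain ⟨y₁, hy₁⟩ : ∃ y₁, y₁ = MvPolynomial.aeval (yw hB w b) h₁ := ⟨_, rfl⟩
    obtain ⟨y₂, hy₂⟩ : ∃ y₂, y₂ = MvPolynomial.aeval (yw hB w b) h₂ := ⟨_, rfl⟩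
    rw [← hy₁] at hy1
    rw [← hy₂] at hy2
    rw [← hy₁, ← hy₂] at h3
    have h4 : ∑ s : Fin (Δ + 1) × Fin (Δ + 1) × (Fin m → Fin (Δ + 1)),
        (y₁ ^ Δ * y₂ ^ Δ) * B.x b j₀ ^ (m * Δ) *
          (algebraMap K L (Φ s) * (-algebraMap K L a₁) ^ (s.1 : ℕ) * (-algebraMap K L a₂) ^ (s.2.1 : ℕ) *
            ∏ k, (B.x b (I k) / B.x b j₀) ^ (s.2.2 k : ℕ)) = 0 := by
      rw [← h3]
      refine Finset.sum_congr rfl fun s _ => ?_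
      exact (B3_term (by have := s.1.2; omega) (by have := s.2.1.2; omega) _ _ _ _ _ _ hb _ _).symm
    rw [← Finset.mul_sum] at h4
    have h5 : (y₁ ^ Δ * y₂ ^ Δ) * B.x b j₀ ^ (m * Δ) ≠ 0 :=
      mul_ne_zero (mul_ne_zero (pow_ne_zero _ hy1) (pow_ne_zero _ hy2)) (pow_ne_zero _ hb)
    have h6 := (mul_eq_zero.1 h4).resolve_left h5
    rw [Fintype.sum_prod_type] at h6
    -- the polynomial
    obtain ⟨cf, hcf⟩ : ∃ cf : (Fin m → Fin (Δ + 1)) → K, ∀ ν, cf ν =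
        ∑ i : Fin (Δ + 1), ∑ j : Fin (Δ + 1), Φ (i, j, ν) * (-a₁) ^ (i : ℕ) * (-a₂) ^ (j : ℕ) := ⟨_, fun _ => rfl⟩
    obtain ⟨ex, hex⟩ : ∃ ex : (Fin m → Fin (Δ + 1)) → (Fin m →₀ ℕ), ∀ ν k, ex ν k = (ν k : ℕ) :=
      ⟨fun ν => Finsupp.equivFunOnFinite.symm fun k => (ν k : ℕ), fun ν k => rfl⟩
    have hexi : Function.Injective ex := by
      intro ν ν' h
      funext k
      have h7 := DFunLike.congr_fun h k
      rw [hex, hex] at h7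
      exact Fin.ext h7
    obtain ⟨P, hP⟩ : ∃ P : MvPolynomial (Fin m) K, P = ∑ ν, MvPolynomial.monomial (ex ν) (cf ν) := ⟨_, rfl⟩
    have h7 : MvPolynomial.aeval (fun k => B.x b (I k) / B.x b j₀) P = 0 := by
      rw [hP, map_sum, ← h6]
      have h8 : ∀ ν : Fin m → Fin (Δ + 1), MvPolynomial.aeval (fun k => B.x b (I k) / B.x b j₀)
          (MvPolynomial.monomial (ex ν) (cf ν)) = ∑ i : Fin (Δ + 1), ∑ j : Fin (Δ + 1),
            algebraMap K L (Φ (i, j, ν)) * (-algebraMap K L a₁) ^ (i : ℕ) * (-algebraMap K L a₂) ^ (j : ℕ) *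
              ∏ k, (B.x b (I k) / B.x b j₀) ^ (ν k : ℕ) := by
        intro ν
        rw [MvPolynomial.aeval_monomial, hcf, map_sum, Finset.sum_mul]
        refine Finset.sum_congr rfl fun i _ => ?_
        rw [map_sum, Finset.sum_mul]
        refine Finset.sum_congr rfl fun j _ => ?_
        rw [map_mul, map_mul, map_pow, map_pow, map_neg, map_neg,
          Finsupp.prod_fintype _ _ (fun k => pow_zero _)]
        simp only [hex]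
      rw [Finset.sum_congr rfl fun ν _ => h8 ν, Finset.sum_comm]
      refine Finset.sum_congr rfl fun i _ => ?_
      rw [Finset.sum_comm, Fintype.sum_prod_type]
    have h8 : P = 0 := by
      rw [algebraicIndependent_iff] at hind
      exact hind P h7
    have h9 : MvPolynomial.coeff (ex μ) P = cf μ := by
      rw [hP, MvPolynomial.coeff_sum, Finset.sum_eq_single μ]
      · rw [MvPolynomial.coeff_monomial, if_pos rfl]
      · intro ν _ hν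
        rw [MvPolynomial.coeff_monomial, if_neg fun h => hν (hexi h)]
      · intro h
        exact absurd (Finset.mem_univ μ) h
    rw [h8, MvPolynomial.coeff_zero, hcf] at h9
    rw [h9]
    refine Finset.sum_congr rfl fun i _ => Finset.sum_congr rfl fun j _ => ?_
    have h10 : Φ (i, j, μ) * (-1) ^ ((i : ℕ) + (j : ℕ)) * a₁ ^ (i : ℕ) * a₂ ^ (j : ℕ) =
        Φ (i, j, μ) * (-a₁) ^ (i : ℕ) * (-a₂) ^ (j : ℕ) := by
      rw [neg_pow a₁, neg_pow a₂, pow_add]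
      ring
    exact h10

end UVC
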