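import Pool.Agent.Lib.MP_17a322_ntU3.B3
import Pool.Agent.Lib.MP_17a322_ntU2.B4
import Pool.Agent.Lib.MP_17a322_ntU2.B5a

/-!
uv2 general form, leaf B5: one translate.
-/

universe u

namespace UVC

open NumberField UVB
open Pool.Agent.Lib.MP_17a322_nt.VA

private theorem B5_card {c : Cardinal.{u}} {m : ℕ} (h : ((m + 1 : ℕ) : Cardinal.{u}) ≤ c + 1) :
    (m : Cardinal.{u}) ≤ c := by
  by_contra hcon
  push Not at hcon
  obtain ⟨n, rfl⟩ := Cardinal.lt_aleph0.1 (hcon.trans Cardinal.natCast_lt_aleph0)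
  have h1 : m + 1 ≤ n + 1 := by exact_mod_cast h
  have h2 : n < m := by exact_mod_cast hcon
  omega

private theorem B5_ne {K : Type u} [Field K] {N : ℕ} (A : AV K N) {L : Type u} [Field L] [Algebra K L]
    (P : A.Pts L) : ∃ i, A.x P i ≠ 0 := by
  by_contra hcon
  push Not at hcon
  exact P.1.rep_nonzero (funext hcon)

/-- the form `g_j` without the term of index `k₁` -/
private noncomputable def B5_g {K : Type u} [Field K] [NumberField K] {N r d D : ℕ} (Φ : Fam K N r d D)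
    (c : Φ.Ix → K) (j : Fin r) (k₁ : Fin Φ.p) : MvPolynomial (Fin (N + 1)) K :=
  MvPolynomial.map (algebraMap (𝓞 K) K) (Φ.G j) + ∑ k ∈ Finset.univ.erase k₁,
    MvPolynomial.C (c (Sum.inl (j, k))) * MvPolynomial.map (algebraMap (𝓞 K) K) (Φ.E j k)

private theorem B5_hom {K : Type u} [Field K] [NumberField K] {N r d D : ℕ} (Φ : Fam K N r d D)
    (c : Φ.Ix → K) (j : Fin r) (k₁ : Fin Φ.p) : (B5_g Φ c j k₁).IsHomogeneous d := by
  unfold B5_g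
  refine ((Φ.hG j).map _).add (MvPolynomial.IsHomogeneous.sum _ _ _ fun k _ => ?_)
  have h := (MvPolynomial.isHomogeneous_C (Fin (N + 1)) (c (Sum.inl (j, k)))).mul ((Φ.hE j k).map (algebraMap (𝓞 K) K))
  rw [zero_add] at h
  exact h

private theorem B5_eval {K : Type u} [Field K] [NumberField K] {N r d D : ℕ} (Φ : Fam K N r d D)
    (c : Φ.Ix → K) (j : Fin r) (k₁ : Fin Φ.p) {L : Type u} [Field L] [Algebra K L] (y : Fin (N + 1) → L) :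
    MvPolynomial.aeval y (B5_g Φ c j k₁) + algebraMap K L (c (Sum.inl (j, k₁))) *
      MvPolynomial.aeval y (MvPolynomial.map (algebraMap (𝓞 K) K) (Φ.E j k₁)) =
      Φ.g (fun i => algebraMap K L (c i)) y j := by
  unfold B5_g Fam.g ev
  rw [map_add, map_sum, add_assoc,
    ← Finset.sum_erase_add Finset.univ (fun k => algebraMap K L (c (Sum.inl (j, k))) *
      MvPolynomial.aeval y (MvPolynomial.map (algebraMap (𝓞 K) K) (Φ.E j k))) (Finset.mem_univ k₁)]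
  congr 2
  refine Finset.sum_congr rfl fun k _ => ?_
  rw [map_mul, MvPolynomial.aeval_C]

private theorem B5_upd {K : Type u} [Field K] [NumberField K] {N r d D : ℕ} (Φ : Fam K N r d D)
    (c c' : Φ.Ix → K) (j : Fin r) (k₁ : Fin Φ.p) (h : ∀ k, k ≠ k₁ → c (Sum.inl (j, k)) = c' (Sum.inl (j, k))) :
    B5_g Φ c j k₁ = B5_g Φ c' j k₁ := by
  unfold B5_g
  congr 1
  refine Finset.sum_congr rfl fun k hk => ?_
  rw [h k (Finset.ne_of_mem_erase hk)]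

/-- a bad vector has a bad pair of forms -/
private theorem B5_bad {K : Type u} [Field K] [NumberField K] {N r d D m : ℕ} {A B : AV K N} (hB : IsSubAV B A)
    (hdim : B.dimIs (m + 1)) (Φ : Fam K N r d D) (hΦ : Φ.Bpf A) (w : A.Pts K) (r0 r1 : Fin r) (c : Φ.Ix → K)
    (h : Φ.BadW hB w c) :
    ∃ κ ∈ (Finset.univ : Finset (Fin Φ.p × Fin Φ.p × Fin (N + 1) × (Fin m → Fin (N + 1)))),
      BadAt hB w (MvPolynomial.map (algebraMap (𝓞 K) K) (Φ.E r0 κ.1))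
        (MvPolynomial.map (algebraMap (𝓞 K) K) (Φ.E r1 κ.2.1)) κ.2.2.1 κ.2.2.2
        (B5_g Φ c r0 κ.1) (B5_g Φ c r1 κ.2.1) (c (Sum.inl (r0, κ.1))) (c (Sum.inl (r1, κ.2.1))) := by
  obtain ⟨L, fL, aL, b, h1, h2⟩ := h
  obtain ⟨L', fL', aL', q, hq⟩ := hdim.2
  have h3 : (m : Cardinal.{u}) ≤ tdeg K (B.x b) := by
    apply B5_card
    rw [← hq]
    exact h2 L' q
  obtain ⟨i, hi⟩ := B5_ne B b
  have hb : B.x b ≠ 0 := fun h => hi (congrFun h i)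
  obtain ⟨j₀, I, hj₀, hI⟩ := B5a (B.x b) hb h3
  have h4 := (hΦ L (A.img (Algebra.ofId K L) w + hB.inc L b)).1
  obtain ⟨k₁, hk₁⟩ := h4 r0
  obtain ⟨k₂, hk₂⟩ := h4 r1
  refine ⟨(k₁, k₂, j₀, I), Finset.mem_univ _, L, fL, aL, b, hk₁, hk₂, hj₀, hI, ?_, ?_⟩
  · exact (B5_eval Φ c r0 k₁ (yw hB w b)).trans (h1 r0)
  · exact (B5_eval Φ c r1 k₂ (yw hB w b)).trans (h1 r1)

/-- ONE TRANSLATE.  UVB.B5 (file MP_17a322_ntU2/B5.lean, done by helper57) for a family without base points.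

PROOF.  `n₀ = m + 1`; for `L`, `b` of `BadW` one has `m ≤ tdeg K (B.x b)` and, by B5a, `j₀`, `I`, as there.  `Φ.Bpf A` at the point `w + b` of `A` over `L` gives
`k₁`, `k₂` with `ev (Φ.E 0 k₁) (yw hB w b) ≠ 0`, `ev (Φ.E 1 k₂) (yw hB w b) ≠ 0`.  So `BadAt hB w h₁ h₂ j₀ I g₁ g₂ a₁ a₂` holds with `h₁ = Φ.E 0 k₁`, `h₂ = Φ.E 1 k₂` (mapped to
`K`), `a₁ = c (inl (0, k₁))`, `a₂ = c (inl (1, k₂))`, `g₁ = Φ.G 0 + ∑_{k ≠ k₁} c_0k Φ.E 0 k`, `g₂` similarly.  For each of the finitely many `(k₁, k₂, j₀, I)` B4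
applies with `p c = BadAt hB w h₁ h₂ j₀ I (g₁ of c) (g₂ of c) (c (inl (0, k₁))) (c (inl (1, k₂)))`, `j₁ = inl (0, k₁)`, `j₂ = inl (1, k₂)` and `Δ` of B3 (`n = d`):
`g₁`, `g₂` do not depend on the entries at `j₁`, `j₂`.  Union bound (`cnt_exists`, `cnt_mono`). -/
theorem B5 {K : Type u} [Field K] [NumberField K] {N r d D e : ℕ} {A B : AV K N} (hB : IsSubAV B A)
    {n₀ : ℕ} (hn₀ : 0 < n₀) (hdim : B.dimIs n₀) (hr : 2 ≤ r) (Φ : Fam K N r d D) (hb : Φ.Bpf A)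
    (ω : Module.Basis (Fin e) ℤ (𝓞 K)) : ∃ C : ℝ, 0 ≤ C ∧ ∀ (w : A.Pts K) (H : ℕ), 1 ≤ H →
      (cnt H (fun a : Φ.Ix × Fin e → ℤ => Φ.BadW hB w (ck ω a)) : ℝ) ≤
        C * (1 / H) * (H : ℝ) ^ (Fintype.card Φ.Ix * e) := by
  classical
  obtain ⟨m, rfl⟩ : ∃ m, n₀ = m + 1 := ⟨n₀ - 1, by omega⟩
  obtain ⟨Δ, hΔ⟩ := B3 hB hdim d
  obtain ⟨r0, hr0⟩ : ∃ r0 : Fin r, (r0 : ℕ) = 0 := ⟨⟨0, by omega⟩, rfl⟩
  obtain ⟨r1, hr1⟩ : ∃ r1 : Fin r, (r1 : ℕ) = 1 := ⟨⟨1, by omega⟩, rfl⟩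
  have h01 : r0 ≠ r1 := by
    intro h
    rw [h] at hr0
    omega
  obtain ⟨M, hM⟩ : ∃ M : ℝ,
      M = ((Finset.univ : Finset (Fin Φ.p × Fin Φ.p × Fin (N + 1) × (Fin m → Fin (N + 1)))).card : ℝ) :=
    ⟨_, rfl⟩
  refine ⟨M * (2 * Δ * 4 ^ (Fintype.card Φ.Ix * e)), by rw [hM]; positivity, fun w H hH => ?_⟩
  have hone : ∀ κ : Fin Φ.p × Fin Φ.p × Fin (N + 1) × (Fin m → Fin (N + 1)),
      (cnt H (fun a : Φ.Ix × Fin e → ℤ => BadAt hB w (MvPolynomial.map (algebraMap (𝓞 K) K) (Φ.E r0 κ.1))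
        (MvPolynomial.map (algebraMap (𝓞 K) K) (Φ.E r1 κ.2.1)) κ.2.2.1 κ.2.2.2
        (B5_g Φ (ck ω a) r0 κ.1) (B5_g Φ (ck ω a) r1 κ.2.1) (ck ω a (Sum.inl (r0, κ.1)))
        (ck ω a (Sum.inl (r1, κ.2.1)))) : ℝ) ≤
        2 * Δ * 4 ^ (Fintype.card Φ.Ix * e) * (1 / H) * (H : ℝ) ^ (Fintype.card Φ.Ix * e) := by
    rintro ⟨k₁, k₂, j₀, I⟩
    refine B4 ω Δ (Sum.inl (r0, k₁) : Φ.Ix) (Sum.inl (r1, k₂) : Φ.Ix) ?_
      (fun c : Φ.Ix → K => BadAt hB w (MvPolynomial.map (algebraMap (𝓞 K) K) (Φ.E r0 k₁))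
        (MvPolynomial.map (algebraMap (𝓞 K) K) (Φ.E r1 k₂)) j₀ I
        (B5_g Φ c r0 k₁) (B5_g Φ c r1 k₂) (c (Sum.inl (r0, k₁))) (c (Sum.inl (r1, k₂))))
      ?_ H hH
    · intro h
      rw [Sum.inl.injEq, Prod.mk.injEq] at h
      exact h01 h.1
    · intro c
      obtain ⟨Q, hQ0, hQ⟩ := hΔ w j₀ I (B5_g Φ c r0 k₁) (MvPolynomial.map (algebraMap (𝓞 K) K) (Φ.E r0 k₁))
        (B5_g Φ c r1 k₂) (MvPolynomial.map (algebraMap (𝓞 K) K) (Φ.E r1 k₂))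
        (B5_hom Φ c r0 k₁) ((Φ.hE r0 k₁).map _) (B5_hom Φ c r1 k₂) ((Φ.hE r1 k₂).map _)
      refine ⟨Q, hQ0, fun a₁ a₂ hbad => hQ a₁ a₂ ?_⟩
      have e1 : B5_g Φ (Function.update (Function.update c (Sum.inl (r0, k₁)) a₁) (Sum.inl (r1, k₂)) a₂) r0 k₁ =
          B5_g Φ c r0 k₁ := by
        refine B5_upd Φ _ _ r0 k₁ fun k hk => ?_
        rw [Function.update_of_ne, Function.update_of_ne]
        · intro h
          rw [Sum.inl.injEq, Prod.mk.injEq] at h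
          exact hk h.2
        · intro h
          rw [Sum.inl.injEq, Prod.mk.injEq] at h
          exact h01 h.1
      have e2 : B5_g Φ (Function.update (Function.update c (Sum.inl (r0, k₁)) a₁) (Sum.inl (r1, k₂)) a₂) r1 k₂ =
          B5_g Φ c r1 k₂ := by
        refine B5_upd Φ _ _ r1 k₂ fun k hk => ?_
        rw [Function.update_of_ne, Function.update_of_ne]
        · intro h
          rw [Sum.inl.injEq, Prod.mk.injEq] at h
          exact h01 h.1.symm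
        · intro h
          rw [Sum.inl.injEq, Prod.mk.injEq] at h
          exact hk h.2
      have e3 : Function.update (Function.update c (Sum.inl (r0, k₁)) a₁) (Sum.inl (r1, k₂)) a₂
          (Sum.inl (r0, k₁)) = a₁ := by
        rw [Function.update_of_ne, Function.update_self]
        intro h
        rw [Sum.inl.injEq, Prod.mk.injEq] at h
        exact h01 h.1
      have e4 : Function.update (Function.update c (Sum.inl (r0, k₁)) a₁) (Sum.inl (r1, k₂)) a₂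
          (Sum.inl (r1, k₂)) = a₂ := Function.update_self ..
      rw [e1, e2, e3, e4] at hbad
      exact hbad
  have h1 := (cnt_mono H (fun (a : Φ.Ix × Fin e → ℤ) (h : Φ.BadW hB w (ck ω a)) =>
    B5_bad hB hdim Φ hb w r0 r1 (ck ω a) h)).trans
    (cnt_exists H (Finset.univ : Finset (Fin Φ.p × Fin Φ.p × Fin (N + 1) × (Fin m → Fin (N + 1)))) _)
  calc (cnt H (fun a : Φ.Ix × Fin e → ℤ => Φ.BadW hB w (ck ω a)) : ℝ)
      ≤ ((∑ κ : Fin Φ.p × Fin Φ.p × Fin (N + 1) × (Fin m → Fin (N + 1)),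
          cnt H (fun a : Φ.Ix × Fin e → ℤ => BadAt hB w (MvPolynomial.map (algebraMap (𝓞 K) K) (Φ.E r0 κ.1))
            (MvPolynomial.map (algebraMap (𝓞 K) K) (Φ.E r1 κ.2.1)) κ.2.2.1 κ.2.2.2
            (B5_g Φ (ck ω a) r0 κ.1) (B5_g Φ (ck ω a) r1 κ.2.1) (ck ω a (Sum.inl (r0, κ.1)))
            (ck ω a (Sum.inl (r1, κ.2.1)))) : ℕ) : ℝ) := by
        exact_mod_cast h1
    _ = ∑ κ : Fin Φ.p × Fin Φ.p × Fin (N + 1) × (Fin m → Fin (N + 1)),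
          (cnt H (fun a : Φ.Ix × Fin e → ℤ => BadAt hB w (MvPolynomial.map (algebraMap (𝓞 K) K) (Φ.E r0 κ.1))
            (MvPolynomial.map (algebraMap (𝓞 K) K) (Φ.E r1 κ.2.1)) κ.2.2.1 κ.2.2.2
            (B5_g Φ (ck ω a) r0 κ.1) (B5_g Φ (ck ω a) r1 κ.2.1) (ck ω a (Sum.inl (r0, κ.1)))
            (ck ω a (Sum.inl (r1, κ.2.1)))) : ℝ) := by
        push_cast
        rfl
    _ ≤ ∑ _κ : Fin Φ.p × Fin Φ.p × Fin (N + 1) × (Fin m → Fin (N + 1)),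
          2 * Δ * 4 ^ (Fintype.card Φ.Ix * e) * (1 / H) * (H : ℝ) ^ (Fintype.card Φ.Ix * e) :=
        Finset.sum_le_sum fun κ _ => hone κ
    _ = M * (2 * Δ * 4 ^ (Fintype.card Φ.Ix * e)) * (1 / H) *
          (H : ℝ) ^ (Fintype.card Φ.Ix * e) := by
        rw [Finset.sum_const, nsmul_eq_mul, ← hM]
        ring

end UVC
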