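import Pool.Agent.Lib.MP_17a322_ntU2.T0
import Pool.Agent.Lib.MP_17a322_ntU2.T1

/-!
uv2 general form, leaf T2: values of a random linear form at an infinite place.
-/

universe u

namespace UVC

open NumberField UVB

private theorem T2_co_sub {K : Type u} [Field K] [NumberField K] {e : ℕ} (ω : Module.Basis (Fin e) ℤ (𝓞 K))
    {ι : Type} (a b : ι × Fin e → ℤ) (i : ι) : ck ω (a - b) i = ck ω a i - ck ω b i := by
  unfold ck co
  rw [← map_sub, ← Finset.sum_sub_distrib]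
  congr 1
  refine Finset.sum_congr rfl fun k _ => ?_
  rw [Pi.sub_apply, sub_smul]

private theorem T2_ck_single {K : Type u} [Field K] [NumberField K] {e : ℕ}
    (ω : Module.Basis (Fin e) ℤ (𝓞 K)) {ι : Type} [DecidableEq ι] (j : ι) (k₀ : Fin e) (t : ℤ) (i : ι) :
    ck ω (Pi.single (j, k₀) t) i = if i = j then (t : K) * algebraMap (𝓞 K) K (ω k₀) else 0 := by
  unfold ck co
  by_cases h : i = j
  · rw [if_pos h, h, Finset.sum_eq_single k₀]
    · rw [Pi.single_eq_same, zsmul_eq_mul, map_mul, map_intCast]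
    · intro k _ hk
      rw [Pi.single_eq_of_ne (fun h2 => hk (congrArg Prod.snd h2)), zero_smul]
    · intro h2
      exact absurd (Finset.mem_univ _) h2
  · rw [if_neg h, Finset.sum_eq_zero, map_zero]
    intro k _
    rw [Pi.single_eq_of_ne (fun h2 => h (congrArg Prod.fst h2)), zero_smul]

private theorem T2_lin_sub {K : Type u} [Field K] {p : ℕ} (c c' : Fin p → K) (y : Fin p → K) (y₀ : K) :
    y₀ + ∑ k, (c k - c' k) * y k = (y₀ + ∑ k, c k * y k) - ∑ k, c' k * y k := by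
  have h : ∑ k, (c k - c' k) * y k = ∑ k, c k * y k - ∑ k, c' k * y k := by
    rw [← Finset.sum_sub_distrib]
    exact Finset.sum_congr rfl fun k _ => by ring
  rw [h]
  ring

private theorem T2_lin_single {K : Type u} [Field K] {p : ℕ} (i₀ : Fin p) (z : K) (y : Fin p → K) :
    ∑ k, (if k = i₀ then z else 0) * y k = z * y i₀ := by
  rw [Finset.sum_eq_single i₀]
  · rw [if_pos rfl]
  · intro k _ h
    rw [if_neg h, zero_mul]
  · intro h
    exact absurd (Finset.mem_univ _) h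

/-- ONE INFINITE PLACE.  UVB.T2 (file MP_17a322_ntU2/T2.lean, done by helper25) with the vector of the monomials replaced by ANY vector
`y ≠ 0` and an arbitrary constant term `y₀`: same proof, with `i₀` such that `v (y i₀) = M = ⨆ k, v (y k) > 0`,
`R = {a * s * e_(em i₀, k₀) : 0 ≤ a ≤ q}`; the constant term drops out of the differences. -/
theorem T2 {K : Type u} [Field K] [NumberField K] {p e : ℕ} (ω : Module.Basis (Fin e) ℤ (𝓞 K))
    (v : InfinitePlace K) {ι : Type} [Fintype ι] (em : Fin p → ι)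
    (hem : Function.Injective em) : ∃ C : ℝ, 0 ≤ C ∧ ∀ (y : Fin p → K) (y₀ : K), y ≠ 0 →
      ∀ (H : ℕ) (u : ℝ), 1 ≤ H → 0 ≤ u →
        (cnt H (fun a : ι × Fin e → ℤ => v (y₀ + ∑ k, ck ω a (em k) * y k) ≤
          Real.exp (-u) * H * ⨆ k, v (y k)) : ℝ) ≤
            C * (Real.exp (-u) + 1 / H) * (H : ℝ) ^ (Fintype.card ι * e) := by
  classical
  obtain ⟨k₀⟩ : Nonempty (Fin e) := ω.index_nonempty
  have hω : algebraMap (𝓞 K) K (ω k₀) ≠ 0 := by
    intro h
    exact ω.ne_zero k₀ ((FaithfulSMul.algebraMap_injective (𝓞 K) K) (by rw [h, map_zero]))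
  obtain ⟨κ, hκdef⟩ : ∃ κ, κ = v (algebraMap (𝓞 K) K (ω k₀)) := ⟨_, rfl⟩
  have hκ : 0 < κ := by
    rw [hκdef]
    exact v.pos_iff.2 hω
  refine ⟨4 ^ (Fintype.card ι * e) * (2 / κ + 1), by positivity, fun y y₀ hy H u hH hu => ?_⟩
  have hHr : (1 : ℝ) ≤ (H : ℝ) := by exact_mod_cast hH
  have hH0 : (0 : ℝ) < (H : ℝ) := by linarith
  obtain ⟨j₁, hj₁⟩ : ∃ j, y j ≠ 0 := by
    by_contra h
    push Not at h
    exact hy (funext h)
  have : Nonempty (Fin p) := ⟨j₁⟩
  obtain ⟨i₀, hi₀⟩ := exists_eq_ciSup_of_finite (f := fun i => v (y i))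
  obtain ⟨M, hMdef⟩ : ∃ M, M = ⨆ i, v (y i) := ⟨_, rfl⟩
  rw [← hMdef]
  have hi₀' : v (y i₀) = M := by rw [hMdef]; exact hi₀
  have hM : 0 < M := by
    have h1 : 0 < v (y j₁) := v.pos_iff.2 hj₁
    have h2 : v (y j₁) ≤ ⨆ i, v (y i) := le_ciSup (Set.finite_range fun i => v (y i)).bddAbove j₁
    rw [← hMdef] at h2
    linarith
  have hexp : 0 < Real.exp (-u) := Real.exp_pos _
  obtain ⟨ρ, hρdef⟩ : ∃ ρ, ρ = 2 * Real.exp (-u) * H / κ := ⟨_, rfl⟩
  have hρ : 0 ≤ ρ := by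
    rw [hρdef]
    positivity
  obtain ⟨s, hsdef⟩ : ∃ s, s = ⌊ρ⌋₊ + 1 := ⟨_, rfl⟩
  have hs1 : 1 ≤ s := by omega
  have hsρ : ρ < (s : ℝ) := by
    rw [hsdef]
    push_cast
    exact Nat.lt_floor_add_one ρ
  have hsρ' : (s : ℝ) ≤ ρ + 1 := by
    rw [hsdef]
    push_cast
    linarith [Nat.floor_le hρ]
  obtain ⟨q, hqdef⟩ : ∃ q, q = H / s := ⟨_, rfl⟩
  have hq1 : q * s ≤ H := by
    rw [hqdef]
    exact Nat.div_mul_le_self H s
  have hq2 : H < s * (q + 1) := by
    rw [hqdef]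
    exact Nat.lt_mul_div_succ H (by omega)
  let g : ℕ → (ι × Fin e → ℤ) := fun a => Pi.single (em i₀, k₀) ((a * s : ℕ) : ℤ)
  have hg : Function.Injective g := by
    intro a b hab
    have h1 := congrFun hab (em i₀, k₀)
    simp only [g, Pi.single_eq_same] at h1
    have h2 : a * s = b * s := by exact_mod_cast h1
    exact Nat.eq_of_mul_eq_mul_right (by omega) h2
  have hval : ∀ (w : ι × Fin e → ℤ) (a : ℕ), y₀ + ∑ k, ck ω (w - g a) (em k) * y k =
      (y₀ + ∑ k, ck ω w (em k) * y k) - ((a * s : ℕ) : K) * (algebraMap (𝓞 K) K (ω k₀) * y i₀) := by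
    intro w a
    have h1 : ∀ k, ck ω (w - g a) (em k) = ck ω w (em k) -
        (if k = i₀ then (((a * s : ℕ) : ℤ) : K) * algebraMap (𝓞 K) K (ω k₀) else 0) := by
      intro k
      rw [T2_co_sub, T2_ck_single]
      by_cases h : k = i₀
      · rw [if_pos h, if_pos (congrArg em h)]
      · rw [if_neg h, if_neg (fun h2 => h (hem h2))]
    rw [Finset.sum_congr rfl fun k _ => by rw [h1 k], T2_lin_sub, T2_lin_single, Int.cast_natCast, mul_assoc]
  have hT := T1 H (fun a : ι × Fin e → ℤ => v (y₀ + ∑ k, ck ω a (em k) * y k) ≤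
      Real.exp (-u) * H * M) ((Finset.range (q + 1)).image g) ?_ 1 ?_
  · rw [Finset.card_image_of_injective _ hg, Finset.card_range, one_mul, Fintype.card_prod,
      Fintype.card_fin] at hT
    obtain ⟨c, hc⟩ : ∃ c, c = cnt H (fun a : ι × Fin e → ℤ => v (y₀ + ∑ k, ck ω a (em k) * y k) ≤
      Real.exp (-u) * H * M) := ⟨_, rfl⟩
    rw [← hc] at hT ⊢
    have h1 : ((q : ℝ) + 1) * (c : ℝ) ≤ (3 * (H : ℝ) + 1) ^ (Fintype.card ι * e) := by
      exact_mod_cast hT
    have h2 : (3 * (H : ℝ) + 1) ^ (Fintype.card ι * e) ≤ (4 * (H : ℝ)) ^ (Fintype.card ι * e) :=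
      pow_le_pow_left₀ (by positivity) (by linarith) _
    have h3 : (H : ℝ) ≤ (s : ℝ) * ((q : ℝ) + 1) := by
      exact_mod_cast hq2.le
    have h4 : (H : ℝ) * (c : ℝ) ≤ (ρ + 1) * (4 * (H : ℝ)) ^ (Fintype.card ι * e) := by
      calc (H : ℝ) * (c : ℝ) ≤ ((s : ℝ) * ((q : ℝ) + 1)) * (c : ℝ) :=
            mul_le_mul_of_nonneg_right h3 (Nat.cast_nonneg _)
        _ = (s : ℝ) * (((q : ℝ) + 1) * (c : ℝ)) := by ring
        _ ≤ (s : ℝ) * (4 * (H : ℝ)) ^ (Fintype.card ι * e) :=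
            mul_le_mul_of_nonneg_left (h1.trans h2) (Nat.cast_nonneg _)
        _ ≤ (ρ + 1) * (4 * (H : ℝ)) ^ (Fintype.card ι * e) :=
            mul_le_mul_of_nonneg_right hsρ' (by positivity)
    have h5 : ρ + 1 ≤ (H : ℝ) * ((2 / κ + 1) * (Real.exp (-u) + 1 / H)) := by
      have e1 : (H : ℝ) * ((2 / κ + 1) * (Real.exp (-u) + 1 / H)) =
          ρ + 1 + 2 / κ + (H : ℝ) * Real.exp (-u) := by
        rw [hρdef]
        field_simp
        ring
      have e2 : 0 ≤ 2 / κ + (H : ℝ) * Real.exp (-u) := by positivity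
      linarith
    have h6 : (H : ℝ) * (c : ℝ) ≤ (H : ℝ) * (4 ^ (Fintype.card ι * e) * (2 / κ + 1) *
        (Real.exp (-u) + 1 / H) * (H : ℝ) ^ (Fintype.card ι * e)) := by
      calc (H : ℝ) * (c : ℝ) ≤ (ρ + 1) * (4 * (H : ℝ)) ^ (Fintype.card ι * e) := h4
        _ ≤ ((H : ℝ) * ((2 / κ + 1) * (Real.exp (-u) + 1 / H))) * (4 * (H : ℝ)) ^ (Fintype.card ι * e) :=
            mul_le_mul_of_nonneg_right h5 (by positivity)
        _ = (H : ℝ) * (4 ^ (Fintype.card ι * e) * (2 / κ + 1) *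
        (Real.exp (-u) + 1 / H) * (H : ℝ) ^ (Fintype.card ι * e)) := by
            rw [mul_pow]
            ring
    exact le_of_mul_le_mul_left h6 hH0
  · intro r hr i
    obtain ⟨a, ha, rfl⟩ := Finset.mem_image.1 hr
    have ha' : a ≤ q := by
      have := Finset.mem_range.1 ha
      omega
    simp only [g]
    by_cases h : i = (em i₀, k₀)
    · rw [h, Pi.single_eq_same]
      have h1 : a * s ≤ H := (Nat.mul_le_mul_right s ha').trans hq1
      exact ⟨by positivity, by exact_mod_cast h1⟩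
    · rw [Pi.single_eq_of_ne h]
      exact ⟨le_rfl, by positivity⟩
  · intro w
    have hsub : Subsingleton {r : ι × Fin e → ℤ // r ∈ (Finset.range (q + 1)).image g ∧
        v (y₀ + ∑ k, ck ω (w - r) (em k) * y k) ≤ Real.exp (-u) * H * M} := by
      refine ⟨?_⟩
      rintro ⟨r, hr, hr1⟩ ⟨r', hr', hr1'⟩
      obtain ⟨a, -, rfl⟩ := Finset.mem_image.1 hr
      obtain ⟨b, -, rfl⟩ := Finset.mem_image.1 hr'
      rw [hval, ← v.norm_embedding_eq, map_sub, map_mul, map_natCast] at hr1 hr1'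
      obtain ⟨z, hz⟩ : ∃ z, z = v.embedding (algebraMap (𝓞 K) K (ω k₀) * y i₀) := ⟨_, rfl⟩
      obtain ⟨F, hF⟩ : ∃ F, F = v.embedding (y₀ + ∑ k, ck ω w (em k) * y k) := ⟨_, rfl⟩
      rw [← hz, ← hF] at hr1 hr1'
      have hzn : ‖z‖ = κ * M := by
        rw [hz, v.norm_embedding_eq, map_mul, hi₀', ← hκdef]
      have h1 : ‖((((a : ℤ) - (b : ℤ)) * (s : ℤ) : ℤ) : ℂ) * z‖ ≤ 2 * (Real.exp (-u) * H * M) := by
        have e1 : ((((a : ℤ) - (b : ℤ)) * (s : ℤ) : ℤ) : ℂ) * z =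
            (F - ((b * s : ℕ) : ℂ) * z) - (F - ((a * s : ℕ) : ℂ) * z) := by
          push_cast
          ring
        rw [e1]
        refine (norm_sub_le _ _).trans ?_
        linarith
      rw [norm_mul, hzn, Complex.norm_intCast] at h1
      have h2 : |((((a : ℤ) - (b : ℤ)) * (s : ℤ) : ℤ) : ℝ)| ≤ ρ := by
        rw [hρdef, le_div_iff₀ hκ]
        refine le_of_mul_le_mul_right ?_ hM
        calc |((((a : ℤ) - (b : ℤ)) * (s : ℤ) : ℤ) : ℝ)| * κ * M =
            |((((a : ℤ) - (b : ℤ)) * (s : ℤ) : ℤ) : ℝ)| * (κ * M) := by ring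
          _ ≤ 2 * (Real.exp (-u) * H * M) := h1
          _ = 2 * Real.exp (-u) * H * M := by ring
      have h3 : |((a : ℤ) - (b : ℤ)) * (s : ℤ)| < (s : ℤ) := by
        have := h2.trans_lt hsρ
        exact_mod_cast this
      rw [abs_mul, abs_of_nonneg (by positivity : (0 : ℤ) ≤ (s : ℤ))] at h3
      have h4 : |(a : ℤ) - (b : ℤ)| < 1 := by
        by_contra h
        push Not at h
        have : (s : ℤ) ≤ |(a : ℤ) - (b : ℤ)| * (s : ℤ) := le_mul_of_one_le_left (by positivity) h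
        omega
      have h5 : (a : ℤ) - (b : ℤ) = 0 := Int.abs_lt_one_iff.1 h4
      have h6 : a = b := by omega
      exact Subtype.ext (by simp only [h6])
    exact Finite.card_le_one_iff_subsingleton.2 hsub

/-- The value is zero for a small proportion.  PROOF as UVB.T2z: T2 for an infinite place and `u = log H`. -/
theorem T2z {K : Type u} [Field K] [NumberField K] {p e : ℕ} (ω : Module.Basis (Fin e) ℤ (𝓞 K))
    {ι : Type} [Fintype ι] (em : Fin p → ι)
    (hem : Function.Injective em) : ∃ C : ℝ, 0 ≤ C ∧ ∀ (y : Fin p → K) (y₀ : K), y ≠ 0 →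
      ∀ H : ℕ, 1 ≤ H →
        (cnt H (fun a : ι × Fin e → ℤ => y₀ + ∑ k, ck ω a (em k) * y k = 0) : ℝ) ≤
            C * (1 / H) * (H : ℝ) ^ (Fintype.card ι * e) := by
  obtain ⟨v⟩ : Nonempty (InfinitePlace K) := inferInstance
  obtain ⟨C, hC, h⟩ := T2 ω v em hem
  refine ⟨2 * C, by positivity, fun y y₀ hy H hH => ?_⟩
  have hHr : (1 : ℝ) ≤ (H : ℝ) := by exact_mod_cast hH
  have h1 := h y y₀ hy H (Real.log H) hH (Real.log_nonneg hHr)
  have h2 : cnt H (fun a : ι × Fin e → ℤ => y₀ + ∑ k, ck ω a (em k) * y k = 0) ≤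
      cnt H (fun a : ι × Fin e → ℤ => v (y₀ + ∑ k, ck ω a (em k) * y k) ≤
          Real.exp (-Real.log H) * H * ⨆ k, v (y k)) := by
    refine cnt_mono H fun a ha => ?_
    rw [ha, map_zero]
    have h3 : 0 ≤ ⨆ k, v (y k) := Real.iSup_nonneg fun i => apply_nonneg v _
    positivity
  have h3 : Real.exp (-Real.log H) = 1 / H := by
    rw [Real.exp_neg, Real.exp_log (by linarith), one_div]
  rw [h3] at h1
  have h4 : (cnt H (fun a : ι × Fin e → ℤ => y₀ + ∑ k, ck ω a (em k) * y k = 0) : ℝ) ≤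
      (cnt H (fun a : ι × Fin e → ℤ => v (y₀ + ∑ k, ck ω a (em k) * y k) ≤
          1 / (H : ℝ) * H * ⨆ k, v (y k)) : ℝ) := by
    rw [← h3]
    exact_mod_cast h2
  refine h4.trans (h1.trans (le_of_eq ?_))
  ring

end UVC
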