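import Pool.Agent.Lib.MP_17a322_ntU3.B5
import Pool.Agent.Lib.MP_17a322_ntU3.T2
import Pool.Agent.Lib.MP_17a322_ntU2.P2

/-!
uv2 general form, leaf B6: all exceptional translates.
-/

universe u

namespace UVC

open NumberField Height UVB
open Pool.Agent.Lib.MP_17a322_nt.VA

private theorem B6_log (κ : ℕ) (C₁ : ℝ) : ∃ B : ℝ, 0 ≤ B ∧ ∀ H : ℕ, 1 ≤ H →
    (1 + |C₁| * (1 + Real.log H)) ^ κ ≤ B * (H : ℝ) ^ (1 / 2 : ℝ) := by
  obtain ⟨δ, hδe⟩ : ∃ δ : ℝ, δ = 1 / (2 * ((κ : ℝ) + 1)) := ⟨_, rfl⟩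
  have hδ : 0 < δ := by
    rw [hδe]
    positivity
  refine ⟨((1 + |C₁|) * (1 + 1 / δ)) ^ κ, by positivity, ?_⟩
  intro H hH
  have hH1 : (1 : ℝ) ≤ H := by exact_mod_cast hH
  have hH0 : (0 : ℝ) < H := by linarith
  have h1 : Real.log H ≤ (H : ℝ) ^ δ / δ := Real.log_le_rpow_div (by linarith) hδ
  have h2 : 1 ≤ (H : ℝ) ^ δ := Real.one_le_rpow hH1 hδ.le
  have h0 : 0 ≤ Real.log H := Real.log_nonneg hH1
  have hC : 0 ≤ |C₁| := abs_nonneg _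
  have h3 : 1 + Real.log H ≤ (1 + 1 / δ) * (H : ℝ) ^ δ := by
    have h4 : (1 + 1 / δ) * (H : ℝ) ^ δ = (H : ℝ) ^ δ + (H : ℝ) ^ δ / δ := by ring
    rw [h4]
    linarith
  have h5 : 1 + |C₁| * (1 + Real.log H) ≤ (1 + |C₁|) * (1 + 1 / δ) * (H : ℝ) ^ δ := by
    have h6 : 1 + |C₁| * (1 + Real.log H) ≤ (1 + |C₁|) * (1 + Real.log H) := by nlinarith
    have h7 : (1 + |C₁|) * (1 + Real.log H) ≤ (1 + |C₁|) * ((1 + 1 / δ) * (H : ℝ) ^ δ) :=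
      mul_le_mul_of_nonneg_left h3 (by linarith)
    calc 1 + |C₁| * (1 + Real.log H) ≤ (1 + |C₁|) * ((1 + 1 / δ) * (H : ℝ) ^ δ) := h6.trans h7
      _ = (1 + |C₁|) * (1 + 1 / δ) * (H : ℝ) ^ δ := by ring
  have h8 : ((H : ℝ) ^ δ) ^ κ ≤ (H : ℝ) ^ (1 / 2 : ℝ) := by
    rw [← Real.rpow_natCast ((H : ℝ) ^ δ) κ, ← Real.rpow_mul hH0.le]
    refine Real.rpow_le_rpow_of_exponent_le hH1 ?_
    rw [hδe, div_mul_eq_mul_div, one_mul, div_le_div_iff₀ (by positivity) (by norm_num)]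
    linarith
  calc (1 + |C₁| * (1 + Real.log H)) ^ κ ≤ ((1 + |C₁|) * (1 + 1 / δ) * (H : ℝ) ^ δ) ^ κ :=
        pow_le_pow_left₀ (by positivity) h5 κ
    _ = ((1 + |C₁|) * (1 + 1 / δ)) ^ κ * ((H : ℝ) ^ δ) ^ κ := mul_pow _ _ _
    _ ≤ ((1 + |C₁|) * (1 + 1 / δ)) ^ κ * (H : ℝ) ^ (1 / 2 : ℝ) :=
        mul_le_mul_of_nonneg_left h8 (by positivity)

/-- ALL EXCEPTIONAL TRANSLATES.  UVB.B6 (file MP_17a322_ntU2/B6.lean, done by helper67) for a family without base points: same proof; the event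
`Φ.f c (A.x w) = 0` has proportion at most `C / H` by T2z with `y k = ev (Φ.E' k) (A.x w)` (not the zero vector by `Φ.Bpf A`), `em = inr`. -/
theorem B6 {K : Type u} [Field K] [NumberField K] {N r d D e : ℕ} (A : AV K N)
    (hA : (⊤ : AddSubgroup (A.Pts K)).FG) (hr : 2 ≤ r) (Φ : Fam K N r d D) (hb : Φ.Bpf A)
    (ω : Module.Basis (Fin e) ℤ (𝓞 K)) {k : ℕ}
    (B : Fin k → AV K N) (hB : ∀ i, IsSubAV (B i) A) (hdim : ∀ i, ∃ n, 0 < n ∧ (B i).dimIs n)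
    (C₁ : ℝ) : ∃ C : ℝ, 0 ≤ C ∧ ∀ H : ℕ, 1 ≤ H →
      (cnt H (fun a : Φ.Ix × Fin e → ℤ => ∃ (i : Fin k) (w : A.Pts K),
        logHeight (A.x w) ≤ C₁ * (1 + Real.log H) ∧
          (Φ.f (ck ω a) (A.x w) = 0 ∨ Φ.BadW (hB i) w (ck ω a))) : ℝ) ≤
        C * (H : ℝ) ^ (-(1 / 2 : ℝ)) * (H : ℝ) ^ (Fintype.card Φ.Ix * e) := by
  classical
  obtain ⟨C', κ, hC', hP2⟩ := P2 A hA
  obtain ⟨C2, hC2, hT2⟩ := T2z (p := Φ.q) ω (ι := Φ.Ix) Sum.inr Sum.inr_injective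
  have hB5 : ∀ i, ∃ C : ℝ, 0 ≤ C ∧ ∀ (w : A.Pts K) (H : ℕ), 1 ≤ H →
      (cnt H (fun a : Φ.Ix × Fin e → ℤ => Φ.BadW (hB i) w (ck ω a)) : ℝ) ≤
        C * (1 / H) * (H : ℝ) ^ (Fintype.card Φ.Ix * e) := by
    intro i
    obtain ⟨n, hn, hd⟩ := hdim i
    exact B5 (hB i) hn hd hr Φ hb ω
  choose C5 hC5 hB5' using hB5
  obtain ⟨B₀, hB₀, hlog⟩ := B6_log κ C₁
  have hS5 : 0 ≤ ∑ i, C5 i := Finset.sum_nonneg fun i _ => hC5 i
  refine ⟨C' * B₀ * (C2 + ∑ i, C5 i), by positivity, ?_⟩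
  intro H hH
  have hH1 : (1 : ℝ) ≤ H := by exact_mod_cast hH
  have hH0 : (0 : ℝ) < H := by linarith
  have hl0 : 0 ≤ Real.log H := Real.log_nonneg hH1
  obtain ⟨T, hT⟩ : ∃ T : ℝ, T = |C₁| * (1 + Real.log H) := ⟨_, rfl⟩
  have hT0 : 0 ≤ T := by
    rw [hT]
    positivity
  have hTle : C₁ * (1 + Real.log H) ≤ T := by
    rw [hT]
    exact mul_le_mul_of_nonneg_right (le_abs_self _) (by linarith)
  obtain ⟨s, hs⟩ : ∃ s : Finset (A.Pts K), s = (P2a A T).toFinset := ⟨_, rfl⟩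
  have hscard : (s.card : ℝ) ≤ C' * B₀ * (H : ℝ) ^ (1 / 2 : ℝ) := by
    have h1 : (Nat.card {P : A.Pts K // logHeight (A.x P) ≤ T} : ℝ) = s.card := by
      rw [hs]
      exact congrArg (fun t : ℕ => (t : ℝ)) (Nat.card_eq_card_finite_toFinset (P2a A T))
    rw [← h1]
    refine (hP2 T hT0).trans ?_
    rw [mul_assoc]
    refine mul_le_mul_of_nonneg_left ?_ hC'
    rw [hT]
    exact hlog H hH
  obtain ⟨M, hM⟩ : ∃ M : ℝ, M = (H : ℝ) ^ (Fintype.card Φ.Ix * e) := ⟨_, rfl⟩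
  have hM0 : 0 ≤ M := by
    rw [hM]
    positivity
  have hone : ∀ w : A.Pts K, (cnt H (fun a : Φ.Ix × Fin e → ℤ =>
      Φ.f (ck ω a) (A.x w) = 0 ∨
        ∃ i ∈ (Finset.univ : Finset (Fin k)), Φ.BadW (hB i) w (ck ω a)) : ℝ) ≤
      (C2 + ∑ i, C5 i) * (1 / H) * M := by
    intro w
    have h1 := cnt_or H (fun a : Φ.Ix × Fin e → ℤ =>
      Φ.f (ck ω a) (A.x w) = 0) (fun a : Φ.Ix × Fin e → ℤ =>
        ∃ i ∈ (Finset.univ : Finset (Fin k)), Φ.BadW (hB i) w (ck ω a))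
    have h2 := cnt_exists H (Finset.univ : Finset (Fin k)) (fun i =>
      (fun a : Φ.Ix × Fin e → ℤ => Φ.BadW (hB i) w (ck ω a)))
    have h3 : (cnt H (fun a : Φ.Ix × Fin e → ℤ =>
        Φ.f (ck ω a) (A.x w) = 0) : ℝ) ≤ C2 * (1 / H) * M := by
      rw [hM]
      obtain ⟨k₀, hk₀⟩ := (hb K w).2
      exact hT2 (fun k => ev (Φ.E' k) (A.x w)) (ev Φ.F (A.x w)) (fun h0 => hk₀ (congrFun h0 k₀)) H hH
    have h4 : ((∑ i ∈ (Finset.univ : Finset (Fin k)), cnt H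
        (fun a : Φ.Ix × Fin e → ℤ => Φ.BadW (hB i) w (ck ω a)) : ℕ) : ℝ) ≤
        (∑ i, C5 i) * (1 / H) * M := by
      rw [Nat.cast_sum, Finset.sum_mul, Finset.sum_mul]
      refine Finset.sum_le_sum fun i _ => ?_
      rw [hM]
      exact hB5' i w H hH
    have h5 := (Nat.cast_le (α := ℝ)).2 h1
    have h6 := (Nat.cast_le (α := ℝ)).2 h2
    rw [Nat.cast_add] at h5
    calc _ ≤ _ := h5
      _ ≤ C2 * (1 / H) * M + (∑ i, C5 i) * (1 / H) * M := add_le_add h3 (h6.trans h4)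
      _ = (C2 + ∑ i, C5 i) * (1 / H) * M := by ring
  have hmono := cnt_mono H (p := fun a : Φ.Ix × Fin e → ℤ => ∃ (i : Fin k) (w : A.Pts K),
        logHeight (A.x w) ≤ C₁ * (1 + Real.log H) ∧
          (Φ.f (ck ω a) (A.x w) = 0 ∨
            Φ.BadW (hB i) w (ck ω a)))
    (q := fun a : Φ.Ix × Fin e → ℤ => ∃ w ∈ s,
      (fun w : A.Pts K => fun a : Φ.Ix × Fin e → ℤ =>
        Φ.f (ck ω a) (A.x w) = 0 ∨
        ∃ i ∈ (Finset.univ : Finset (Fin k)), Φ.BadW (hB i) w (ck ω a)) w a) (by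
    rintro a ⟨i, w, hw, h⟩
    refine ⟨w, ?_, ?_⟩
    · rw [hs, Set.Finite.mem_toFinset]
      exact hw.trans hTle
    · rcases h with h | h
      · exact Or.inl h
      · exact Or.inr ⟨i, Finset.mem_univ _, h⟩)
  have hex := cnt_exists H s (fun w : A.Pts K => fun a : Φ.Ix × Fin e → ℤ =>
        Φ.f (ck ω a) (A.x w) = 0 ∨
        ∃ i ∈ (Finset.univ : Finset (Fin k)), Φ.BadW (hB i) w (ck ω a))
  have h7 := (Nat.cast_le (α := ℝ)).2 (hmono.trans hex)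
  refine h7.trans ?_
  rw [Nat.cast_sum]
  refine (Finset.sum_le_sum fun w _ => hone w).trans ?_
  rw [Finset.sum_const, nsmul_eq_mul, ← hM]
  have h8 : (H : ℝ) ^ (1 / 2 : ℝ) * (1 / H) = (H : ℝ) ^ (-(1 / 2 : ℝ)) := by
    have h9 : (1 / (H : ℝ)) = (H : ℝ) ^ (-1 : ℝ) := by
      rw [Real.rpow_neg_one, one_div]
    rw [h9, ← Real.rpow_add hH0]
    congr 1
    norm_num
  calc (s.card : ℝ) * ((C2 + ∑ i, C5 i) * (1 / H) * M)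
      ≤ C' * B₀ * (H : ℝ) ^ (1 / 2 : ℝ) * ((C2 + ∑ i, C5 i) * (1 / H) * M) :=
        mul_le_mul_of_nonneg_right hscard (by positivity)
    _ = C' * B₀ * (C2 + ∑ i, C5 i) * ((H : ℝ) ^ (1 / 2 : ℝ) * (1 / H)) * M := by ring
    _ = C' * B₀ * (C2 + ∑ i, C5 i) * (H : ℝ) ^ (-(1 / 2 : ℝ)) * M := by rw [h8]

end UVC
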