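import Pool.Agent.Lib.MP_17a322_ntU2.DefsB

/-!
Almost all members of base point free families.
-/

universe u

namespace UVC

open NumberField UVB
open Pool.Agent.Lib.MP_17a322_nt.VA

/-- The value at `x` of a polynomial with coefficients in the ring of integers. -/
noncomputable def ev {K : Type u} [Field K] [NumberField K] {N : ℕ}
    (f : MvPolynomial (Fin (N + 1)) (𝓞 K)) {L : Type*} [CommRing L] [Algebra K L]
    (x : Fin (N + 1) → L) : L :=
  MvPolynomial.aeval x (MvPolynomial.map (algebraMap (𝓞 K) K) f)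

/-- Fixed forms `G j` and `E j k`, `j = 1, .., r`, `k = 1, .., p`, of degree `d` and fixed forms `F` and `E' k`,
`k = 1, .., q`, of degree `D` with coefficients in the ring of integers. -/
structure Fam (K : Type u) [Field K] [NumberField K] (N r d D : ℕ) where
  /-- The number of the forms `E j k` for each `j`. -/
  p : ℕ
  /-- The number of the forms `E' k`. -/
  q : ℕ
  G : Fin r → MvPolynomial (Fin (N + 1)) (𝓞 K)
  E : Fin r → Fin p → MvPolynomial (Fin (N + 1)) (𝓞 K)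
  F : MvPolynomial (Fin (N + 1)) (𝓞 K)
  E' : Fin q → MvPolynomial (Fin (N + 1)) (𝓞 K)
  hG : ∀ j, (G j).IsHomogeneous d
  hE : ∀ j k, (E j k).IsHomogeneous d
  hF : F.IsHomogeneous D
  hE' : ∀ k, (E' k).IsHomogeneous D

section

variable {K : Type u} [Field K] [NumberField K] {N r d D : ℕ}

/-- The indices of the random coefficients. -/
abbrev Fam.Ix (Φ : Fam K N r d D) : Type := Fin r × Fin Φ.p ⊕ Fin Φ.q

/-- For every `j` the forms `E j k` have no common zero on `A`, and the forms `E' k` neither. -/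
def Fam.Bpf (Φ : Fam K N r d D) (A : AV K N) : Prop :=
  ∀ (L : Type u) [Field L] [Algebra K L] (P : A.Pts L),
    (∀ j, ∃ k, ev (Φ.E j k) (A.x P) ≠ 0) ∧ ∃ k, ev (Φ.E' k) (A.x P) ≠ 0

/-- The value at `x` of `g_j = G_j + ∑ k, c_jk E_jk`. -/
noncomputable def Fam.g (Φ : Fam K N r d D) {L : Type*} [CommRing L] [Algebra K L] (c : Φ.Ix → L)
    (x : Fin (N + 1) → L) (j : Fin r) : L :=
  ev (Φ.G j) x + ∑ k, c (Sum.inl (j, k)) * ev (Φ.E j k) x

/-- The value at `x` of `f = F + ∑ k, c_k E'_k`. -/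
noncomputable def Fam.f (Φ : Fam K N r d D) {L : Type*} [CommRing L] [Algebra K L] (c : Φ.Ix → L)
    (x : Fin (N + 1) → L) : L :=
  ev Φ.F x + ∑ k, c (Sum.inr k) * ev (Φ.E' k) x

/-- The vector `(1, c)`. -/
def one {R : Type*} [One R] {ι : Type} (c : ι → R) : Unit ⊕ ι → R := Sum.elim (fun _ => 1) c

/-- The local height of the point `x` with respect to the hypersurface `f = 0`. -/
noncomputable def Fam.lam (Φ : Fam K N r d D) (c : Φ.Ix → K) (x : Fin (N + 1) → K)
    (v : AbsoluteValue K ℝ) : ℝ :=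
  D * Real.log (⨆ i, v (x i)) + Real.log (⨆ i, v (one c i)) - Real.log (v (Φ.f c x))

/-- The point `x` satisfies Vojta's inequality, with the error term `W`, for the forms with the
coefficients `c`. -/
def Fam.Ok (Φ : Fam K N r d D) (S : Finset (FinitePlace K)) (W : ℝ) (c : Φ.Ix → K)
    (x : Fin (N + 1) → K) : Prop :=
  Φ.f c x ≠ 0 ∧ (∃ j, Φ.g c x j ≠ 0) ∧
    (d * Height.logHeight x + Height.logHeight (one c) - Height.logHeight (Φ.g c x)) +
      ((∑ v : InfinitePlace K, (v.mult : ℝ) * Φ.lam c x v.val) + ∑ v ∈ S, Φ.lam c x v.val) ≤ W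

/-- The values of the forms `E k` at `x` are not all small. -/
def Nz {p : ℕ} (E : Fin p → MvPolynomial (Fin (N + 1)) (𝓞 K)) (n : ℕ) (μ : 𝓞 K) (C : ℝ)
    (x : Fin (N + 1) → K) : Prop :=
  (∀ v : InfinitePlace K, (⨆ i, v (x i)) ^ n ≤ C * ⨆ k, v (ev (E k) x)) ∧
  (∀ v : FinitePlace K, v (algebraMap (𝓞 K) K μ) * (⨆ i, v (x i)) ^ n ≤ ⨆ k, v (ev (E k) x)) ∧
  ∀ (s : K) (x' : Fin (N + 1) → 𝓞 K), s ≠ 0 → (∀ i, algebraMap (𝓞 K) K (x' i) = s * x i) →
    ∀ z ∈ Ideal.span (Set.range x') ^ n,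
      μ * z ∈ Ideal.span (Set.range fun k => MvPolynomial.aeval x' (E k))

variable {A B : AV K N}

/-- The forms `g_j` vanish at a point of `w + B` over an extension field whose transcendence degree is at
least the dimension of `B` minus one. -/
def Fam.BadW (Φ : Fam K N r d D) (hB : IsSubAV B A) (w : A.Pts K) (c : Φ.Ix → K) : Prop :=
  ∃ (L : Type u) (_ : Field L) (_ : Algebra K L) (b : B.Pts L),
    (∀ j, Φ.g (fun i => algebraMap K L (c i)) (yw hB w b) j = 0) ∧
    ∀ (L' : Type u) [Field L'] [Algebra K L'] (q : B.Pts L'),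
      tdeg K (B.x q) ≤ tdeg K (B.x b) + 1

/-- There is a point `b` of `B` over an extension field with `h₁ (w + b) ≠ 0`, `h₂ (w + b) ≠ 0`, `b_{j₀} ≠ 0`,
algebraically independent quotients `b_{I k} / b_{j₀}`, and `(g₁ + a₁ h₁) (w + b) = (g₂ + a₂ h₂) (w + b) = 0`. -/
def BadAt (hB : IsSubAV B A) (w : A.Pts K) {m : ℕ} (h₁ h₂ : MvPolynomial (Fin (N + 1)) K)
    (j₀ : Fin (N + 1)) (I : Fin m → Fin (N + 1)) (g₁ g₂ : MvPolynomial (Fin (N + 1)) K)
    (a₁ a₂ : K) : Prop :=
  ∃ (L : Type u) (_ : Field L) (_ : Algebra K L) (b : B.Pts L),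
    MvPolynomial.aeval (yw hB w b) h₁ ≠ 0 ∧ MvPolynomial.aeval (yw hB w b) h₂ ≠ 0 ∧
      B.x b j₀ ≠ 0 ∧ AlgebraicIndependent K (fun k => B.x b (I k) / B.x b j₀) ∧
        MvPolynomial.aeval (yw hB w b) g₁ + algebraMap K L a₁ *
          MvPolynomial.aeval (yw hB w b) h₁ = 0 ∧
        MvPolynomial.aeval (yw hB w b) g₂ + algebraMap K L a₂ *
          MvPolynomial.aeval (yw hB w b) h₂ = 0

end

end UVC
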