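import Pool.Agent.Lib.MP_17a322_ntU3.Defs
import Pool.Agent.Lib.MP_17a322_ntU2.Q1a
import Pool.Agent.Lib.MP_17a322_nt.FU.Z1

/-!
uv2 general form, leaf E: the points of large height.
-/

universe u

namespace UVC

open NumberField Height UVB
open Pool.Agent.Lib.MP_17a322_nt.VA

open MvPolynomial in
/-- The sum of the polynomials with parameters in front. -/
private noncomputable def E_fp {K : Type u} [Field K] {N M : ℕ} {κ : Type} [Fintype κ]
    (P : κ → MvPolynomial (Fin (N + 1)) K) (e : κ → Fin (M + 1)) :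
    MvPolynomial (Fin (N + 1) ⊕ Fin (M + 1)) K :=
  ∑ k, X (Sum.inr (e k)) * rename Sum.inl (P k)

open MvPolynomial in
private theorem E_fp_support {K : Type u} [Field K] {N M n : ℕ} {κ : Type} [Fintype κ]
    (P : κ → MvPolynomial (Fin (N + 1)) K) (hP : ∀ k, (P k).IsHomogeneous n) (e : κ → Fin (M + 1))
    (ν : Fin (N + 1) ⊕ Fin (M + 1) →₀ ℕ) (hν : ν ∈ (E_fp P e).support) :
    ∑ i, ν (Sum.inl i) = n ∧ ∑ l, ν (Sum.inr l) = 1 := by
  classical
  obtain ⟨k, -, hk⟩ := Finset.mem_biUnion.1 (support_sum hν)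
  rw [support_X_mul, Finset.mem_map] at hk
  obtain ⟨ν', hν', rfl⟩ := hk
  rw [support_rename_of_injective Sum.inl_injective, Finset.mem_image] at hν'
  obtain ⟨μ, hμ, rfl⟩ := hν'
  have hμn : ∑ i, μ i = n := by
    have h1 := hP k (mem_support_iff.1 hμ)
    rw [← h1, Finsupp.weight_apply, Finsupp.sum_fintype _ _ fun _ => by simp]
    simp
  constructor
  · rw [← hμn]
    refine Finset.sum_congr rfl fun i _ => ?_
    show (Finsupp.single (Sum.inr (e k)) 1 + Finsupp.mapDomain Sum.inl μ :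
      Fin (N + 1) ⊕ Fin (M + 1) →₀ ℕ) (Sum.inl i) = μ i
    rw [Finsupp.add_apply, Finsupp.mapDomain_apply Sum.inl_injective,
      Finsupp.single_eq_of_ne (by simp), zero_add]
  · have h2 : ∀ l : Fin (M + 1), (Finsupp.single (Sum.inr (e k)) 1 +
        Finsupp.mapDomain Sum.inl μ : Fin (N + 1) ⊕ Fin (M + 1) →₀ ℕ) (Sum.inr l) = if l = e k then 1 else 0 := by
      intro l
      rw [Finsupp.add_apply, Finsupp.mapDomain_of_notMem_range _ _ (by simp), add_zero,
        Finsupp.single_apply]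
      by_cases h : l = e k
      · rw [if_pos h, if_pos (by rw [h])]
      · rw [if_neg h, if_neg fun h' => h (Sum.inr.inj h').symm]
    show ∑ l, (Finsupp.single (Sum.inr (e k)) 1 + Finsupp.mapDomain Sum.inl μ :
      Fin (N + 1) ⊕ Fin (M + 1) →₀ ℕ) (Sum.inr l) = 1
    rw [Finset.sum_congr rfl fun l _ => h2 l, Finset.sum_ite_eq' Finset.univ (e k) fun _ => 1,
      if_pos (Finset.mem_univ _)]

open MvPolynomial in
private theorem E_fp_aeval {K : Type u} [Field K] {L : Type u} [Field L] [Algebra K L] {N M : ℕ}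
    {κ : Type} [Fintype κ] (P : κ → MvPolynomial (Fin (N + 1)) K) (e : κ → Fin (M + 1))
    (x : Fin (N + 1) → L) (t : Fin (M + 1) → L) :
    aeval (Sum.elim x t) (E_fp P e) = ∑ k, t (e k) * aeval x (P k) := by
  rw [E_fp, map_sum]
  refine Finset.sum_congr rfl fun k _ => ?_
  rw [map_mul, aeval_X, aeval_rename]
  rfl

/-- The height of the vector of the coefficients. -/
private theorem E_ht {K : Type u} [Field K] [NumberField K] {e : ℕ} (ω : Module.Basis (Fin e) ℤ (𝓞 K)) :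
    ∃ C : ℝ, 0 ≤ C ∧ ∀ (ι : Type) [Fintype ι] (H : ℕ), 1 ≤ H → ∀ a : ι × Fin e → ℤ,
      (∀ i, |a i| ≤ (H : ℤ)) → logHeight (one (ck ω a : ι → K)) ≤ C * (1 + Real.log H) := by
  obtain ⟨C, hC, hq⟩ := Q1a (K := K) ω
  obtain ⟨n, hn⟩ : ∃ n : ℕ, n = ∑ v : InfinitePlace K, v.mult := ⟨_, rfl⟩
  refine ⟨n * (1 + Real.log C), by
    have := Real.log_nonneg hC
    positivity, fun ι _ H hH a ha => ?_⟩
  have hH1 : (1 : ℝ) ≤ H := by exact_mod_cast hH
  have hlC := Real.log_nonneg hC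
  have hlH := Real.log_nonneg hH1
  have hx : one (ck ω a : ι → K) ≠ 0 := by
    intro h
    exact one_ne_zero (congrFun h (Sum.inl ()))
  obtain ⟨h1, h2⟩ := hq ι H a ha
  have hCH : 1 ≤ C * H := one_le_mul_of_one_le_of_one_le hC hH1
  have hi : ∀ v : InfinitePlace K, (⨆ i, v (one (ck ω a : ι → K) i)) ≤ C * H := by
    intro v
    refine ciSup_le fun i => ?_
    rcases i with i | i
    · show v 1 ≤ C * H
      rw [map_one]
      exact hCH
    · exact (le_ciSup (f := fun i => v (ck ω a i)) (Set.finite_range _).bddAbove i).trans (h1 v)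
  have hf : ∀ v : FinitePlace K, (⨆ i, v (one (ck ω a : ι → K) i)) ≤ 1 := by
    intro v
    refine ciSup_le fun i => ?_
    rcases i with i | i
    · show v 1 ≤ 1
      rw [map_one]
    · exact (le_ciSup (f := fun i => v (ck ω a i)) (Set.finite_range _).bddAbove i).trans (h2 v)
  have hfin : ∏ᶠ v : FinitePlace K, ⨆ i, v (one (ck ω a : ι → K) i) ≤ 1 := by
    refine finprod_induction (p := fun y : ℝ => 0 ≤ y ∧ y ≤ 1) ?_ ?_ ?_ |>.2
    · exact ⟨zero_le_one, le_rfl⟩
    · intro x y hx hy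
      exact ⟨mul_nonneg hx.1 hy.1, mul_le_one₀ hx.2 hy.1 hy.2⟩
    · intro v
      exact ⟨Real.iSup_nonneg fun i => apply_nonneg v _, hf v⟩
  have hfin0 : 0 ≤ ∏ᶠ v : FinitePlace K, ⨆ i, v (one (ck ω a : ι → K) i) :=
    finprod_nonneg fun v => Real.iSup_nonneg fun i => apply_nonneg v _
  have harch : ∏ v : InfinitePlace K, (⨆ i, v (one (ck ω a : ι → K) i)) ^ v.mult ≤ (C * H) ^ n := by
    rw [hn, ← Finset.prod_pow_eq_pow_sum]
    exact Finset.prod_le_prod
      (fun v _ => pow_nonneg (Real.iSup_nonneg fun i => apply_nonneg v _) _)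
      fun v _ => pow_le_pow_left₀ (Real.iSup_nonneg fun i => apply_nonneg v _) (hi v) _
  have hle : mulHeight (one (ck ω a : ι → K)) ≤ (C * H) ^ n := by
    rw [NumberField.mulHeight_eq hx]
    calc _ ≤ (C * H) ^ n * 1 := mul_le_mul harch hfin hfin0 (by positivity)
      _ = _ := mul_one _
  rw [logHeight_eq_log_mulHeight]
  refine (Real.log_le_log (mulHeight_pos _) hle).trans ?_
  rw [Real.log_pow, Real.log_mul (by positivity) (by positivity)]
  nlinarith [mul_nonneg hlC hlH, (Nat.cast_nonneg n : (0 : ℝ) ≤ n), mul_nonneg (Nat.cast_nonneg n : (0 : ℝ) ≤ n) (mul_nonneg hlC hlH)]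

/-- The image under the inclusion of the base field. -/
private theorem E_x_img {K : Type u} [Field K] {N : ℕ} (A : AV K N) (P : A.Pts K) :
    A.img (Algebra.ofId K K) P = P := by
  rw [show Algebra.ofId K K = AlgHom.id K K from Subsingleton.elim _ _]
  exact AV.img_id P

/-- The inclusion of a closed subgroup commutes with the extension of the base field. -/
private theorem E_img_inc {K : Type u} [Field K] {N : ℕ} {A B : AV K N} (hB : IsSubAV B A)
    {L : Type u} [Field L] [Algebra K L] (b : B.Pts K) :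
    A.img (Algebra.ofId K L) (hB.inc K b) = hB.inc L (B.img (Algebra.ofId K L) b) := by
  rw [AV.img_eq_iff]
  exact B.img_rep (Algebra.ofId K L) b

/-- The parameters. -/
private theorem E_equiv (ι : Type) [Fintype ι] : ∃ M : ℕ, Nonempty ((Unit ⊕ ι) ≃ Fin (M + 1)) := by
  have h1 : 0 < Fintype.card (Unit ⊕ ι) := Fintype.card_pos_iff.mpr ⟨Sum.inl ()⟩
  obtain ⟨M, hM⟩ := Nat.exists_eq_succ_of_ne_zero h1.ne'
  exact ⟨M, ⟨Fintype.equivFinOfCardEq hM⟩⟩

/-- THE LARGE POINTS.  UVB.E (files E0, E of MP_17a322_ntU2, done by helper84) for a family: `FU.final` for `Γ = ⊤`, `M + 1 = 1 + #Φ.Ix`, `t = one c`, `d' = D' = 1`, `m = 1`,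
`g_j (x, t) = t_0 G_j (x) + ∑ k, t_jk E_jk (x)`, `f (x, t) = t_0 F (x) + ∑ k, t_k E'_k (x)`; here `t ≠ 0` always. -/
theorem E {K : Type u} [Field K] [NumberField K] {N r d D e : ℕ} (A : AV K N)
    (hA : (⊤ : AddSubgroup (A.Pts K)).FG) (Φ : Fam K N r d D) (ω : Module.Basis (Fin e) ℤ (𝓞 K))
    (S : Finset (FinitePlace K)) (ε : ℝ) (hε : 0 < ε) :
    ∃ (C₁ : ℝ) (k : ℕ) (B : Fin k → AV K N) (hB : ∀ i, IsSubAV (B i) A),
      (∀ i, ∃ n, 0 < n ∧ (B i).dimIs n) ∧
      ∀ H : ℕ, 1 ≤ H → ∀ a : Φ.Ix × Fin e → ℤ, (∀ i, |a i| ≤ (H : ℤ)) → ∀ P : A.Pts K,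
          C₁ * (1 + Real.log H) < logHeight (A.x P) →
            Φ.Ok S (ε * logHeight (A.x P)) (ck ω a) (A.x P) ∨
            ∃ (i : Fin k) (w : A.Pts K), logHeight (A.x w) ≤ C₁ * (1 + Real.log H) ∧
              (Φ.f (ck ω a) (A.x w) = 0 ∨ Φ.BadW (hB i) w (ck ω a)) := by
  obtain ⟨M, ⟨em⟩⟩ := E_equiv Φ.Ix
  obtain ⟨gp, hgp⟩ : ∃ gp : Fin r → MvPolynomial (Fin (N + 1) ⊕ Fin (M + 1)) K,
      gp = fun j : Fin r => E_fp (κ := Unit ⊕ Fin Φ.p)
      (Sum.elim (fun _ => MvPolynomial.map (algebraMap (𝓞 K) K) (Φ.G j))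
        fun k => MvPolynomial.map (algebraMap (𝓞 K) K) (Φ.E j k))
      (Sum.elim (fun _ => em (Sum.inl ())) fun k => em (Sum.inr (Sum.inl (j, k)))) := ⟨_, rfl⟩
  obtain ⟨fp, hfp⟩ : ∃ fp : MvPolynomial (Fin (N + 1) ⊕ Fin (M + 1)) K,
      fp = E_fp (κ := Unit ⊕ Fin Φ.q)
      (Sum.elim (fun _ => MvPolynomial.map (algebraMap (𝓞 K) K) Φ.F)
        fun k => MvPolynomial.map (algebraMap (𝓞 K) K) (Φ.E' k))
      (Sum.elim (fun _ => em (Sum.inl ())) fun k => em (Sum.inr (Sum.inr k))) := ⟨_, rfl⟩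
  obtain ⟨C, k, B, hB, hdim, hfin⟩ := Pool.Agent.Lib.MP_17a322_nt.FU.final A ⊤ hA (d := d) (d' := 1)
    gp (fun j μ hμ => by
      rw [hgp] at hμ
      refine E_fp_support _ (fun k => ?_) _ μ hμ
      rcases k with k | k
      · exact (Φ.hG j).map _
      · exact (Φ.hE j k).map _) (D := D) (D' := 1) (m := 1)
    (fun _ => fp)
    (fun j μ hμ => by
      rw [hfp] at hμ
      refine E_fp_support _ (fun k => ?_) _ μ hμ
      rcases k with k | k
      · exact Φ.hF.map _
      · exact (Φ.hE' k).map _) S ε 1 hε one_pos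
  obtain ⟨C', hC', hck⟩ := E_ht (K := K) ω
  refine ⟨max C 0 * (1 + C'), k, B, hB, hdim, fun H hH a ha P hP => ?_⟩
  obtain ⟨c, hc⟩ : ∃ c : Φ.Ix → K, c = ck ω a := ⟨_, rfl⟩
  obtain ⟨t, ht⟩ : ∃ t : Fin (M + 1) → K, t = one c ∘ em.symm := ⟨_, rfl⟩
  have hc1 : logHeight (one c) ≤ C' * (1 + Real.log H) := by
    rw [hc]
    exact hck _ H hH a ha
  rw [← hc]
  have hte : ∀ i, t (em i) = one c i := fun i => by
    rw [ht, Function.comp_apply, Equiv.symm_apply_apply]
  have ht0 : t ≠ 0 := by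
    intro h
    have h1 := hte (Sum.inl ())
    rw [h] at h1
    exact zero_ne_one h1
  have hth : logHeight t = logHeight (one c) := by
    rw [ht]
    exact logHeight_comp_equiv em.symm (one c)
  have hlH : 0 ≤ Real.log H := Real.log_nonneg (by exact_mod_cast hH)
  have hC1 : C * (1 + logHeight t) ≤ max C 0 * (1 + C') * (1 + Real.log H) := by
    rw [hth, mul_assoc]
    have h1 : 0 ≤ 1 + logHeight (one c) := by linarith [logHeight_nonneg (one c)]
    refine (mul_le_mul_of_nonneg_right (le_max_left C 0) h1).trans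
      (mul_le_mul_of_nonneg_left ?_ (le_max_right C 0))
    linarith [mul_nonneg hC' hlH]
  have hgv : ∀ {L : Type u} [Field L] [Algebra K L] (x : Fin (N + 1) → L) (j : Fin r),
      MvPolynomial.aeval (Sum.elim x fun l => algebraMap K L (t l)) (gp j) =
        Φ.g (fun i => algebraMap K L (c i)) x j := by
    intro L _ _ x j
    rw [hgp, E_fp_aeval, Fintype.sum_sum_type, Fintype.sum_unique, Fam.g]
    simp only [Sum.elim_inl, Sum.elim_inr, hte]
    rw [show one c (Sum.inl ()) = 1 from rfl, map_one, one_mul]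
    rfl
  have hhv : ∀ {L : Type u} [Field L] [Algebra K L] (x : Fin (N + 1) → L),
      MvPolynomial.aeval (Sum.elim x fun l => algebraMap K L (t l)) fp =
        Φ.f (fun i => algebraMap K L (c i)) x := by
    intro L _ _ x
    rw [hfp, E_fp_aeval, Fintype.sum_sum_type, Fintype.sum_unique, Fam.f]
    simp only [Sum.elim_inl, Sum.elim_inr, hte]
    rw [show one c (Sum.inl ()) = 1 from rfl, map_one, one_mul]
    rfl
  rcases hfin t ht0 P (AddSubgroup.mem_top P) (hC1.trans hP.le) with h | h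
  · right
    obtain ⟨i, w, b, hPw, -, hw, hTB⟩ := h
    refine ⟨i, w, (hw rfl).trans hC1, ?_⟩
    rcases hTB with hT | hT
    · left
      have h1 := hT 0 K (-b)
      rw [E_x_img, hhv, hPw, map_neg, add_neg_cancel_right] at h1
      exact h1
    · right
      obtain ⟨L, iL, iA, b', hg, htd⟩ := hT
      have hsum : A.img (Algebra.ofId K L) P + (hB i).inc L b' =
          A.img (Algebra.ofId K L) w + (hB i).inc L ((B i).img (Algebra.ofId K L) b + b') := by
        rw [hPw, AV.img_add, E_img_inc, map_add, add_assoc]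
      refine ⟨L, iL, iA, (B i).img (Algebra.ofId K L) b + b', fun j => ?_, fun L' _ _ q => ?_⟩
      · rw [yw, ← hsum, ← hgv]
        exact hg j
      · have h2 := (Pool.Agent.Lib.MP_17a322_nt.FU.M_shift (A := B i) (k := K) (F := L) b'
          ((B i).img (Algebra.ofId K L) b) (fun p => ?_)).1
        · rw [add_comm ((B i).img (Algebra.ofId K L) b) b', h2]
          exact htd L' q
        · obtain ⟨s, hs, h3⟩ := (B i).img_rep (Algebra.ofId K L) b
          refine ⟨(B i).x b p.1 / (B i).x b p.2, ?_⟩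
          have h4 : ∀ a, algebraMap K L ((B i).x b a) = s * (B i).x ((B i).img (Algebra.ofId K L) b) a :=
            fun a => h3 a
          rw [map_div₀, h4, h4, mul_div_mul_left _ _ hs]
          rfl
  · left
    obtain ⟨hf, hg, hle⟩ := h
    have hgv' : (fun j : Fin r => MvPolynomial.aeval (Sum.elim (A.x P) t) (gp j)) =
        Φ.g c (A.x P) := by
      funext j
      exact hgv (L := K) (A.x P) j
    have hhv' : MvPolynomial.aeval (Sum.elim (A.x P) t) fp = Φ.f c (A.x P) := hhv (L := K) (A.x P)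
    refine ⟨?_, ?_, ?_⟩
    · obtain ⟨j, hj⟩ := hf
      rw [← hhv']
      exact hj
    · obtain ⟨j, hj⟩ := hg
      refine ⟨j, ?_⟩
      rw [← hgv']
      exact hj
    · have hlam : ∀ v : AbsoluteValue K ℝ, Pool.Agent.Lib.MP_17a322_nt.FU.lamF D 1
          (fun _ : Fin 1 => fp) (A.x P) t v = Φ.lam c (A.x P) v := by
        intro v
        have h5 : (⨆ l, v (t l)) = ⨆ i, v (one c i) := by
          rw [ht]
          exact em.symm.iSup_congr fun i => rfl
        rw [Pool.Agent.Lib.MP_17a322_nt.FU.lamF, Fam.lam, hhv', Nat.cast_one, one_mul, ciSup_const, h5]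
      rw [hgv', hth] at hle
      simp only [hlam, Nat.cast_one, one_mul] at hle
      exact hle

end UVC
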