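import Pool.Agent.Lib.MP_17a322_ntU2.Defs0
import Pool.Agent.Lib.MP_17a322_ntU2.T1

/-!
uv2 general form, leaf G2: the proportion of the pairs of linear forms whose values have a common divisor of small norm.
-/

universe u

namespace UVC

open NumberField UVB

/-- representatives with small coordinates -/
private theorem G2_rep {K : Type u} [Field K] [NumberField K] {p e : ℕ} (ω : Module.Basis (Fin e) ℤ (𝓞 K))
    (J : Ideal (𝓞 K)) (hJ : J ≠ ⊥) (μ : 𝓞 K) (y : Fin p → 𝓞 K) (hy : ∀ k, y k ∈ J)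
    (hμy : ∀ t ∈ J, μ * t ∈ Ideal.span (Set.range y)) (𝔞 : Ideal (𝓞 K)) (h𝔞 : 𝔞 ≠ ⊥) :
    ∃ (Q : Type u) (_ : Fintype Q) (b : Q → Fin p → Fin e → ℤ),
      (μ ≠ 0 → Ideal.absNorm 𝔞 ≤ Fintype.card Q * Ideal.absNorm (Ideal.span {μ})) ∧
      (∀ l k j, 0 ≤ b l k j ∧ b l k j ≤ (Ideal.absNorm 𝔞 : ℤ)) ∧
      ∀ l l', (∑ k, (∑ j, b l k j • ω j) * y k) - (∑ k, (∑ j, b l' k j • ω j) * y k) ∈ 𝔞 * J → l = l' := by
  classical
  obtain ⟨B, hB⟩ : ∃ B : Ideal (𝓞 K), B = 𝔞 * J := ⟨_, rfl⟩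
  obtain ⟨A, hA⟩ : ∃ A : Ideal (𝓞 K), A = Ideal.span {μ} * J ⊔ B := ⟨_, rfl⟩
  have hq0 : Ideal.absNorm 𝔞 ≠ 0 := fun h => h𝔞 (Ideal.absNorm_eq_zero_iff.1 h)
  have hJN : Ideal.absNorm J ≠ 0 := fun h => hJ (Ideal.absNorm_eq_zero_iff.1 h)
  have hBA : B ≤ A := by
    rw [hA]
    exact le_sup_right
  have hcard := Submodule.card_quotient_mul_card_quotient A B hBA
  rw [← Submodule.cardQuot_apply, ← Submodule.cardQuot_apply, ← Ideal.absNorm_apply, ← Ideal.absNorm_apply] at hcard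
  have hBN : Ideal.absNorm B = Ideal.absNorm 𝔞 * Ideal.absNorm J := by
    rw [hB, map_mul]
  have hBN0 : Ideal.absNorm B ≠ 0 := by
    rw [hBN]
    exact mul_ne_zero hq0 hJN
  have hfin : Finite (Submodule.map B.mkQ A) := by
    apply Nat.finite_of_card_ne_zero
    intro h
    rw [h, zero_mul] at hcard
    exact hBN0 hcard.symm
  have hft : Fintype (Submodule.map B.mkQ A) := Fintype.ofFinite _
  have hz : ∀ l : Submodule.map B.mkQ A, ∃ c : Fin p → 𝓞 K, B.mkQ (∑ k, c k * y k) = l.1 := by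
    rintro ⟨l, hl⟩
    obtain ⟨z, hz1, hz2⟩ := (Submodule.mem_map).1 hl
    rw [hA] at hz1
    obtain ⟨z₁, hz₁, z₂, hz₂, h3⟩ := Submodule.mem_sup.1 hz1
    obtain ⟨t, ht, h4⟩ := Ideal.mem_span_singleton_mul.1 hz₁
    have h5 := hμy t ht
    rw [h4] at h5
    obtain ⟨c, hc⟩ := (Ideal.mem_span_range_iff_exists_fun).1 h5
    refine ⟨c, ?_⟩
    rw [hc]
    change B.mkQ z₁ = l
    rw [← hz2, ← sub_eq_zero, ← map_sub, Submodule.mkQ_apply, Submodule.Quotient.mk_eq_zero, ← h3,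
      sub_add_cancel_left]
    exact B.neg_mem hz₂
  choose c hc using hz
  refine ⟨Submodule.map B.mkQ A, hft, fun l k j => (ω.repr (c l k) j) % (Ideal.absNorm 𝔞 : ℤ), ?_, ?_, ?_⟩
  · intro hμ
    rw [← Nat.card_eq_fintype_card]
    have hle : Ideal.absNorm A ≤ Ideal.absNorm (Ideal.span {μ}) * Ideal.absNorm J := by
      have h1 : Ideal.span {μ} * J ≤ A := by
        rw [hA]
        exact le_sup_left
      have h2 := Ideal.absNorm_dvd_absNorm_of_le h1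
      rw [map_mul] at h2
      refine Nat.le_of_dvd (Nat.pos_of_ne_zero (mul_ne_zero ?_ hJN)) h2
      intro h3
      rw [Ideal.absNorm_eq_zero_iff, Ideal.span_singleton_eq_bot] at h3
      exact hμ h3
    rw [hBN] at hcard
    refine Nat.le_of_mul_le_mul_right ?_ (Nat.pos_of_ne_zero hJN)
    calc Ideal.absNorm 𝔞 * Ideal.absNorm J = Nat.card (Submodule.map B.mkQ A) * Ideal.absNorm A := hcard.symm
      _ ≤ Nat.card (Submodule.map B.mkQ A) * (Ideal.absNorm (Ideal.span {μ}) * Ideal.absNorm J) :=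
          Nat.mul_le_mul_left _ hle
      _ = Nat.card (Submodule.map B.mkQ A) * Ideal.absNorm (Ideal.span {μ}) * Ideal.absNorm J := by
          rw [mul_assoc]
  · intro l k j
    have hq1 : (Ideal.absNorm 𝔞 : ℤ) ≠ 0 := by exact_mod_cast hq0
    have hq2 : (0 : ℤ) < (Ideal.absNorm 𝔞 : ℤ) := by exact_mod_cast Nat.pos_of_ne_zero hq0
    exact ⟨Int.emod_nonneg _ hq1, (Int.emod_lt_of_pos _ hq2).le⟩
  · intro l l' h
    have key : ∀ l : Submodule.map B.mkQ A,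
        B.mkQ (∑ k, (∑ j, ((ω.repr (c l k) j) % (Ideal.absNorm 𝔞 : ℤ)) • ω j) * y k) = l.1 := by
      intro l
      rw [← hc l, ← sub_eq_zero, ← map_sub, Submodule.mkQ_apply, Submodule.Quotient.mk_eq_zero,
        ← Finset.sum_sub_distrib]
      refine Submodule.sum_mem _ fun k _ => ?_
      have h2 := ω.sum_repr (c l k)
      have h3 : ∑ j, (ω.repr (c l k) j) • ω j =
          ∑ j, ((ω.repr (c l k) j) % (Ideal.absNorm 𝔞 : ℤ)) • ω j +
            ((Ideal.absNorm 𝔞 : ℕ) : 𝓞 K) * ∑ j, ((ω.repr (c l k) j) / (Ideal.absNorm 𝔞 : ℤ)) • ω j := by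
        rw [Finset.mul_sum, ← Finset.sum_add_distrib]
        refine Finset.sum_congr rfl fun j _ => ?_
        have h4 := Int.emod_add_mul_ediv (ω.repr (c l k) j) (Ideal.absNorm 𝔞 : ℤ)
        have h5 : ((Ideal.absNorm 𝔞 : ℕ) : 𝓞 K) * (((ω.repr (c l k) j) / (Ideal.absNorm 𝔞 : ℤ)) • ω j) =
            ((Ideal.absNorm 𝔞 : ℤ) * ((ω.repr (c l k) j) / (Ideal.absNorm 𝔞 : ℤ))) • ω j := by
          rw [mul_smul, zsmul_eq_mul, zsmul_eq_mul, Int.cast_natCast]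
        rw [h5, ← add_smul, h4]
      rw [h2] at h3
      have h6 : (∑ j, ((ω.repr (c l k) j) % (Ideal.absNorm 𝔞 : ℤ)) • ω j) * y k - c l k * y k =
          ((Ideal.absNorm 𝔞 : ℕ) : 𝓞 K) *
            (-(∑ j, ((ω.repr (c l k) j) / (Ideal.absNorm 𝔞 : ℤ)) • ω j) * y k) := by
        linear_combination (-y k) * h3
      rw [h6, hB]
      exact Ideal.mul_mem_mul (Ideal.absNorm_mem 𝔞) (J.mul_mem_left _ (hy k))
    apply Subtype.ext
    rw [← key l, ← key l', ← sub_eq_zero, ← map_sub, Submodule.mkQ_apply, Submodule.Quotient.mk_eq_zero, hB]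
    exact h

private theorem G2_co {K : Type u} [Field K] [NumberField K] {e : ℕ} (ω : Module.Basis (Fin e) ℤ (𝓞 K))
    {ι : Type} (a b : ι × Fin e → ℤ) (i : ι) : co ω (a - b) i = co ω a i - co ω b i := by
  simp only [co, Pi.sub_apply, sub_smul, Finset.sum_sub_distrib]

private theorem G2_diff {K : Type u} [Field K] [NumberField K] {p : ℕ} (y₀ : 𝓞 K) (f g g' y : Fin p → 𝓞 K)
    (I : Ideal (𝓞 K)) (h : y₀ + ∑ k, (f k - g k) * y k ∈ I) (h' : y₀ + ∑ k, (f k - g' k) * y k ∈ I) :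
    (∑ k, g k * y k) - (∑ k, g' k * y k) ∈ I := by
  have h1 := I.sub_mem h' h
  have h2 : (y₀ + ∑ k, (f k - g' k) * y k) - (y₀ + ∑ k, (f k - g k) * y k) =
      (∑ k, g k * y k) - (∑ k, g' k * y k) := by
    simp only [sub_mul, Finset.sum_sub_distrib]
    ring
  rwa [h2] at h1

/-- UVB.G2 (file MP_17a322_ntU2/G2.lean, done by helper54) for arbitrary vectors.  `J ≠ ⊥` is an ideal, `y`, `z` are vectors with entries in `J` whose
entries generate ideals that contain `μ J`, `y₀`, `z₀ ∈ J`.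

PROOF.  `q = N 𝔞`.  The index of `𝔞 J` in `J` is `q` (as in UVB.G2), the index of `μ J` in `J` is `N (μ)`, so the image of `μ J` in `J / 𝔞 J` has at least
`q / N (μ)` elements (`[J : 𝔞 J] = [J : μ J + 𝔞 J] [μ J + 𝔞 J : 𝔞 J]` and `[J : μ J + 𝔞 J] ≤ [J : μ J] = N (μ)`): there are `s ≥ q / N (μ)` elements
`z_1, .., z_s` of `μ J` in different classes modulo `𝔞 J`; `z_l = ∑ k, c_lk y k` and the coordinates of the `c_lk` in the basis `ω` may be reduced modulo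
`q` (`q y k ∈ 𝔞 J`), which gives representatives of the same classes of the form `∑ k, c_lk y k` with coordinates in `[0, q) ⊆ [0, H]`; the same for `z`.
`R` = the `s ^ 2` vectors built from the pairs, T1 with `m = 1` as in UVB.G2 (the constant terms drop out of the differences).
`s ^ 2 cnt ≤ 4 ^ (#ι e) H ^ (#ι e)` and `1 / s ≤ N (μ) / q`. -/
theorem G2 {K : Type u} [Field K] [NumberField K] {p e : ℕ} (ω : Module.Basis (Fin e) ℤ (𝓞 K))
    {ι : Type} [Fintype ι] (em₁ em₂ : Fin p → ι)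
    (h₁ : Function.Injective em₁) (h₂ : Function.Injective em₂) (h₁₂ : ∀ k l, em₁ k ≠ em₂ l)
    (J : Ideal (𝓞 K)) (hJ : J ≠ ⊥) (μ : 𝓞 K) (hμ : μ ≠ 0) (y z : Fin p → 𝓞 K) (y₀ z₀ : 𝓞 K)
    (hy : ∀ k, y k ∈ J) (hz : ∀ k, z k ∈ J) (hy₀ : y₀ ∈ J) (hz₀ : z₀ ∈ J)
    (hμy : ∀ t ∈ J, μ * t ∈ Ideal.span (Set.range y))
    (hμz : ∀ t ∈ J, μ * t ∈ Ideal.span (Set.range z))
    (𝔞 : Ideal (𝓞 K)) (h𝔞 : 𝔞 ≠ ⊥) (H : ℕ) (hH : Ideal.absNorm 𝔞 ≤ H) :
    (cnt H (fun a : ι × Fin e → ℤ =>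
      y₀ + ∑ k, co ω a (em₁ k) * y k ∈ 𝔞 * J ∧ z₀ + ∑ k, co ω a (em₂ k) * z k ∈ 𝔞 * J) : ℝ) ≤
          4 ^ (Fintype.card ι * e) * ((Ideal.absNorm (Ideal.span {μ}) : ℝ) ^ 2 /
            (Ideal.absNorm 𝔞 : ℝ) ^ 2) * (H : ℝ) ^ (Fintype.card ι * e) := by
  classical
  have _ := hy₀
  have _ := hz₀
  obtain ⟨Q, hQ, b, hcQ, hb, hinj⟩ := G2_rep ω J hJ μ y hy hμy 𝔞 h𝔞
  obtain ⟨Q', hQ', b', hcQ', hb', hinj'⟩ := G2_rep ω J hJ μ z hz hμz 𝔞 h𝔞
  replace hcQ := hcQ hμ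
  replace hcQ' := hcQ' hμ
  have hq0 : Ideal.absNorm 𝔞 ≠ 0 := fun h => h𝔞 (Ideal.absNorm_eq_zero_iff.1 h)
  have hq1 : 1 ≤ Ideal.absNorm 𝔞 := Nat.one_le_iff_ne_zero.2 hq0
  obtain ⟨r, hr⟩ : ∃ r : Q × Q' → ι × Fin e → ℤ, r = fun l i =>
      Function.extend em₁ (fun μ => b l.1 μ i.2) (Function.extend em₂ (fun μ => b' l.2 μ i.2) 0) i.1 := ⟨_, rfl⟩
  have hr1 : ∀ l μ k, r l (em₁ μ, k) = b l.1 μ k := by
    intro l μ k
    rw [hr]
    exact h₁.extend_apply _ _ μ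
  have hr2 : ∀ l μ k, r l (em₂ μ, k) = b' l.2 μ k := by
    intro l μ k
    rw [hr]
    have h3 : ¬ ∃ ν, em₁ ν = em₂ μ := fun ⟨ν, hν⟩ => h₁₂ ν μ hν
    change Function.extend em₁ _ _ (em₂ μ) = _
    rw [Function.extend_apply' _ _ _ h3]
    exact h₂.extend_apply _ _ μ
  have hr3 : ∀ l i, 0 ≤ r l i ∧ r l i ≤ (H : ℤ) := by
    intro l i
    obtain ⟨i, k⟩ := i
    have hHq : (Ideal.absNorm 𝔞 : ℤ) ≤ (H : ℤ) := by exact_mod_cast hH
    by_cases hi : ∃ ν, em₁ ν = i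
    · obtain ⟨ν, rfl⟩ := hi
      rw [hr1]
      exact ⟨(hb l.1 ν k).1, (hb l.1 ν k).2.trans hHq⟩
    · by_cases hi2 : ∃ ν, em₂ ν = i
      · obtain ⟨ν, rfl⟩ := hi2
        rw [hr2]
        exact ⟨(hb' l.2 ν k).1, (hb' l.2 ν k).2.trans hHq⟩
      · have h3 : r l (i, k) = 0 := by
          rw [hr]
          change Function.extend em₁ _ _ i = _
          rw [Function.extend_apply' _ _ _ hi, Function.extend_apply' _ _ _ hi2]
          rfl
        rw [h3]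
        exact ⟨le_refl _, by positivity⟩
  have hc1 : ∀ l μ, co ω (r l) (em₁ μ) = ∑ k, b l.1 μ k • ω k := by
    intro l μ
    simp only [co, hr1]
  have hc2 : ∀ l μ, co ω (r l) (em₂ μ) = ∑ k, b' l.2 μ k • ω k := by
    intro l μ
    simp only [co, hr2]
  have hkey : ∀ (x : ι × Fin e → ℤ) (l l' : Q × Q'),
      (y₀ + ∑ k, co ω (x - r l) (em₁ k) * y k ∈ 𝔞 * J ∧ z₀ + ∑ k, co ω (x - r l) (em₂ k) * z k ∈ 𝔞 * J) →
      (y₀ + ∑ k, co ω (x - r l') (em₁ k) * y k ∈ 𝔞 * J ∧ z₀ + ∑ k, co ω (x - r l') (em₂ k) * z k ∈ 𝔞 * J) →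
        l = l' := by
    intro x l l' ha hb'
    simp only [G2_co, hc1, hc2] at ha hb'
    exact Prod.ext (hinj _ _ (G2_diff _ _ _ _ _ _ ha.1 hb'.1)) (hinj' _ _ (G2_diff _ _ _ _ _ _ ha.2 hb'.2))
  have hrinj : Function.Injective r := by
    intro l l' h
    have h4 : ∀ μ k, b l.1 μ k = b l'.1 μ k := fun μ k => by rw [← hr1, ← hr1, h]
    have h5 : ∀ μ k, b' l.2 μ k = b' l'.2 μ k := fun μ k => by rw [← hr2, ← hr2, h]
    refine Prod.ext (hinj _ _ ?_) (hinj' _ _ ?_)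
    · simp only [h4]
      rw [sub_self]
      exact Submodule.zero_mem _
    · simp only [h5]
      rw [sub_self]
      exact Submodule.zero_mem _
  have hT := T1 H (fun a : ι × Fin e → ℤ =>
      y₀ + ∑ k, co ω a (em₁ k) * y k ∈ 𝔞 * J ∧ z₀ + ∑ k, co ω a (em₂ k) * z k ∈ 𝔞 * J)
    (Finset.univ.image r) (by
      intro s hs i
      obtain ⟨l, -, rfl⟩ := Finset.mem_image.1 hs
      exact hr3 l i) 1 (by
      intro x
      have hsub : Subsingleton {s : ι × Fin e → ℤ // s ∈ Finset.univ.image r ∧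
          (y₀ + ∑ k, co ω (x - s) (em₁ k) * y k ∈ 𝔞 * J ∧ z₀ + ∑ k, co ω (x - s) (em₂ k) * z k ∈ 𝔞 * J)} := by
        refine ⟨?_⟩
        rintro ⟨s, hs, hs'⟩ ⟨t, ht, ht'⟩
        obtain ⟨l, -, rfl⟩ := Finset.mem_image.1 hs
        obtain ⟨l', -, rfl⟩ := Finset.mem_image.1 ht
        have h3 := hkey x l l' hs' ht'
        subst h3
        rfl
      exact Finite.card_le_one_iff_subsingleton.2 hsub)
  rw [Finset.card_image_of_injective _ hrinj, Finset.card_univ, Fintype.card_prod, Fintype.card_prod,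
    Fintype.card_fin, one_mul] at hT
  have hH1 : 1 ≤ H := hq1.trans hH
  have hT' := hT.trans (Nat.pow_le_pow_left (by omega : 3 * H + 1 ≤ 4 * H) (Fintype.card ι * e))
  rw [mul_pow] at hT'
  obtain ⟨cn, hcn⟩ : ∃ cn : ℕ, cn = cnt H (fun a : ι × Fin e → ℤ =>
      y₀ + ∑ k, co ω a (em₁ k) * y k ∈ 𝔞 * J ∧ z₀ + ∑ k, co ω a (em₂ k) * z k ∈ 𝔞 * J) := ⟨_, rfl⟩
  rw [← hcn] at hT' ⊢
  have hTR : Ideal.absNorm 𝔞 * Ideal.absNorm 𝔞 * cn ≤
      Ideal.absNorm (Ideal.span {μ}) * Ideal.absNorm (Ideal.span {μ}) *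
        (4 ^ (Fintype.card ι * e) * H ^ (Fintype.card ι * e)) := by
    calc Ideal.absNorm 𝔞 * Ideal.absNorm 𝔞 * cn ≤
        (Fintype.card Q * Ideal.absNorm (Ideal.span {μ})) * (Fintype.card Q' * Ideal.absNorm (Ideal.span {μ})) * cn :=
          Nat.mul_le_mul_right _ (Nat.mul_le_mul hcQ hcQ')
      _ = Ideal.absNorm (Ideal.span {μ}) * Ideal.absNorm (Ideal.span {μ}) *
          (Fintype.card Q * Fintype.card Q' * cn) := by ring
      _ ≤ _ := Nat.mul_le_mul_left _ hT'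
  have hTR' : (Ideal.absNorm 𝔞 : ℝ) * (Ideal.absNorm 𝔞 : ℝ) * (cn : ℝ) ≤
      (Ideal.absNorm (Ideal.span {μ}) : ℝ) * (Ideal.absNorm (Ideal.span {μ}) : ℝ) *
        (4 ^ (Fintype.card ι * e) * (H : ℝ) ^ (Fintype.card ι * e)) := by
    exact_mod_cast hTR
  have hqR : (0 : ℝ) < (Ideal.absNorm 𝔞 : ℝ) := by exact_mod_cast hq1
  have h6 : 4 ^ (Fintype.card ι * e) * ((Ideal.absNorm (Ideal.span {μ}) : ℝ) ^ 2 / (Ideal.absNorm 𝔞 : ℝ) ^ 2) *
      (H : ℝ) ^ (Fintype.card ι * e) =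
      ((Ideal.absNorm (Ideal.span {μ}) : ℝ) * (Ideal.absNorm (Ideal.span {μ}) : ℝ) *
        (4 ^ (Fintype.card ι * e) * (H : ℝ) ^ (Fintype.card ι * e))) /
        ((Ideal.absNorm 𝔞 : ℝ) * (Ideal.absNorm 𝔞 : ℝ)) := by
    rw [sq, sq]
    ring
  rw [h6, le_div_iff₀ (by positivity), mul_comm]
  exact hTR'

end UVC
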