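import Pool.Agent.Lib.MP_17a322_ntU3.Defs
import Pool.Agent.Lib.MP_17a322_ntU2.G3a

/-!
uv2 general form, leaf G3: the number of the large prime divisors of a value.
-/

universe u

namespace UVC

open NumberField UVB

/-- The value of a form of degree `n` is in the power of the content.  PROOF.  A sum of terms `coefficient * ∏ i, x i ^ m i` with
`∑ m i = n` (`MvPolynomial.aeval_def`, `eval₂_eq`), `∏ i, x i ^ m i ∈ ∏ i, J ^ m i = J ^ n` (as UVB.G1_mem, helper49). -/
theorem H1 {R : Type*} [CommRing R] {N n : ℕ} (f : MvPolynomial (Fin (N + 1)) R)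
    (hf : f.IsHomogeneous n) (x : Fin (N + 1) → R) :
    MvPolynomial.aeval x f ∈ Ideal.span (Set.range x) ^ n := by
  rw [MvPolynomial.aeval_eq_eval, MvPolynomial.eval_eq']
  refine Ideal.sum_mem _ fun μ hμ => Ideal.mul_mem_left _ _ ?_
  have h1 : ∏ i, x i ^ μ i ∈ ∏ i, Ideal.span (Set.range x) ^ μ i :=
    Ideal.prod_mem_prod fun i _ => Ideal.pow_mem_pow (Ideal.subset_span (Set.mem_range_self i)) _
  have h2 := hf (MvPolynomial.mem_support_iff.1 hμ)
  rw [Finsupp.weight_apply, Finsupp.sum_fintype _ _ (by simp)] at h2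
  simp only [Pi.one_apply, smul_eq_mul, mul_one] at h2
  rw [Finset.prod_pow_eq_pow_sum, h2] at h1
  exact h1

private theorem G3_int {K : Type u} [Field K] [NumberField K] (v : InfinitePlace K) (m : ℤ) :
    v ((m : ℤ) : K) = |(m : ℝ)| := by
  rw [← InfinitePlace.norm_embedding_eq, map_intCast, Complex.norm_intCast]

private theorem G3_sum {K : Type u} [Field K] [NumberField K] (v : InfinitePlace K) {ι : Type} (s : Finset ι)
    (f : ι → K) : v (∑ i ∈ s, f i) ≤ ∑ i ∈ s, v (f i) := by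
  rw [← InfinitePlace.norm_embedding_eq, map_sum]
  refine (norm_sum_le _ _).trans (le_of_eq ?_)
  exact Finset.sum_congr rfl fun i _ => InfinitePlace.norm_embedding_eq v _

private theorem G3_add {K : Type u} [Field K] [NumberField K] (v : InfinitePlace K) (a b : K) :
    v (a + b) ≤ v a + v b := by
  rw [← InfinitePlace.norm_embedding_eq v (a + b), ← InfinitePlace.norm_embedding_eq v a,
    ← InfinitePlace.norm_embedding_eq v b, map_add]
  exact norm_add_le _ _

/-- the value of one coefficient -/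
private theorem G3_co {K : Type u} [Field K] [NumberField K] {p e : ℕ} (ω : Module.Basis (Fin e) ℤ (𝓞 K))
    (v : InfinitePlace K) (H : ℕ) (b : Fin p × Fin e → ℤ) (hb : ∀ i, |b i| ≤ 2 * (H : ℤ)) (μ : Fin p) :
    v (algebraMap (𝓞 K) K (co ω b μ)) ≤ 2 * H * ∑ k, v (algebraMap (𝓞 K) K (ω k)) := by
  unfold co
  rw [map_sum, Finset.mul_sum]
  refine (G3_sum v _ _).trans (Finset.sum_le_sum fun k _ => ?_)
  rw [zsmul_eq_mul, map_mul, map_intCast, map_mul, G3_int]
  refine mul_le_mul_of_nonneg_right ?_ (apply_nonneg v _)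
  have h := hb (μ, k)
  have h2 : ((|b (μ, k)| : ℤ) : ℝ) ≤ ((2 * (H : ℤ) : ℤ) : ℝ) := by exact_mod_cast h
  rw [Int.cast_abs] at h2
  push_cast at h2
  exact h2

/-- the sum of the absolute values of the coefficients of a form -/
private noncomputable def G3_c {K : Type u} [Field K] [NumberField K] {N : ℕ} (v : InfinitePlace K)
    (f : MvPolynomial (Fin (N + 1)) (𝓞 K)) : ℝ := ∑ μ ∈ f.support, v (algebraMap (𝓞 K) K (f.coeff μ))

private theorem G3_c0 {K : Type u} [Field K] [NumberField K] {N : ℕ} (v : InfinitePlace K)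
    (f : MvPolynomial (Fin (N + 1)) (𝓞 K)) : 0 ≤ G3_c v f :=
  Finset.sum_nonneg fun _ _ => apply_nonneg v _

/-- the value of a form -/
private theorem G3_fm {K : Type u} [Field K] [NumberField K] {N n : ℕ} (v : InfinitePlace K)
    (f : MvPolynomial (Fin (N + 1)) (𝓞 K)) (hf : f.IsHomogeneous n) (x : Fin (N + 1) → 𝓞 K) :
    v (algebraMap (𝓞 K) K (MvPolynomial.aeval x f)) ≤
      G3_c v f * (⨆ i, v (algebraMap (𝓞 K) K (x i))) ^ n := by
  set S : ℝ := ⨆ i, v (algebraMap (𝓞 K) K (x i)) with hS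
  have hle : ∀ i, v (algebraMap (𝓞 K) K (x i)) ≤ S := fun i =>
    le_ciSup (f := fun i => v (algebraMap (𝓞 K) K (x i))) (Finite.bddAbove_range _) i
  rw [MvPolynomial.aeval_eq_eval, MvPolynomial.eval_eq', map_sum, G3_c, Finset.sum_mul]
  refine (G3_sum v _ _).trans (Finset.sum_le_sum fun μ hμ => ?_)
  have hd := hf (MvPolynomial.mem_support_iff.1 hμ)
  rw [Finsupp.weight_apply, Finsupp.sum_fintype _ _ (by simp)] at hd
  simp only [Pi.one_apply, smul_eq_mul, mul_one] at hd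
  rw [map_mul, map_mul, map_prod, map_prod]
  refine mul_le_mul_of_nonneg_left ?_ (apply_nonneg v _)
  calc ∏ i, v (algebraMap (𝓞 K) K (x i ^ μ i))
      ≤ ∏ i, S ^ μ i := by
        refine Finset.prod_le_prod (fun i _ => apply_nonneg v _) fun i _ => ?_
        rw [map_pow, map_pow]
        exact pow_le_pow_left₀ (apply_nonneg v _) (hle i) _
    _ = S ^ n := by rw [Finset.prod_pow_eq_pow_sum, hd]

/-- the value of the member of the family -/
private theorem G3_fv {K : Type u} [Field K] [NumberField K] {N n p e : ℕ} (ω : Module.Basis (Fin e) ℤ (𝓞 K))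
    (G : MvPolynomial (Fin (N + 1)) (𝓞 K)) (E : Fin p → MvPolynomial (Fin (N + 1)) (𝓞 K))
    (hG : G.IsHomogeneous n) (hE : ∀ k, (E k).IsHomogeneous n)
    (v : InfinitePlace K) (H : ℕ) (hH : 1 ≤ H) (b : Fin p × Fin e → ℤ) (hb : ∀ i, |b i| ≤ 2 * (H : ℤ))
    (x : Fin (N + 1) → 𝓞 K) :
    v (algebraMap (𝓞 K) K (MvPolynomial.aeval x G + ∑ k, co ω b k * MvPolynomial.aeval x (E k))) ≤
      (G3_c v G + 2 * (∑ k, v (algebraMap (𝓞 K) K (ω k))) * ∑ k, G3_c v (E k)) * H *
        (⨆ i, v (algebraMap (𝓞 K) K (x i))) ^ n := by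
  set S : ℝ := ⨆ i, v (algebraMap (𝓞 K) K (x i)) with hS
  have hle : ∀ i, v (algebraMap (𝓞 K) K (x i)) ≤ S := fun i =>
    le_ciSup (f := fun i => v (algebraMap (𝓞 K) K (x i))) (Finite.bddAbove_range _) i
  have hS0 : 0 ≤ S := (apply_nonneg v _).trans (hle 0)
  have hH' : (1 : ℝ) ≤ H := by exact_mod_cast hH
  have hW0 : 0 ≤ ∑ k, v (algebraMap (𝓞 K) K (ω k)) := Finset.sum_nonneg fun k _ => apply_nonneg v _
  have h1 : v (algebraMap (𝓞 K) K (MvPolynomial.aeval x G)) ≤ G3_c v G * H * S ^ n := by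
    refine (G3_fm v G hG x).trans ?_
    refine mul_le_mul_of_nonneg_right ?_ (pow_nonneg hS0 n)
    exact le_mul_of_one_le_right (G3_c0 v G) hH'
  have h2 : v (algebraMap (𝓞 K) K (∑ k, co ω b k * MvPolynomial.aeval x (E k))) ≤
      (2 * (∑ k, v (algebraMap (𝓞 K) K (ω k))) * ∑ k, G3_c v (E k)) * H * S ^ n := by
    rw [map_sum]
    have e : (2 * (∑ k, v (algebraMap (𝓞 K) K (ω k))) * ∑ k, G3_c v (E k)) * H * S ^ n =
        ∑ k, (2 * H * ∑ k, v (algebraMap (𝓞 K) K (ω k))) * (G3_c v (E k) * S ^ n) := by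
      rw [← Finset.mul_sum, ← Finset.sum_mul]
      ring
    rw [e]
    refine (G3_sum v _ _).trans (Finset.sum_le_sum fun k _ => ?_)
    rw [map_mul, map_mul]
    exact mul_le_mul (G3_co ω v H b hb k) (G3_fm v (E k) (hE k) x) (apply_nonneg v _)
      (mul_nonneg (by positivity) hW0)
  have h3 : v (algebraMap (𝓞 K) K (MvPolynomial.aeval x G + ∑ k, co ω b k * MvPolynomial.aeval x (E k))) ≤
      v (algebraMap (𝓞 K) K (MvPolynomial.aeval x G)) +
        v (algebraMap (𝓞 K) K (∑ k, co ω b k * MvPolynomial.aeval x (E k))) := by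
    rw [map_add]
    exact G3_add v _ _
  refine h3.trans ((add_le_add h1 h2).trans (le_of_eq ?_))
  ring

/-- THE LARGE PRIME DIVISORS.  UVB.G3 (file MP_17a322_ntU2/G3.lean, done by helper79) for `α = G (x) + ∑ k, c_k E_k (x)`: same proof;
`α ∈ J ^ n` by H1, and `v α ≤ (c_v (G) + H ∑_k ∑_l v (ω l) c_v (E_k)) (⨆ i, v (x i)) ^ n` at the infinite places, `c_v` the sum of the absolute values of the
coefficients of a form. -/
theorem G3 {K : Type u} [Field K] [NumberField K] {N n p e : ℕ} (ω : Module.Basis (Fin e) ℤ (𝓞 K))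
    (G : MvPolynomial (Fin (N + 1)) (𝓞 K)) (E : Fin p → MvPolynomial (Fin (N + 1)) (𝓞 K))
    (hG : G.IsHomogeneous n) (hE : ∀ k, (E k).IsHomogeneous n)
    (C₁ : ℝ) : ∃ m : ℕ, ∀ x : Fin (N + 1) → 𝓞 K, x ≠ 0 → ∀ H : ℕ, 2 ≤ H →
      Height.logHeight (fun i => (x i : K)) ≤ C₁ * (1 + Real.log H) →
        ∀ b : Fin p × Fin e → ℤ, (∀ i, |b i| ≤ 2 * (H : ℤ)) →
          MvPolynomial.aeval x G + ∑ k, co ω b k * MvPolynomial.aeval x (E k) ≠ 0 →
          ∀ s : Finset (Ideal (𝓞 K)), (∀ 𝔭 ∈ s, 𝔭.IsPrime ∧ H < Ideal.absNorm 𝔭 ∧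
            MvPolynomial.aeval x G + ∑ k, co ω b k * MvPolynomial.aeval x (E k) ∈
              𝔭 * Ideal.span (Set.range x) ^ n) → s.card ≤ m := by
  classical
  set A : InfinitePlace K → ℝ := fun v =>
    G3_c v G + 2 * (∑ k, v (algebraMap (𝓞 K) K (ω k))) * ∑ k, G3_c v (E k) + 1 with hA
  have hA0 : ∀ v, 0 < A v := fun v => by
    have h1 : 0 ≤ ∑ k, v (algebraMap (𝓞 K) K (ω k)) := Finset.sum_nonneg fun k _ => apply_nonneg v _
    have h2 : 0 ≤ ∑ k, G3_c v (E k) := Finset.sum_nonneg fun k _ => G3_c0 v _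
    have h3 := G3_c0 v G
    simp only [hA]
    positivity
  set C₃ : ℝ := n * |C₁| + ∑ v : InfinitePlace K, (v.mult : ℝ) * (1 + |Real.log (A v)|) with hC₃
  have hC₃0 : 0 ≤ C₃ := add_nonneg (by positivity)
    (Finset.sum_nonneg fun v _ => mul_nonneg (Nat.cast_nonneg _) (by positivity))
  refine ⟨⌈C₃ * (1 + 1 / Real.log 2)⌉₊, ?_⟩
  intro x hx H hH hh b hb hne s hs
  have hH1 : (1 : ℝ) < H := by exact_mod_cast (by omega : 1 < H)
  have hH2 : (2 : ℝ) ≤ H := by exact_mod_cast hH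
  have hlog2 : 0 < Real.log 2 := Real.log_pos (by norm_num)
  have hlogH : Real.log 2 ≤ Real.log H := Real.log_le_log (by norm_num) hH2
  have hlogH0 : 0 < Real.log H := hlog2.trans_le hlogH
  set J : Ideal (𝓞 K) := Ideal.span (Set.range x) with hJ
  set α : 𝓞 K := MvPolynomial.aeval x G + ∑ k, co ω b k * MvPolynomial.aeval x (E k) with hα
  have hJ0 : J ≠ 0 := by
    intro h0
    apply hx
    funext i
    have : x i ∈ J := Ideal.subset_span ⟨i, rfl⟩
    rw [h0] at this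
    simpa using this
  have hJn : J ^ n ≠ 0 := pow_ne_zero _ hJ0
  have hαJ : α ∈ J ^ n := Ideal.add_mem _ (H1 G hG x)
    (Ideal.sum_mem _ fun k _ => Ideal.mul_mem_left _ _ (H1 (E k) (hE k) x))
  obtain ⟨𝔟, h𝔟⟩ : J ^ n ∣ Ideal.span {α} := by
    rw [Ideal.dvd_span_singleton]
    exact hαJ
  have hα0 : Ideal.span {α} ≠ 0 := by
    rw [Ideal.zero_eq_bot, Ne, Ideal.span_singleton_eq_bot]
    exact hne
  have h𝔟0 : 𝔟 ≠ 0 := by
    rintro rfl
    exact hα0 (by rw [h𝔟, mul_zero])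
  have hdvd : ∀ 𝔭 ∈ s, 𝔭 ∣ 𝔟 := by
    intro 𝔭 h𝔭
    have h1 : 𝔭 * J ^ n ∣ Ideal.span {α} := by
      rw [Ideal.dvd_span_singleton]
      exact (hs 𝔭 h𝔭).2.2
    rw [h𝔟, mul_comm (J ^ n) 𝔟] at h1
    exact (mul_dvd_mul_iff_right hJn).1 h1
  have hprod : ∏ 𝔭 ∈ s, 𝔭 ∣ 𝔟 := by
    refine Finset.prod_primes_dvd 𝔟 (fun 𝔭 h𝔭 => ?_) hdvd
    refine Ideal.prime_of_isPrime ?_ (hs 𝔭 h𝔭).1
    rintro rfl
    have := (hs _ h𝔭).2.1
    rw [Ideal.absNorm_bot] at this
    omega
  have hN𝔟 : Ideal.absNorm 𝔟 ≠ 0 := by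
    rw [Ne, Ideal.absNorm_eq_zero_iff]
    exact h𝔟0
  have hcard : H ^ s.card ≤ Ideal.absNorm 𝔟 := by
    calc H ^ s.card = ∏ _𝔭 ∈ s, H := by rw [Finset.prod_const]
      _ ≤ ∏ 𝔭 ∈ s, Ideal.absNorm 𝔭 := Finset.prod_le_prod' fun 𝔭 h𝔭 => (hs 𝔭 h𝔭).2.1.le
      _ = Ideal.absNorm (∏ 𝔭 ∈ s, 𝔭) := (map_prod Ideal.absNorm _ _).symm
      _ ≤ Ideal.absNorm 𝔟 := Nat.le_of_dvd (Nat.pos_of_ne_zero hN𝔟) (map_dvd Ideal.absNorm hprod)
  have hcard' : (s.card : ℝ) * Real.log H ≤ Real.log (Ideal.absNorm 𝔟) := by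
    rw [← Real.log_pow]
    refine Real.log_le_log (by positivity) ?_
    exact_mod_cast hcard
  -- the norm of `α`
  have hNJ : (Ideal.absNorm J : ℝ) ≠ 0 := by
    rw [Nat.cast_ne_zero, Ne, Ideal.absNorm_eq_zero_iff]
    exact hJ0
  have hαK : algebraMap (𝓞 K) K α ≠ 0 := by
    rw [Ne, RingOfIntegers.coe_eq_zero_iff]
    exact hne
  have hnorm : (Ideal.absNorm (Ideal.span {α}) : ℝ) = ∏ v : InfinitePlace K, v (algebraMap (𝓞 K) K α) ^ v.mult := by
    rw [InfinitePlace.prod_eq_abs_norm, Ideal.absNorm_span_singleton, Nat.cast_natAbs, Int.cast_abs, ← Algebra.coe_norm_int]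
    push_cast
    rfl
  have hlogα : Real.log (Ideal.absNorm (Ideal.span {α})) =
      ∑ v : InfinitePlace K, (v.mult : ℝ) * Real.log (v (algebraMap (𝓞 K) K α)) := by
    rw [hnorm, Real.log_prod]
    · exact Finset.sum_congr rfl fun v _ => Real.log_pow _ _
    · intro v _
      exact pow_ne_zero _ ((map_ne_zero v).2 hαK)
  have hlog𝔟 : Real.log (Ideal.absNorm 𝔟) =
      (∑ v : InfinitePlace K, (v.mult : ℝ) * Real.log (v (algebraMap (𝓞 K) K α))) - n * Real.log (Ideal.absNorm J) := by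
    rw [← hlogα, h𝔟, map_mul, map_pow, Nat.cast_mul, Nat.cast_pow, Real.log_mul (pow_ne_zero _ hNJ) (by exact_mod_cast hN𝔟),
      Real.log_pow]
    ring
  have hxK : (fun i => (x i : K)) ≠ 0 := by
    intro h0
    apply hx
    funext i
    have := congrFun h0 i
    simpa using this
  have hFP := FP_eq x hx
  have hLH := logHeight_eq (fun i => (x i : K)) hxK
  rw [hFP] at hLH
  have hv : ∀ v : InfinitePlace K, Real.log (v (algebraMap (𝓞 K) K α)) ≤
      (1 + |Real.log (A v)|) * (1 + Real.log H) + n * Real.log (⨆ i, v (algebraMap (𝓞 K) K (x i))) := by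
    intro v
    have hvα : 0 < v (algebraMap (𝓞 K) K α) := (InfinitePlace.pos_iff).2 hαK
    have h1 := G3_fv ω G E hG hE v H (by omega) b hb x
    set S : ℝ := ⨆ i, v (algebraMap (𝓞 K) K (x i)) with hS
    have hSle : ∀ i, v (algebraMap (𝓞 K) K (x i)) ≤ S := fun i =>
      le_ciSup (f := fun i => v (algebraMap (𝓞 K) K (x i))) (Finite.bddAbove_range _) i
    obtain ⟨i, hi⟩ := Function.ne_iff.1 hx
    have hS0 : 0 < S := by
      refine lt_of_lt_of_le ((InfinitePlace.pos_iff).2 ?_) (hSle i)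
      rw [Ne, RingOfIntegers.coe_eq_zero_iff]
      exact hi
    have h2 : v (algebraMap (𝓞 K) K α) ≤ A v * H * S ^ n := by
      refine h1.trans ?_
      simp only [hA]
      have : (0 : ℝ) ≤ H * S ^ n := by positivity
      nlinarith
    have h3 : Real.log (v (algebraMap (𝓞 K) K α)) ≤ Real.log (A v * H * S ^ n) := Real.log_le_log hvα h2
    rw [Real.log_mul (by have := hA0 v; positivity) (by positivity), Real.log_mul (hA0 v).ne' (by positivity), Real.log_pow] at h3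
    have h4 := le_abs_self (Real.log (A v))
    have h5 := abs_nonneg (Real.log (A v))
    nlinarith [mul_nonneg h5 hlogH0.le]
  have hmain : Real.log (Ideal.absNorm 𝔟) ≤ C₃ * (1 + Real.log H) := by
    rw [hlog𝔟]
    have h1 : ∑ v : InfinitePlace K, (v.mult : ℝ) * Real.log (v (algebraMap (𝓞 K) K α)) ≤
        (∑ v : InfinitePlace K, (v.mult : ℝ) * (1 + |Real.log (A v)|)) * (1 + Real.log H) +
          n * ∑ v : InfinitePlace K, (v.mult : ℝ) * Real.log (⨆ i, v (algebraMap (𝓞 K) K (x i))) := by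
      rw [Finset.sum_mul, Finset.mul_sum, ← Finset.sum_add_distrib]
      refine Finset.sum_le_sum fun v _ => ?_
      have := mul_le_mul_of_nonneg_left (hv v) (Nat.cast_nonneg (α := ℝ) v.mult)
      linarith
    have h2 : (n : ℝ) * Height.logHeight (fun i => (x i : K)) ≤ n * |C₁| * (1 + Real.log H) := by
      rw [mul_assoc]
      refine mul_le_mul_of_nonneg_left (hh.trans ?_) (Nat.cast_nonneg _)
      exact mul_le_mul_of_nonneg_right (le_abs_self _) (by linarith)
    have h3 : (n : ℝ) * Height.logHeight (fun i => (x i : K)) =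
        n * (∑ v : InfinitePlace K, (v.mult : ℝ) * Real.log (⨆ i, v (algebraMap (𝓞 K) K (x i)))) -
          n * Real.log (Ideal.absNorm J) := by
      rw [hLH]
      ring
    rw [hC₃]
    linarith
  have hfin : (s.card : ℝ) ≤ C₃ * (1 + 1 / Real.log 2) := by
    have h1 : (s.card : ℝ) * Real.log H ≤ C₃ * (1 + Real.log H) := hcard'.trans hmain
    have h2 : (s.card : ℝ) ≤ C₃ * (1 + Real.log H) / Real.log H := by
      rw [le_div_iff₀ hlogH0]
      exact h1
    refine h2.trans ?_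
    rw [mul_div_assoc]
    refine mul_le_mul_of_nonneg_left ?_ hC₃0
    rw [add_div, div_self hlogH0.ne', add_comm]
    have := one_div_le_one_div_of_le hlog2 hlogH
    linarith
  exact_mod_cast hfin.trans (Nat.le_ceil _)

end UVC
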