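import Pool.Agent.Lib.MP_17a322_ntU2.Defs0

/-!
uv2 general form, leaf G4a: a vector that is not divisible by a large prime ideal.
-/

universe u

namespace UVC

open NumberField UVB

/-- UVB.G4a (file MP_17a322_ntU2/G4a.lean, done by helper53) for a vector.  PROOF.  Not all `y k` are in `𝔭 J`: otherwise `μ J ≤ span (range y) ≤ 𝔭 J`, so
`𝔭 ∣ (μ)` (cancel `J ≠ ⊥`), `N 𝔭 ≤ N (μ) ≤ H`, a contradiction.  Let `y k₁ ∉ 𝔭 J`, `(y k₁) = 𝔟 J` with `𝔭 ∤ 𝔟`; `k₀` and `m` as there: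
`(m ω_k₀) 𝔟` is not divisible by `𝔭`. -/
theorem G4a {K : Type u} [Field K] [NumberField K] {p e : ℕ} (ω : Module.Basis (Fin e) ℤ (𝓞 K))
    (J : Ideal (𝓞 K)) (hJ : J ≠ ⊥) (μ : 𝓞 K) (hμ : μ ≠ 0) (y : Fin p → 𝓞 K)
    (hy : ∀ k, y k ∈ J) (hμy : ∀ t ∈ J, μ * t ∈ Ideal.span (Set.range y)) (H : ℕ)
    (hμH : Ideal.absNorm (Ideal.span {μ}) ≤ H) (𝔭 : Ideal (𝓞 K)) (h𝔭 : 𝔭.IsPrime)
    (hH : H < Ideal.absNorm 𝔭) : ∃ (k₁ : Fin p) (k₀ : Fin e), ∀ m : ℤ, m ≠ 0 →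
      |m| ^ Module.finrank ℚ K ≤ (H : ℤ) → (m : 𝓞 K) * ω k₀ * y k₁ ∉ 𝔭 * J := by
  have hJ0 : J ≠ 0 := hJ
  have hp0 : 𝔭 ≠ ⊥ := by
    intro h0
    rw [h0, Ideal.absNorm_bot] at hH
    exact Nat.not_lt_zero _ hH
  have hpr : Prime 𝔭 := Ideal.prime_of_isPrime hp0 h𝔭
  obtain ⟨k₁, hk₁⟩ : ∃ k₁, y k₁ ∉ 𝔭 * J := by
    by_contra hne
    push Not at hne
    have h1 : Ideal.span {μ} * J ≤ 𝔭 * J := by
      rw [Ideal.mul_le]
      intro r hr s hs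
      obtain ⟨a, rfl⟩ := Ideal.mem_span_singleton'.1 hr
      have h2 : Ideal.span (Set.range y) ≤ 𝔭 * J := by
        rw [Ideal.span_le]
        rintro _ ⟨i, rfl⟩
        exact hne i
      rw [mul_assoc]
      exact Ideal.mul_mem_left _ _ (h2 (hμy s hs))
    have h3 : 𝔭 ∣ Ideal.span {μ} := (mul_dvd_mul_iff_right hJ0).1 (Ideal.dvd_iff_le.2 h1)
    have h4 : Ideal.absNorm 𝔭 ∣ Ideal.absNorm (Ideal.span {μ}) :=
      Ideal.absNorm_dvd_absNorm_of_le (Ideal.dvd_iff_le.1 h3)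
    have h5 : 0 < Ideal.absNorm (Ideal.span {μ}) := by
      refine Nat.pos_of_ne_zero fun h0 => hμ ?_
      rw [Ideal.absNorm_eq_zero_iff, Ideal.span_singleton_eq_bot] at h0
      exact h0
    have h6 := Nat.le_of_dvd h5 h4
    omega
  obtain ⟨k₀, hk₀⟩ : ∃ k₀, ω k₀ ∉ 𝔭 := by
    by_contra hne
    push Not at hne
    apply h𝔭.ne_top
    rw [Ideal.eq_top_iff_one, ← ω.sum_repr 1]
    refine Ideal.sum_mem _ fun k _ => ?_
    rw [zsmul_eq_mul]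
    exact Ideal.mul_mem_left _ _ (hne k)
  refine ⟨k₁, k₀, fun m hm hmH hmem => ?_⟩
  have hm𝔭 : (m : 𝓞 K) ∉ 𝔭 := by
    intro h0
    have h1 : Ideal.absNorm 𝔭 ∣ Ideal.absNorm (Ideal.span {(m : 𝓞 K)}) :=
      Ideal.absNorm_dvd_absNorm_of_le ((Ideal.span_singleton_le_iff_mem _).2 h0)
    rw [Ideal.absNorm_span_singleton] at h1
    have h2 : Algebra.norm ℤ (m : 𝓞 K) = m ^ Module.finrank ℚ K := by
      have h3 := Algebra.norm_algebraMap (S := 𝓞 K) m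
      rw [RingOfIntegers.rank] at h3
      exact h3
    rw [h2, Int.natAbs_pow] at h1
    have h4 : 0 < m.natAbs ^ Module.finrank ℚ K := Nat.pow_pos (Int.natAbs_pos.2 hm)
    have h5 := Nat.le_of_dvd h4 h1
    have h6 : ((m.natAbs ^ Module.finrank ℚ K : ℕ) : ℤ) ≤ (H : ℤ) := by
      rw [Nat.cast_pow, Int.natCast_natAbs]
      exact hmH
    have h7 : m.natAbs ^ Module.finrank ℚ K ≤ H := by exact_mod_cast h6
    omega
  obtain ⟨𝔟, h𝔟⟩ : J ∣ Ideal.span {y k₁} :=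
    Ideal.dvd_iff_le.2 ((Ideal.span_singleton_le_iff_mem _).2 (hy k₁))
  have hb : ¬ 𝔭 ∣ 𝔟 := by
    intro h0
    apply hk₁
    have h1 : Ideal.span {y k₁} ≤ 𝔭 * J := by
      rw [← Ideal.dvd_iff_le, h𝔟, mul_comm J 𝔟]
      exact mul_dvd_mul_right h0 J
    exact h1 (Ideal.mem_span_singleton_self _)
  have h1 : 𝔭 * J ∣ Ideal.span {(m : 𝓞 K) * ω k₀} * 𝔟 * J := by
    have h2 : Ideal.span {(m : 𝓞 K) * ω k₀} * 𝔟 * J =
        Ideal.span {(m : 𝓞 K) * ω k₀ * y k₁} := by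
      rw [← Ideal.span_singleton_mul_span_singleton ((m : 𝓞 K) * ω k₀) (y k₁), h𝔟, mul_assoc,
        mul_comm 𝔟]
    rw [h2, Ideal.dvd_iff_le, Ideal.span_singleton_le_iff_mem]
    exact hmem
  have h2 : 𝔭 ∣ Ideal.span {(m : 𝓞 K) * ω k₀} * 𝔟 := (mul_dvd_mul_iff_right hJ0).1 h1
  rcases hpr.dvd_or_dvd h2 with h3 | h3
  · rw [Ideal.dvd_iff_le, Ideal.span_singleton_le_iff_mem] at h3
    rcases h𝔭.mem_or_mem h3 with h4 | h4
    · exact hm𝔭 h4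
    · exact hk₀ h4
  · exact hb h3

end UVC
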