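import Pool.Agent.Lib.MP_17a322_ntU2.T0
import Pool.Agent.Lib.MP_17a322_ntU2.T1
import Pool.Agent.Lib.MP_17a322_ntU3.G3
import Pool.Agent.Lib.MP_17a322_ntU3.G4a

/-!
uv2 general form, leaf G4: common prime divisors of large norm.
-/

universe u

namespace UVC

open NumberField UVB

/-- The value of the second sum for one coefficient. -/
private theorem G4_single {K : Type u} [Field K] [NumberField K] {p e : ℕ}
    (ω : Module.Basis (Fin e) ℤ (𝓞 K)) {ι : Type} [DecidableEq ι] (em₂ : Fin p → ι)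
    (h₂ : Function.Injective em₂) (k₁ : Fin p) (k₀ : Fin e) (m : ℤ) (y : Fin p → 𝓞 K) :
    ∑ k, co ω (Pi.single (em₂ k₁, k₀) m) (em₂ k) * y k = (m : 𝓞 K) * ω k₀ * y k₁ := by
  unfold co
  rw [Finset.sum_eq_single k₁]
  · rw [Finset.sum_eq_single k₀]
    · rw [Pi.single_eq_same, zsmul_eq_mul]
    · intro k _ hk
      rw [Pi.single_eq_of_ne, zero_smul]
      intro h
      exact hk (Prod.ext_iff.1 h).2
    · intro h
      exact absurd (Finset.mem_univ _) h
  · intro k _ hk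
    have h0 : ∀ l, (Pi.single (em₂ k₁, k₀) m : ι × Fin e → ℤ) (em₂ k, l) = 0 := by
      intro l
      apply Pi.single_eq_of_ne
      intro h
      exact hk (h₂ (Prod.ext_iff.1 h).1)
    simp [h0]
  · intro h
    exact absurd (Finset.mem_univ _) h

/-- The sums are additive. -/
private theorem G4_sub {K : Type u} [Field K] [NumberField K] {p e : ℕ}
    (ω : Module.Basis (Fin e) ℤ (𝓞 K)) {ι : Type} (em : Fin p → ι)
    (a b : ι × Fin e → ℤ) (y : Fin p → 𝓞 K) :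
    ∑ k, co ω (a - b) (em k) * y k =
      ∑ k, co ω a (em k) * y k - ∑ k, co ω b (em k) * y k := by
  unfold co
  rw [← Finset.sum_sub_distrib]
  refine Finset.sum_congr rfl fun k _ => ?_
  rw [← sub_mul, ← Finset.sum_sub_distrib]
  congr 1
  refine Finset.sum_congr rfl fun l _ => ?_
  rw [Pi.sub_apply, sub_smul]

/-- The property for one pair of indices. -/
private def G4_P {K : Type u} [Field K] [NumberField K] {p e : ℕ} (ω : Module.Basis (Fin e) ℤ (𝓞 K))
    {ι : Type} (em₁ em₂ : Fin p → ι) (g g' : 𝓞 K) (y y' : Fin p → 𝓞 K) (J : Ideal (𝓞 K)) (H : ℕ)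
    (ik : Fin p × Fin e) (a : ι × Fin e → ℤ) : Prop :=
  g + ∑ k, co ω a (em₁ k) * y k ≠ 0 ∧
    ∃ 𝔭 : Ideal (𝓞 K), (𝔭.IsPrime ∧ H < Ideal.absNorm 𝔭 ∧
      g + ∑ k, co ω a (em₁ k) * y k ∈ 𝔭 * J) ∧
        g' + ∑ k, co ω a (em₂ k) * y' k ∈ 𝔭 * J ∧
          ∀ m : ℤ, m ≠ 0 → |m| ^ Module.finrank ℚ K ≤ (H : ℤ) →
            (m : 𝓞 K) * ω ik.2 * y' ik.1 ∉ 𝔭 * J

/-- The bound for one pair of indices. -/
private theorem G4_one {K : Type u} [Field K] [NumberField K] {p e : ℕ}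
    (ω : Module.Basis (Fin e) ℤ (𝓞 K))
    {ι : Type} [Fintype ι] (em₁ em₂ : Fin p → ι)
    (h₂ : Function.Injective em₂) (h₁₂ : ∀ μ ν, em₁ μ ≠ em₂ ν)
    (g g' : 𝓞 K) (z z' : Fin p → 𝓞 K) (J : Ideal (𝓞 K)) (H : ℕ) (m : ℕ)
    (hm : ∀ b : Fin p × Fin e → ℤ, (∀ i, |b i| ≤ 2 * (H : ℤ)) → g + ∑ k, co ω b k * z k ≠ 0 →
          ∀ s : Finset (Ideal (𝓞 K)), (∀ 𝔭 ∈ s, 𝔭.IsPrime ∧ H < Ideal.absNorm 𝔭 ∧
            g + ∑ k, co ω b k * z k ∈ 𝔭 * J) → s.card ≤ m)
    (q : ℕ) (hq : ∀ j : ℕ, j < q → j ^ Module.finrank ℚ K ≤ H) (ik : Fin p × Fin e) :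
    q * cnt H (G4_P ω em₁ em₂ g g' z z' J H ik) ≤ m * (3 * H + 1) ^ (Fintype.card ι * e) := by
  classical
  have hd : Module.finrank ℚ K ≠ 0 := Module.finrank_pos.ne'
  let P₀ : (ι × Fin e → ℤ) → Prop :=
    fun a => G4_P ω em₁ em₂ g g' z z' J H ik a ∧ ∀ i, |a i| ≤ (H : ℤ)
  let r : ℕ → (ι × Fin e → ℤ) := fun j => Pi.single (em₂ ik.1, ik.2) (j : ℤ)
  have hr : Function.Injective r := by
    intro j j' h
    have h1 := congrFun h (em₂ ik.1, ik.2)
    simp only [r, Pi.single_eq_same] at h1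
    exact_mod_cast h1
  let R : Finset (ι × Fin e → ℤ) := (Finset.range q).image r
  have hR : R.card = q := by
    rw [Finset.card_image_of_injective _ hr, Finset.card_range]
  have hc : cnt H (G4_P ω em₁ em₂ g g' z z' J H ik) ≤ cnt H P₀ :=
    cnt_mono' H fun a ha hp => ⟨hp, ha⟩
  have key := T1 H P₀ R ?_ m ?_
  · rw [hR, Fintype.card_prod, Fintype.card_fin] at key
    exact (Nat.mul_le_mul_left _ hc).trans key
  · intro s hs i
    obtain ⟨j, hj, rfl⟩ := Finset.mem_image.1 hs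
    have hj1 : j ≤ H := (Nat.le_self_pow hd j).trans (hq j (Finset.mem_range.1 hj))
    by_cases h : i = (em₂ ik.1, ik.2)
    · subst h
      simp only [r, Pi.single_eq_same]
      exact ⟨by positivity, by exact_mod_cast hj1⟩
    · simp only [r, Pi.single_eq_of_ne h]
      exact ⟨le_refl _, by positivity⟩
  · intro y
    let S : Finset (ι × Fin e → ℤ) := R.filter fun s => P₀ (y - s)
    have hS : Nat.card {s : ι × Fin e → ℤ // s ∈ R ∧ P₀ (y - s)} = S.card :=
      Nat.subtype_card S fun s => Finset.mem_filter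
    rw [hS]
    rcases S.eq_empty_or_nonempty with h0 | ⟨s₀, hs₀⟩
    · rw [h0]; simp
    have hsame : ∀ s ∈ R, ∀ μ k, (y - s) (em₁ μ, k) = y (em₁ μ, k) := by
      intro s hs μ k
      obtain ⟨j, hj, rfl⟩ := Finset.mem_image.1 hs
      simp only [r, Pi.sub_apply]
      rw [Pi.single_eq_of_ne, sub_zero]
      intro h
      exact h₁₂ _ _ (Prod.ext_iff.1 h).1
    let b : Fin p × Fin e → ℤ := fun i => y (em₁ i.1, i.2)
    have hfv : ∀ s ∈ R, g + ∑ k, co ω (y - s) (em₁ k) * z k = g + ∑ k, co ω b k * z k := by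
      intro s hs
      congr 1
      refine Finset.sum_congr rfl fun μ _ => ?_
      congr 1
      unfold co
      refine Finset.sum_congr rfl fun k _ => ?_
      rw [hsame s hs μ k]
    have hb : ∀ i, |b i| ≤ 2 * (H : ℤ) := by
      intro i
      have h1 := (Finset.mem_filter.1 hs₀).2.2 (em₁ i.1, i.2)
      rw [hsame s₀ (Finset.mem_filter.1 hs₀).1] at h1
      have h2 : (0 : ℤ) ≤ H := by positivity
      have h3 : |b i| ≤ (H : ℤ) := h1
      linarith
    have hb0 : g + ∑ k, co ω b k * z k ≠ 0 := by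
      rw [← hfv s₀ (Finset.mem_filter.1 hs₀).1]
      exact (Finset.mem_filter.1 hs₀).2.1.1
    have hex : ∀ s : ι × Fin e → ℤ, ∃ 𝔭 : Ideal (𝓞 K), s ∈ S → (𝔭.IsPrime ∧ H < Ideal.absNorm 𝔭 ∧
      g + ∑ k, co ω b k * z k ∈ 𝔭 * J) ∧
        g' + ∑ k, co ω (y - s) (em₂ k) * z' k ∈ 𝔭 * J ∧
          ∀ m : ℤ, m ≠ 0 → |m| ^ Module.finrank ℚ K ≤ (H : ℤ) →
            (m : 𝓞 K) * ω ik.2 * z' ik.1 ∉ 𝔭 * J := by
      intro s
      by_cases hs : s ∈ S
      · obtain ⟨𝔭, h1, h2⟩ := (Finset.mem_filter.1 hs).2.1.2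
        rw [hfv s (Finset.mem_filter.1 hs).1] at h1
        exact ⟨𝔭, fun _ => ⟨h1, h2⟩⟩
      · exact ⟨⊥, fun h => absurd h hs⟩
    choose P hP using hex
    have hinj : Set.InjOn P (S : Set (ι × Fin e → ℤ)) := by
      intro s hs s' hs' hss
      have hs1 : s ∈ S := hs
      have hs1' : s' ∈ S := hs'
      obtain ⟨j, hj, hjs⟩ := Finset.mem_image.1 (Finset.mem_filter.1 hs1).1
      obtain ⟨j', hj', hjs'⟩ := Finset.mem_image.1 (Finset.mem_filter.1 hs1').1
      by_contra hne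
      have hjj : j ≠ j' := by
        rintro rfl
        exact hne (hjs.symm.trans hjs')
      have e1 := (hP s hs1).2.1
      have e2 := (hP s' hs1').2.1
      rw [← hss] at e2
      have e3 := Ideal.sub_mem _ e1 e2
      rw [add_sub_add_left_eq_sub, ← G4_sub] at e3
      have e4 : (y - s) - (y - s') = Pi.single (em₂ ik.1, ik.2) ((j' : ℤ) - (j : ℤ)) := by
        rw [← hjs, ← hjs']
        simp only [r]
        rw [Pi.single_sub]
        abel
      rw [e4, G4_single ω em₂ h₂] at e3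
      refine (hP s hs1).2.2 ((j' : ℤ) - (j : ℤ)) ?_ ?_ e3
      · intro h
        apply hjj
        omega
      · have hmax : |(j' : ℤ) - (j : ℤ)| ≤ ((max j j' : ℕ) : ℤ) := by
          rw [abs_le]
          have h1 := le_max_left j j'
          have h2 := le_max_right j j'
          constructor <;> push_cast <;> omega
        have h3 : max j j' < q := max_lt (Finset.mem_range.1 hj) (Finset.mem_range.1 hj')
        have h4 := hq _ h3
        calc |(j' : ℤ) - (j : ℤ)| ^ Module.finrank ℚ K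
            ≤ ((max j j' : ℕ) : ℤ) ^ Module.finrank ℚ K := pow_le_pow_left₀ (abs_nonneg _) hmax _
          _ ≤ (H : ℤ) := by exact_mod_cast h4
    have hfin := hm b hb hb0 (S.image P) ?_
    · rw [Finset.card_image_of_injOn hinj] at hfin
      exact hfin
    · intro 𝔭 h𝔭
      obtain ⟨s, hs, rfl⟩ := Finset.mem_image.1 h𝔭
      exact (hP s hs).1

/-- COMMON PRIME DIVISORS OF LARGE NORM.  UVB.G4 (file MP_17a322_ntU2/G4.lean, done by helper61) for the values
`G (x) + ∑ k, c_k E_k (x)`, `G' (x) + ∑ k, c'_k E'_k (x)`: same proof with G3 for the first and G4a for the second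
(`y k = E'_k (x)`, `J = span (range x) ^ n`, `y k ∈ J` by H1); `μ J ≤ span (E'_k (x))` is the hypothesis `hx`; for `H < N (μ)` or `H = 1` use the trivial bound
`cnt_le` (`H ^ (-1 / [K : ℚ]) ≥ N (μ) ^ (-1 / [K : ℚ])`). -/
theorem G4 {K : Type u} [Field K] [NumberField K] {N n p e : ℕ} (ω : Module.Basis (Fin e) ℤ (𝓞 K))
    {ι : Type} [Fintype ι] (em₁ em₂ : Fin p → ι)
    (h₁ : Function.Injective em₁) (h₂ : Function.Injective em₂) (h₁₂ : ∀ k l, em₁ k ≠ em₂ l)
    (G G' : MvPolynomial (Fin (N + 1)) (𝓞 K)) (E E' : Fin p → MvPolynomial (Fin (N + 1)) (𝓞 K))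
    (hG : G.IsHomogeneous n) (hE : ∀ k, (E k).IsHomogeneous n)
    (hE' : ∀ k, (E' k).IsHomogeneous n) (μ : 𝓞 K) (hμ : μ ≠ 0)
    (C₁ : ℝ) : ∃ C : ℝ, 0 ≤ C ∧ ∀ x : Fin (N + 1) → 𝓞 K, x ≠ 0 →
      (∀ t ∈ Ideal.span (Set.range x) ^ n,
        μ * t ∈ Ideal.span (Set.range fun k => MvPolynomial.aeval x (E' k))) → ∀ H : ℕ, 1 ≤ H →
      Height.logHeight (fun i => (x i : K)) ≤ C₁ * (1 + Real.log H) →
        (cnt H (fun a : ι × Fin e → ℤ =>
          MvPolynomial.aeval x G + ∑ k, co ω a (em₁ k) * MvPolynomial.aeval x (E k) ≠ 0 ∧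
          ∃ 𝔭 : Ideal (𝓞 K), 𝔭.IsPrime ∧ H < Ideal.absNorm 𝔭 ∧
            MvPolynomial.aeval x G + ∑ k, co ω a (em₁ k) * MvPolynomial.aeval x (E k) ∈
              𝔭 * Ideal.span (Set.range x) ^ n ∧
            MvPolynomial.aeval x G' + ∑ k, co ω a (em₂ k) * MvPolynomial.aeval x (E' k) ∈
              𝔭 * Ideal.span (Set.range x) ^ n) : ℝ) ≤
                C * (H : ℝ) ^ (-(1 / (Module.finrank ℚ K : ℝ))) *
                  (H : ℝ) ^ (Fintype.card ι * e) := by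
  classical
  have hd : Module.finrank ℚ K ≠ 0 := Module.finrank_pos.ne'
  obtain ⟨m, hm⟩ := G3 ω G E hG hE C₁
  have hN1 : 1 ≤ Ideal.absNorm (Ideal.span {μ}) := by
    rw [Nat.one_le_iff_ne_zero, Ne, Ideal.absNorm_eq_zero_iff, Ideal.span_singleton_eq_bot]
    exact hμ
  obtain ⟨M, hM⟩ : ∃ M : ℕ, M = Ideal.absNorm (Ideal.span {μ}) := ⟨_, rfl⟩
  rw [← hM] at hN1
  have hM0 : (0 : ℝ) < M := by exact_mod_cast hN1
  have hMp : 0 < (M : ℝ) ^ (1 / (Module.finrank ℚ K : ℝ)) := Real.rpow_pos_of_pos hM0 _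
  refine ⟨3 ^ (Fintype.card ι * e) * (M : ℝ) ^ (1 / (Module.finrank ℚ K : ℝ)) +
    (p * e : ℕ) * (m * 4 ^ (Fintype.card ι * e)), by positivity, ?_⟩
  intro x hx hμx H hH hlog
  have hHpos : (0 : ℝ) < H := by exact_mod_cast (by omega : 0 < H)
  let t : ℝ := (H : ℝ) ^ (1 / (Module.finrank ℚ K : ℝ))
  have ht : 0 < t := Real.rpow_pos_of_pos hHpos _
  rcases Nat.lt_or_ge H (max 2 M) with h2 | h2
  · have h3 := cnt_le (ι := ι × Fin e) H hH (fun a : ι × Fin e → ℤ =>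
      MvPolynomial.aeval x G + ∑ k, co ω a (em₁ k) * MvPolynomial.aeval x (E k) ≠ 0 ∧
          ∃ 𝔭 : Ideal (𝓞 K), 𝔭.IsPrime ∧ H < Ideal.absNorm 𝔭 ∧
            MvPolynomial.aeval x G + ∑ k, co ω a (em₁ k) * MvPolynomial.aeval x (E k) ∈
              𝔭 * Ideal.span (Set.range x) ^ n ∧
            MvPolynomial.aeval x G' + ∑ k, co ω a (em₂ k) * MvPolynomial.aeval x (E' k) ∈
              𝔭 * Ideal.span (Set.range x) ^ n)
    rw [Fintype.card_prod, Fintype.card_fin] at h3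
    have h4 := (Nat.cast_le (α := ℝ)).2 h3
    refine h4.trans ?_
    have hHM : H ≤ M := by
      rcases Nat.lt_or_ge H 2 with h5 | h5
      · omega
      · have : max 2 M = M ∨ max 2 M = 2 := by
          rcases le_total 2 M with h6 | h6
          · exact Or.inl (max_eq_right h6)
          · exact Or.inr (max_eq_left h6)
        omega
    have h5 : t ≤ (M : ℝ) ^ (1 / (Module.finrank ℚ K : ℝ)) :=
      Real.rpow_le_rpow hHpos.le (by exact_mod_cast hHM) (by positivity)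
    have h6 : 1 ≤ (M : ℝ) ^ (1 / (Module.finrank ℚ K : ℝ)) *
        (H : ℝ) ^ (-(1 / (Module.finrank ℚ K : ℝ))) := by
      rw [Real.rpow_neg hHpos.le]
      change 1 ≤ _ * t⁻¹
      rw [← div_eq_mul_inv, one_le_div ht]
      exact h5
    have h7 : (0 : ℝ) ≤ (p * e : ℕ) * (m * 4 ^ (Fintype.card ι * e)) *
        (H : ℝ) ^ (-(1 / (Module.finrank ℚ K : ℝ))) * (H : ℝ) ^ (Fintype.card ι * e) := by
      positivity
    have h8 : (0 : ℝ) ≤ 3 ^ (Fintype.card ι * e) * (H : ℝ) ^ (Fintype.card ι * e) := by positivity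
    have h9 := mul_le_mul_of_nonneg_left h6 h8
    push_cast at h7 ⊢
    linarith
  -- the main case
  have hH2 : 2 ≤ H := (le_max_left 2 M).trans h2
  have hHM : M ≤ H := (le_max_right 2 M).trans h2
  have htd : t ^ Module.finrank ℚ K = H := by
    rw [← Real.rpow_natCast, ← Real.rpow_mul hHpos.le, one_div, inv_mul_cancel₀ (by exact_mod_cast hd),
      Real.rpow_one]
  let q : ℕ := ⌊t⌋₊ + 1
  have hqt : t ≤ q := by
    have := (Nat.lt_floor_add_one t).le
    simpa [q] using this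
  have hq : ∀ j : ℕ, j < q → j ^ Module.finrank ℚ K ≤ H := by
    intro j hj
    have hj1 : j ≤ ⌊t⌋₊ := Nat.lt_succ_iff.1 hj
    have hj2 : (j : ℝ) ≤ t := (Nat.cast_le.2 hj1).trans (Nat.floor_le ht.le)
    have hj3 : (j : ℝ) ^ Module.finrank ℚ K ≤ H := by
      rw [← htd]
      exact pow_le_pow_left₀ (Nat.cast_nonneg _) hj2 _
    exact_mod_cast hj3
  have hJ : Ideal.span (Set.range x) ^ n ≠ ⊥ := by
    refine pow_ne_zero n ?_
    intro h
    apply hx
    funext i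
    exact Ideal.span_eq_bot.1 h (x i) ⟨i, rfl⟩
  have hone : ∀ ik : Fin p × Fin e, (cnt H (G4_P ω em₁ em₂ (MvPolynomial.aeval x G)
      (MvPolynomial.aeval x G') (fun k => MvPolynomial.aeval x (E k))
      (fun k => MvPolynomial.aeval x (E' k)) (Ideal.span (Set.range x) ^ n) H ik) : ℝ) ≤
      (m * 4 ^ (Fintype.card ι * e)) * ((H : ℝ) ^ (-(1 / (Module.finrank ℚ K : ℝ))) *
                  (H : ℝ) ^ (Fintype.card ι * e)) := by
    intro ik
    have h3 := G4_one ω em₁ em₂ h₂ h₁₂ (MvPolynomial.aeval x G)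
      (MvPolynomial.aeval x G') (fun k => MvPolynomial.aeval x (E k))
      (fun k => MvPolynomial.aeval x (E' k)) (Ideal.span (Set.range x) ^ n) H m
      (fun b hb hb0 s hs => hm x hx H hH2 hlog b hb hb0 s hs) q hq ik
    have h4 := (Nat.cast_le (α := ℝ)).2 h3
    push_cast at h4
    have h5 : (3 * (H : ℝ) + 1) ^ (Fintype.card ι * e) ≤ 4 ^ (Fintype.card ι * e) * (H : ℝ) ^ (Fintype.card ι * e) := by
      rw [← mul_pow]
      refine pow_le_pow_left₀ (by positivity) ?_ _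
      have : (1 : ℝ) ≤ H := by exact_mod_cast hH
      linarith
    have h4' : (q : ℝ) * (cnt H (G4_P ω em₁ em₂ (MvPolynomial.aeval x G)
      (MvPolynomial.aeval x G') (fun k => MvPolynomial.aeval x (E k))
      (fun k => MvPolynomial.aeval x (E' k)) (Ideal.span (Set.range x) ^ n) H ik) : ℝ) ≤
        m * (3 * H + 1) ^ (Fintype.card ι * e) := by
      exact_mod_cast h3
    have h6 : t * (cnt H (G4_P ω em₁ em₂ (MvPolynomial.aeval x G)
      (MvPolynomial.aeval x G') (fun k => MvPolynomial.aeval x (E k))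
      (fun k => MvPolynomial.aeval x (E' k)) (Ideal.span (Set.range x) ^ n) H ik) : ℝ) ≤
        m * (4 ^ (Fintype.card ι * e) * (H : ℝ) ^ (Fintype.card ι * e)) :=
      (mul_le_mul_of_nonneg_right hqt (Nat.cast_nonneg _)).trans
        (h4'.trans (mul_le_mul_of_nonneg_left h5 (Nat.cast_nonneg _)))
    rw [Real.rpow_neg hHpos.le]
    change _ ≤ (m * 4 ^ (Fintype.card ι * e)) * (t⁻¹ * (H : ℝ) ^ (Fintype.card ι * e))
    rw [← mul_le_mul_iff_right₀ ht]
    refine h6.trans (le_of_eq ?_)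
    field_simp
  have hun : cnt H (fun a : ι × Fin e → ℤ =>
      MvPolynomial.aeval x G + ∑ k, co ω a (em₁ k) * MvPolynomial.aeval x (E k) ≠ 0 ∧
          ∃ 𝔭 : Ideal (𝓞 K), 𝔭.IsPrime ∧ H < Ideal.absNorm 𝔭 ∧
            MvPolynomial.aeval x G + ∑ k, co ω a (em₁ k) * MvPolynomial.aeval x (E k) ∈
              𝔭 * Ideal.span (Set.range x) ^ n ∧
            MvPolynomial.aeval x G' + ∑ k, co ω a (em₂ k) * MvPolynomial.aeval x (E' k) ∈
              𝔭 * Ideal.span (Set.range x) ^ n) ≤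
      ∑ ik ∈ (Finset.univ : Finset (Fin p × Fin e)), cnt H (G4_P ω em₁ em₂ (MvPolynomial.aeval x G)
        (MvPolynomial.aeval x G') (fun k => MvPolynomial.aeval x (E k))
        (fun k => MvPolynomial.aeval x (E' k)) (Ideal.span (Set.range x) ^ n) H ik) := by
    refine le_trans (cnt_mono H ?_) (cnt_exists H Finset.univ (G4_P ω em₁ em₂ (MvPolynomial.aeval x G)
        (MvPolynomial.aeval x G') (fun k => MvPolynomial.aeval x (E k))
        (fun k => MvPolynomial.aeval x (E' k)) (Ideal.span (Set.range x) ^ n) H))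
    rintro a ⟨ha, 𝔭, h𝔭, hN, m1, m2⟩
    obtain ⟨k₁, k₀, hik⟩ := G4a ω (Ideal.span (Set.range x) ^ n) hJ μ hμ
      (fun k => MvPolynomial.aeval x (E' k)) (fun k => H1 (E' k) (hE' k) x) hμx H
      (by rw [← hM]; exact hHM) 𝔭 h𝔭 hN
    exact ⟨(k₁, k₀), Finset.mem_univ _, ha, 𝔭, ⟨h𝔭, hN, m1⟩, m2, hik⟩
  have hsum : ((∑ ik ∈ (Finset.univ : Finset (Fin p × Fin e)), cnt H (G4_P ω em₁ em₂ (MvPolynomial.aeval x G)
        (MvPolynomial.aeval x G') (fun k => MvPolynomial.aeval x (E k))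
        (fun k => MvPolynomial.aeval x (E' k)) (Ideal.span (Set.range x) ^ n) H ik) : ℕ) : ℝ) ≤
      (p * e : ℕ) * ((m * 4 ^ (Fintype.card ι * e)) * ((H : ℝ) ^ (-(1 / (Module.finrank ℚ K : ℝ))) *
                  (H : ℝ) ^ (Fintype.card ι * e))) := by
    rw [Nat.cast_sum]
    refine (Finset.sum_le_card_nsmul _ _ _ fun ik _ => hone ik).trans (le_of_eq ?_)
    rw [Finset.card_univ, Fintype.card_prod, Fintype.card_fin, Fintype.card_fin, nsmul_eq_mul]
  have hun' := (Nat.cast_le (α := ℝ)).2 hun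
  refine (hun'.trans hsum).trans ?_
  have h7 : (0 : ℝ) ≤ 3 ^ (Fintype.card ι * e) * (M : ℝ) ^ (1 / (Module.finrank ℚ K : ℝ)) *
      ((H : ℝ) ^ (-(1 / (Module.finrank ℚ K : ℝ))) * (H : ℝ) ^ (Fintype.card ι * e)) := by
    positivity
  linarith

end UVC
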