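import Pool.Agent.Lib.MP_17a322_ntU3.Defs
import Pool.Agent.Lib.MP_17a322_ntU2.G3a

/-!
uv2 general form, leaf G6a: scaling of the coordinates.
-/

universe u

namespace UVC

open NumberField UVB

private theorem G6a_fin {K : Type u} [Field K] [NumberField K] {ι : Type} [Finite ι] {y : ι → K} (hy : y ≠ 0) :
    (fun v : FinitePlace K => ⨆ i, v (y i)).HasFiniteMulSupport := by
  obtain ⟨i, hi⟩ : ∃ j, y j ≠ 0 := Function.ne_iff.mp hy
  have h1 : Nonempty {j // y j ≠ 0} := ⟨⟨i, hi⟩⟩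
  have h2 : Nonempty ι := ⟨i⟩
  have h3 : (fun v : FinitePlace K => ⨆ i, v (y i)) = fun v : FinitePlace K => ⨆ i : {j // y j ≠ 0}, v (y i) := by
    funext v
    refine le_antisymm (ciSup_le fun j => ?_) (ciSup_le fun j => Finite.le_ciSup_of_le j.1 le_rfl)
    rcases eq_or_ne (y j) 0 with h | h
    · rw [h, map_zero]
      exact Real.iSup_nonneg' ⟨⟨i, hi⟩, apply_nonneg _ _⟩
    · exact Finite.le_ciSup_of_le (⟨j, h⟩ : {j // y j ≠ 0}) le_rfl
  rw [h3]
  exact Function.HasFiniteMulSupport.iSup fun j => FinitePlace.hasFiniteMulSupport j.2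

private theorem G6a_pos {K : Type u} [Field K] [NumberField K] {ι : Type} [Finite ι] {y : ι → K} (hy : y ≠ 0) :
    0 < ∏ᶠ v : FinitePlace K, ⨆ i, v (y i) := by
  obtain ⟨i, hi⟩ : ∃ j, y j ≠ 0 := Function.ne_iff.mp hy
  refine finprod_induction (p := fun t : ℝ => 0 < t) one_pos (fun _ _ => mul_pos) fun v => ?_
  exact lt_of_lt_of_le (FinitePlace.pos_iff.mpr hi) (Finite.le_ciSup_of_le i le_rfl)

private theorem G6a_FP {K : Type u} [Field K] [NumberField K] {ι : Type} [Finite ι] {y : ι → K} (hy : y ≠ 0) {a : K}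
    (ha : a ≠ 0) : FP (fun i => a * y i) = Real.log (∏ᶠ v : FinitePlace K, v a) + FP y := by
  have h1 : ∀ v : FinitePlace K, ⨆ i, v (a * y i) = v a * ⨆ i, v (y i) := by
    intro v
    rw [Real.mul_iSup_of_nonneg (apply_nonneg _ _)]
    exact iSup_congr fun i => map_mul v a (y i)
  have h2 : 0 < ∏ᶠ v : FinitePlace K, v a := 
    finprod_induction (p := fun t : ℝ => 0 < t) one_pos (fun _ _ => mul_pos) fun v => FinitePlace.pos_iff.mpr ha
  rw [FP, FP, finprod_congr h1, finprod_mul_distrib (FinitePlace.hasFiniteMulSupport ha) (G6a_fin hy),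
    Real.log_mul h2.ne' (G6a_pos hy).ne']

private theorem G6a_pow {K : Type u} [Field K] [NumberField K] {a : K} (ha : a ≠ 0) (n : ℕ) :
    Real.log (∏ᶠ v : FinitePlace K, v (a ^ n)) = n * Real.log (∏ᶠ v : FinitePlace K, v a) := by
  have h1 : ∀ v : FinitePlace K, v (a ^ n) = v a ^ n := fun v => map_pow v a n
  rw [finprod_congr h1, ← finprod_pow (FinitePlace.hasFiniteMulSupport ha), Real.log_pow]

private theorem G6a_ev {K : Type u} [Field K] [NumberField K] {N n : ℕ} {f : MvPolynomial (Fin (N + 1)) (𝓞 K)}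
    (hf : f.IsHomogeneous n) {x : Fin (N + 1) → K} {a : K} {x' : Fin (N + 1) → 𝓞 K}
    (hx' : ∀ i, algebraMap (𝓞 K) K (x' i) = a * x i) :
    algebraMap (𝓞 K) K (MvPolynomial.aeval x' f) = a ^ n * ev f x := by
  rw [ev, MvPolynomial.aeval_def, MvPolynomial.aeval_def, MvPolynomial.eval₂_map, MvPolynomial.eval₂_comp_left,
    MvPolynomial.eval₂_eq', MvPolynomial.eval₂_eq', Finset.mul_sum]
  refine Finset.sum_congr rfl fun m hm => ?_
  have h1 : ∏ i, ((algebraMap (𝓞 K) K) ∘ x') i ^ (m i) = a ^ n * ∏ i, x i ^ (m i) := by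
    have h2 : a ^ n = ∏ i, a ^ (m i) := by
      rw [Finset.prod_pow_eq_pow_sum]
      have h3 : m.degree = n := by
        rw [Finsupp.degree_eq_weight_one]
        exact hf (MvPolynomial.mem_support_iff.mp hm)
      rw [← h3, Finsupp.degree_eq_sum]
    rw [h2, ← Finset.prod_mul_distrib]
    refine Finset.prod_congr rfl fun i _ => ?_
    rw [Function.comp_apply, hx' i, mul_pow]
  rw [h1]
  show algebraMap (𝓞 K) K (algebraMap (𝓞 K) (𝓞 K) (f.coeff m)) * _ =
    a ^ n * (algebraMap K K (algebraMap (𝓞 K) K (f.coeff m)) * _)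
  rw [Algebra.algebraMap_self_apply, Algebra.algebraMap_self_apply]
  ring

/-- Scaling.  UVB.G6a (file MP_17a322_ntU2/G6a.lean, done by helper96) for a family.  `x' = s x`, `s` a nonzero natural number; the value at `x'` of
`G_j + ∑ k, c_jk E_jk` is `s ^ d` times the value at `x` (the forms are homogeneous of degree `d`). -/
theorem G6a {K : Type u} [Field K] [NumberField K] {N r d D : ℕ} (Φ : Fam K N r d D)
    (x : Fin (N + 1) → K) (hx : x ≠ 0) :
    ∃ (s : K) (x' : Fin (N + 1) → 𝓞 K), s ≠ 0 ∧ (∀ i, algebraMap (𝓞 K) K (x' i) = s * x i) ∧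
      x' ≠ 0 ∧ Height.logHeight (fun i => (x' i : K)) = Height.logHeight x ∧
      ∀ (c : Φ.Ix → 𝓞 K) (y : Fin r → 𝓞 K),
        (∀ j, y j = MvPolynomial.aeval x' (Φ.G j) +
          ∑ k, c (Sum.inl (j, k)) * MvPolynomial.aeval x' (Φ.E j k)) →
        (∀ j, Φ.g (fun i => algebraMap (𝓞 K) K (c i)) x j = 0 ↔ y j = 0) ∧
        (y ≠ 0 → d * FP x - FP (Φ.g (fun i => algebraMap (𝓞 K) K (c i)) x) =
          d * FP (fun i => (x' i : K)) - FP (fun j => (y j : K))) := by
  obtain ⟨b, hb⟩ := IsLocalization.exist_integer_multiples_of_finite (nonZeroDivisors (𝓞 K)) x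
  choose x' hx'1 using hb
  have hb0 : ((b : 𝓞 K) : K) ≠ 0 := by
    intro h
    have h1 : (b : 𝓞 K) = 0 := by
      exact_mod_cast h
    exact nonZeroDivisors.coe_ne_zero b h1
  set a : K := ((b : 𝓞 K) : K) with ha
  have hx' : ∀ i, algebraMap (𝓞 K) K (x' i) = a * x i := by
    intro i
    have h := hx'1 i
    rw [Algebra.smul_def] at h
    exact h
  have hx'0 : x' ≠ 0 := by
    rintro rfl
    apply hx
    funext i
    have h := hx' i
    simp only [Pi.zero_apply, map_zero] at h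
    exact (mul_eq_zero.mp h.symm).resolve_left hb0
  have hfun : (fun i => (x' i : K)) = a • x := by
    funext i
    rw [Pi.smul_apply, smul_eq_mul]
    exact hx' i
  refine ⟨a, x', hb0, hx', hx'0, ?_, fun c y hy => ?_⟩
  · rw [hfun, Height.logHeight_smul_eq_logHeight _ hb0]
  have hv : ∀ j, (y j : K) = a ^ d * Φ.g (fun i => algebraMap (𝓞 K) K (c i)) x j := by
    intro j
    rw [hy j, Fam.g, RingOfIntegers.coe_eq_algebraMap, map_add, map_sum, mul_add, Finset.mul_sum,
      G6a_ev (Φ.hG j) hx']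
    congr 1
    refine Finset.sum_congr rfl fun k _ => ?_
    rw [map_mul, G6a_ev (Φ.hE j k) hx']
    ring
  refine ⟨fun j => ?_, fun hy0 => ?_⟩
  · have h1 := hv j
    constructor
    · intro h
      rw [h, mul_zero] at h1
      exact_mod_cast h1
    · intro h
      rw [h, RingOfIntegers.coe_eq_algebraMap, map_zero] at h1
      exact (mul_eq_zero.mp h1.symm).resolve_left (pow_ne_zero _ hb0)
  · have h0 : Φ.g (fun i => algebraMap (𝓞 K) K (c i)) x ≠ 0 := by
      intro h
      apply hy0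
      funext j
      have h1 := hv j
      rw [congrFun h j, Pi.zero_apply, mul_zero] at h1
      exact_mod_cast h1
    have h3 : (fun j => (y j : K)) = fun j => a ^ d * Φ.g (fun i => algebraMap (𝓞 K) K (c i)) x j :=
      funext hv
    have h4 : (fun i => (x' i : K)) = fun i => a * x i := funext hx'
    rw [h3, h4, G6a_FP h0 (pow_ne_zero _ hb0), G6a_FP hx hb0, G6a_pow hb0]
    ring

end UVC
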