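import Pool.Agent.Lib.MP_17a322_ntU3.G2
import Pool.Agent.Lib.MP_17a322_ntU3.G4
import Pool.Agent.Lib.MP_17a322_ntU3.G6a
import Pool.Agent.Lib.MP_17a322_ntU3.T2
import Pool.Agent.Lib.MP_17a322_ntU2.G5a
import Pool.Agent.Lib.MP_17a322_ntU2.G5b
import Pool.Agent.Lib.MP_17a322_ntU2.G3a

/-!
uv2 general form, leaf G6: the common divisor of the values of the random forms.
-/

universe u

namespace UVC

open NumberField UVB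

/-- the common divisor of the values and the finite parts of the heights -/
private theorem G6_div {K : Type u} [Field K] [NumberField K] {N n r : ℕ}
    (x : Fin (N + 1) → 𝓞 K) (hx : x ≠ 0) (y : Fin r → 𝓞 K)
    (hy : ∀ j, y j ∈ Ideal.span (Set.range x) ^ n) (j₀ : Fin r) (h0 : y j₀ ≠ 0) :
    ∃ 𝔟 : Ideal (𝓞 K), 𝔟 ≠ ⊥ ∧
      n * FP (fun i => (x i : K)) - FP (fun j => (y j : K)) = Real.log (Ideal.absNorm 𝔟) ∧
      ∀ 𝔞 : Ideal (𝓞 K), 𝔞 ∣ 𝔟 → ∀ j, y j ∈ 𝔞 * Ideal.span (Set.range x) ^ n := by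
  obtain ⟨J, hJ⟩ : ∃ J : Ideal (𝓞 K), J = Ideal.span (Set.range x) := ⟨_, rfl⟩
  have hJ0 : J ≠ ⊥ := by
    rw [hJ, Ne, Ideal.span_eq_bot]
    intro h
    exact hx (funext fun i => h (x i) ⟨i, rfl⟩)
  have hy0 : y ≠ 0 := fun h => h0 (congrFun h j₀)
  have hle : Ideal.span (Set.range y) ≤ J ^ n := by
    rw [Ideal.span_le]
    rintro _ ⟨j, rfl⟩
    rw [hJ]
    exact hy j
  obtain ⟨𝔟, h𝔟⟩ := Ideal.dvd_iff_le.2 hle
  have hsp0 : Ideal.span (Set.range y) ≠ ⊥ := by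
    rw [Ne, Ideal.span_eq_bot]
    intro h
    exact h0 (h _ ⟨j₀, rfl⟩)
  have h𝔟0 : 𝔟 ≠ ⊥ := by
    rintro rfl
    rw [Ideal.mul_bot] at h𝔟
    exact hsp0 h𝔟
  refine ⟨𝔟, h𝔟0, ?_, fun 𝔞 h𝔞 j => ?_⟩
  · rw [FP_eq x hx, FP_eq y hy0, ← hJ, h𝔟, map_mul, map_pow]
    have hn1 : (Ideal.absNorm J : ℝ) ≠ 0 := by
      rw [Nat.cast_ne_zero, Ne, Ideal.absNorm_eq_zero_iff]
      exact hJ0
    have hn2 : (Ideal.absNorm 𝔟 : ℝ) ≠ 0 := by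
      rw [Nat.cast_ne_zero, Ne, Ideal.absNorm_eq_zero_iff]
      exact h𝔟0
    rw [Nat.cast_mul, Nat.cast_pow, Real.log_mul (pow_ne_zero _ hn1) hn2, Real.log_pow]
    ring
  · have h1 : y j ∈ Ideal.span (Set.range y) := Ideal.subset_span ⟨j, rfl⟩
    rw [h𝔟, mul_comm] at h1
    rw [← hJ]
    exact Ideal.mul_mono_left (Ideal.dvd_iff_le.1 h𝔞) h1

/-- the values of the fixed forms are not all zero -/
private theorem G6_ne {K : Type u} [Field K] [NumberField K] {N n p : ℕ}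
    (E : Fin p → MvPolynomial (Fin (N + 1)) (𝓞 K)) (μ : 𝓞 K) (C' : ℝ) (x : Fin (N + 1) → K)
    (hx : x ≠ 0) (h : Nz E n μ C' x) : (fun k => ev (E k) x) ≠ 0 := by
  intro h0
  obtain ⟨v⟩ : Nonempty (InfinitePlace K) := inferInstance
  have h1 := h.1 v
  have h2 : (fun k => v (ev (E k) x)) = fun _ : Fin p => (0 : ℝ) := by
    funext k
    have h3 : ev (E k) x = 0 := congrFun h0 k
    rw [h3, map_zero]
  rw [h2, Real.iSup_const_zero, mul_zero] at h1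
  obtain ⟨i, hi⟩ : ∃ i, x i ≠ 0 := by
    by_contra hcon
    push Not at hcon
    exact hx (funext hcon)
  have h4 : 0 < v (x i) := InfinitePlace.pos_iff.2 hi
  have h5 : v (x i) ≤ ⨆ i, v (x i) := le_ciSup (f := fun i => v (x i)) (Set.finite_range _).bddAbove i
  have h6 : 0 < (⨆ i, v (x i)) ^ n := pow_pos (h4.trans_le h5) n
  linarith

/-- the number of the bad vectors, with a parameter `G` -/
private theorem G6_main {K : Type u} [Field K] [NumberField K] {N r d D e : ℕ} (hr : 2 ≤ r)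
    (Φ : Fam K N r d D) (ω : Module.Basis (Fin e) ℤ (𝓞 K)) (μ : 𝓞 K) (hμ : μ ≠ 0) (C' C₁ : ℝ) :
    ∃ C : ℝ, 0 ≤ C ∧ ∀ x : Fin (N + 1) → K, x ≠ 0 → (∀ j, Nz (Φ.E j) d μ C' x) →
      ∀ (H : ℕ) (u G : ℝ), 1 ≤ H → 1 < G → G ^ 2 ≤ H → G ≤ Real.exp u →
      Height.logHeight x ≤ C₁ * (1 + Real.log H) →
        (cnt H (fun a : Φ.Ix × Fin e → ℤ => ¬ ((∃ j, Φ.g (ck ω a) x j ≠ 0) ∧
          d * FP x - FP (Φ.g (ck ω a) x) ≤ u)) : ℝ) ≤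
            C * (1 / G + 1 / H + (H : ℝ) ^ (-(1 / (Module.finrank ℚ K : ℝ)))) *
              (H : ℝ) ^ (Fintype.card Φ.Ix * e) := by
  classical
  obtain ⟨j₀, hj₀⟩ : ∃ j₀ : Fin r, j₀ = ⟨0, by omega⟩ := ⟨_, rfl⟩
  obtain ⟨j₁, hj₁⟩ : ∃ j₁ : Fin r, j₁ = ⟨1, by omega⟩ := ⟨_, rfl⟩
  have hjj : j₀ ≠ j₁ := by
    rw [hj₀, hj₁]
    intro h
    rw [Fin.mk.injEq] at h
    omega
  have i₀ : Function.Injective fun k : Fin Φ.p => (Sum.inl (j₀, k) : Φ.Ix) := fun a b h => by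
    rw [Sum.inl.injEq, Prod.mk.injEq] at h
    exact h.2
  have i₁ : Function.Injective fun k : Fin Φ.p => (Sum.inl (j₁, k) : Φ.Ix) := fun a b h => by
    rw [Sum.inl.injEq, Prod.mk.injEq] at h
    exact h.2
  have i₀₁ : ∀ k l : Fin Φ.p, (Sum.inl (j₀, k) : Φ.Ix) ≠ Sum.inl (j₁, l) := fun k l h => by
    rw [Sum.inl.injEq, Prod.mk.injEq] at h
    exact hjj h.1
  obtain ⟨C2, hC2, h2⟩ := T2z ω (fun k : Fin Φ.p => (Sum.inl (j₀, k) : Φ.Ix)) i₀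
  obtain ⟨C4, hC4, h4⟩ := G4 ω (fun k : Fin Φ.p => (Sum.inl (j₀, k) : Φ.Ix))
    (fun k : Fin Φ.p => (Sum.inl (j₁, k) : Φ.Ix)) i₀ i₁ i₀₁ (Φ.G j₀) (Φ.G j₁) (Φ.E j₀) (Φ.E j₁)
    (Φ.hG j₀) (Φ.hE j₀) (Φ.hE j₁) μ hμ C₁
  obtain ⟨C5, hC5, h5⟩ := G5a K
  obtain ⟨M, hM⟩ : ∃ M : ℝ, M = (Ideal.absNorm (Ideal.span {μ}) : ℝ) ^ 2 := ⟨_, rfl⟩
  have hM0 : 0 ≤ M := by rw [hM]; positivity
  refine ⟨C2 + C4 + 4 ^ (Fintype.card Φ.Ix * e) * M * C5, by positivity, ?_⟩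
  intro x hx hnz H u G hH hG hGH hGu hht
  obtain ⟨s₀, x', hs₀, hsx, hx', hht', hsc⟩ := G6a Φ x hx
  obtain ⟨y, hy⟩ : ∃ y : (Φ.Ix × Fin e → ℤ) → Fin r → 𝓞 K, ∀ a j, y a j =
      MvPolynomial.aeval x' (Φ.G j) +
        ∑ k, co ω a (Sum.inl (j, k)) * MvPolynomial.aeval x' (Φ.E j k) := ⟨_, fun _ _ => rfl⟩
  have hyJ : ∀ a j, y a j ∈ Ideal.span (Set.range x') ^ d := by
    intro a j
    rw [hy]
    exact add_mem (H1 _ (Φ.hG j) x') (sum_mem fun k _ => Ideal.mul_mem_left _ _ (H1 _ (Φ.hE j k) x'))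
  have hH1 : (1 : ℝ) ≤ H := by exact_mod_cast hH
  have hfin : {𝔞 : Ideal (𝓞 K) | Ideal.absNorm 𝔞 ≤ H}.Finite := Ideal.finite_setOfPred_absNorm_le H
  obtain ⟨s, hs⟩ : ∃ s : Finset (Ideal (𝓞 K)), s = hfin.toFinset.filter fun 𝔞 => G ≤ Ideal.absNorm 𝔞 :=
    ⟨_, rfl⟩
  have hs' : ∀ 𝔞 : Ideal (𝓞 K), 𝔞 ∈ s ↔ Ideal.absNorm 𝔞 ≤ H ∧ G ≤ Ideal.absNorm 𝔞 := by
    intro 𝔞
    rw [hs, Finset.mem_filter, Set.Finite.mem_toFinset, Set.mem_ofPred_eq]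
  have hGH' : G ≤ H := by
    refine le_trans ?_ hGH
    nlinarith
  have himp : ∀ a : Φ.Ix × Fin e → ℤ,
      ¬ ((∃ j, Φ.g (ck ω a) x j ≠ 0) ∧ d * FP x - FP (Φ.g (ck ω a) x) ≤ u) →
      Φ.g (ck ω a) x j₀ = 0 ∨
        ((∃ 𝔞 ∈ s, y a j₀ ∈ 𝔞 * Ideal.span (Set.range x') ^ d ∧
          y a j₁ ∈ 𝔞 * Ideal.span (Set.range x') ^ d) ∨
        (y a j₀ ≠ 0 ∧
          ∃ 𝔭 : Ideal (𝓞 K), 𝔭.IsPrime ∧ H < Ideal.absNorm 𝔭 ∧
            y a j₀ ∈ 𝔭 * Ideal.span (Set.range x') ^ d ∧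
              y a j₁ ∈ 𝔭 * Ideal.span (Set.range x') ^ d)) := by
    intro a ha
    obtain ⟨hz, hfp⟩ := hsc (co ω a) (y a) (hy a)
    by_cases h0 : Φ.g (ck ω a) x j₀ = 0
    · exact Or.inl h0
    refine Or.inr ?_
    have h0' : y a j₀ ≠ 0 := fun h => h0 ((hz j₀).2 h)
    have hlt : u < d * FP x - FP (Φ.g (ck ω a) x) := by
      by_contra hcon
      exact ha ⟨⟨j₀, h0⟩, not_lt.1 hcon⟩
    obtain ⟨𝔟, h𝔟0, h𝔟1, h𝔟2⟩ := G6_div x' hx' (y a) (hyJ a) j₀ h0'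
    have e1 : d * FP x - FP (Φ.g (ck ω a) x) = Real.log (Ideal.absNorm 𝔟) :=
      (hfp fun h => h0' (congrFun h j₀)).trans h𝔟1
    rw [e1] at hlt
    have hnpos : (0 : ℝ) < Ideal.absNorm 𝔟 := by
      rw [Nat.cast_pos, Nat.pos_iff_ne_zero, Ne, Ideal.absNorm_eq_zero_iff]
      exact h𝔟0
    have hexp : Real.exp u < Ideal.absNorm 𝔟 := (Real.lt_log_iff_exp_lt hnpos).1 hlt
    rcases G5b 𝔟 h𝔟0 G hG (hGu.trans hexp.le) with ⟨𝔞, d1, d2, d3⟩ | ⟨𝔭, d1, d2, d3⟩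
    · refine Or.inl ⟨𝔞, (hs' 𝔞).2 ⟨?_, d2⟩, h𝔟2 𝔞 d1 j₀, h𝔟2 𝔞 d1 j₁⟩
      exact_mod_cast d3.trans hGH
    · rcases le_or_gt (Ideal.absNorm 𝔭) H with h | h
      · exact Or.inl ⟨𝔭, (hs' 𝔭).2 ⟨h, d3.le⟩, h𝔟2 𝔭 d2 j₀, h𝔟2 𝔭 d2 j₁⟩
      · exact Or.inr ⟨h0', 𝔭, d1, h, h𝔟2 𝔭 d2 j₀, h𝔟2 𝔭 d2 j₁⟩
  have k1 := cnt_mono H himp
  have k2 := cnt_or H (fun a : Φ.Ix × Fin e → ℤ => Φ.g (ck ω a) x j₀ = 0)
    (fun a => (∃ 𝔞 ∈ s, y a j₀ ∈ 𝔞 * Ideal.span (Set.range x') ^ d ∧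
          y a j₁ ∈ 𝔞 * Ideal.span (Set.range x') ^ d) ∨
        (y a j₀ ≠ 0 ∧
          ∃ 𝔭 : Ideal (𝓞 K), 𝔭.IsPrime ∧ H < Ideal.absNorm 𝔭 ∧
            y a j₀ ∈ 𝔭 * Ideal.span (Set.range x') ^ d ∧
              y a j₁ ∈ 𝔭 * Ideal.span (Set.range x') ^ d))
  have k3 := cnt_or H (fun a : Φ.Ix × Fin e → ℤ => ∃ 𝔞 ∈ s,
      y a j₀ ∈ 𝔞 * Ideal.span (Set.range x') ^ d ∧ y a j₁ ∈ 𝔞 * Ideal.span (Set.range x') ^ d)
    (fun a => y a j₀ ≠ 0 ∧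
          ∃ 𝔭 : Ideal (𝓞 K), 𝔭.IsPrime ∧ H < Ideal.absNorm 𝔭 ∧
            y a j₀ ∈ 𝔭 * Ideal.span (Set.range x') ^ d ∧
              y a j₁ ∈ 𝔭 * Ideal.span (Set.range x') ^ d)
  have k4 := cnt_exists H s (fun (𝔞 : Ideal (𝓞 K)) (a : Φ.Ix × Fin e → ℤ) =>
      y a j₀ ∈ 𝔞 * Ideal.span (Set.range x') ^ d ∧ y a j₁ ∈ 𝔞 * Ideal.span (Set.range x') ^ d)
  have m1 : (cnt H (fun a : Φ.Ix × Fin e → ℤ => Φ.g (ck ω a) x j₀ = 0) : ℝ) ≤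
      C2 * (1 / H) * (H : ℝ) ^ (Fintype.card Φ.Ix * e) :=
    h2 (fun k => ev (Φ.E j₀ k) x) (ev (Φ.G j₀) x) (G6_ne _ μ C' x hx (hnz j₀)) H hH
  have m2 : (cnt H (fun a : Φ.Ix × Fin e → ℤ => y a j₀ ≠ 0 ∧
          ∃ 𝔭 : Ideal (𝓞 K), 𝔭.IsPrime ∧ H < Ideal.absNorm 𝔭 ∧
            y a j₀ ∈ 𝔭 * Ideal.span (Set.range x') ^ d ∧
              y a j₁ ∈ 𝔭 * Ideal.span (Set.range x') ^ d) : ℝ) ≤
      C4 * (H : ℝ) ^ (-(1 / (Module.finrank ℚ K : ℝ))) * (H : ℝ) ^ (Fintype.card Φ.Ix * e) := by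
    have h6 := h4 x' hx' ((hnz j₁).2.2 s₀ x' hs₀ hsx) H hH (hht'.trans_le hht)
    simp only [← hy] at h6
    exact h6
  have hJd : Ideal.span (Set.range x') ^ d ≠ ⊥ := by
    refine pow_ne_zero d ?_
    rw [Ne, Submodule.zero_eq_bot, Ideal.span_eq_bot]
    intro h
    exact hx' (funext fun i => h (x' i) ⟨i, rfl⟩)
  have m3 : ∀ 𝔞 ∈ s, (cnt H (fun a : Φ.Ix × Fin e → ℤ =>
      y a j₀ ∈ 𝔞 * Ideal.span (Set.range x') ^ d ∧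
          y a j₁ ∈ 𝔞 * Ideal.span (Set.range x') ^ d) : ℝ) ≤
      4 ^ (Fintype.card Φ.Ix * e) * M * (1 / (Ideal.absNorm 𝔞 : ℝ) ^ 2) *
            (H : ℝ) ^ (Fintype.card Φ.Ix * e) := by
    intro 𝔞 h𝔞
    have h𝔞' := (hs' 𝔞).1 h𝔞
    have h𝔞0 : 𝔞 ≠ ⊥ := by
      rintro rfl
      have := h𝔞'.2
      rw [Ideal.absNorm_bot, Nat.cast_zero] at this
      linarith
    have h6 := G2 ω (fun k : Fin Φ.p => (Sum.inl (j₀, k) : Φ.Ix))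
      (fun k : Fin Φ.p => (Sum.inl (j₁, k) : Φ.Ix)) i₀ i₁ i₀₁ (Ideal.span (Set.range x') ^ d) hJd μ hμ
      (fun k => MvPolynomial.aeval x' (Φ.E j₀ k)) (fun k => MvPolynomial.aeval x' (Φ.E j₁ k))
      (MvPolynomial.aeval x' (Φ.G j₀)) (MvPolynomial.aeval x' (Φ.G j₁))
      (fun k => H1 _ (Φ.hE j₀ k) x') (fun k => H1 _ (Φ.hE j₁ k) x') (H1 _ (Φ.hG j₀) x')
      (H1 _ (Φ.hG j₁) x') ((hnz j₀).2.2 s₀ x' hs₀ hsx) ((hnz j₁).2.2 s₀ x' hs₀ hsx) 𝔞 h𝔞0 H h𝔞'.1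
    simp only [← hy] at h6
    refine h6.trans (le_of_eq ?_)
    rw [← hM]
    ring
  have m4 := h5 G hG.le s (fun 𝔞 h𝔞 => ((hs' 𝔞).1 h𝔞).2)
  have q1 := k1.trans (k2.trans (Nat.add_le_add_left (k3.trans (Nat.add_le_add_right k4 _)) _))
  have q2 := (Nat.cast_le (α := ℝ)).2 q1
  rw [Nat.cast_add, Nat.cast_add, Nat.cast_sum] at q2
  refine q2.trans ?_
  have q3 := (Finset.sum_le_sum m3)
  rw [← Finset.sum_mul, ← Finset.mul_sum] at q3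
  obtain ⟨P, hP⟩ : ∃ P : ℝ, P = (H : ℝ) ^ (Fintype.card Φ.Ix * e) := ⟨_, rfl⟩
  have hP0 : 0 ≤ P := by rw [hP]; positivity
  obtain ⟨W, hW⟩ : ∃ W : ℝ, W = (H : ℝ) ^ (-(1 / (Module.finrank ℚ K : ℝ))) := ⟨_, rfl⟩
  have hW0 : 0 ≤ W := by rw [hW]; positivity
  rw [← hP] at q3 m1 m2 ⊢
  rw [← hW] at m2 ⊢
  have hG0 : 0 < G := by linarith
  have q4 : (4 : ℝ) ^ (Fintype.card Φ.Ix * e) * M * (∑ 𝔞 ∈ s, 1 / (Ideal.absNorm 𝔞 : ℝ) ^ 2) * P ≤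
      4 ^ (Fintype.card Φ.Ix * e) * M * (C5 / G) * P :=
    mul_le_mul_of_nonneg_right (mul_le_mul_of_nonneg_left m4 (by positivity)) hP0
  refine (add_le_add m1 (add_le_add (q3.trans q4) m2)).trans ?_
  obtain ⟨E, hE⟩ : ∃ E : ℝ, E = (4 : ℝ) ^ (Fintype.card Φ.Ix * e) * M := ⟨_, rfl⟩
  have hE0 : 0 ≤ E := by rw [hE]; positivity
  rw [← hE]
  have hHi : (0 : ℝ) ≤ 1 / H := by positivity
  have hGi : (0 : ℝ) ≤ 1 / G := by positivity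
  have e2 : (C2 + C4 + E * C5) * (1 / G + 1 / H + W) * P -
      (C2 * (1 / H) * P + (E * (C5 / G) * P + C4 * W * P)) =
      (C2 * (1 / G + W) + C4 * (1 / G + 1 / H) + E * C5 * (1 / H + W)) * P := by
    ring
  have e3 : 0 ≤ (C2 * (1 / G + W) + C4 * (1 / G + 1 / H) + E * C5 * (1 / H + W)) * P := by
    positivity
  linarith

/-- THE COMMON DIVISOR.  UVB.G6 (file MP_17a322_ntU2/G6.lean, done by helper40) for a family.  The point `x` satisfies `Nz (Φ.E j) d μ C'` for all `j`.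
PROOF as there: `x'`, `s` of G6a, `J = span (range x') ^ d`, the values `y j ∈ J` (H1); G2, G4 with `em₁ k = inl (0, k)`, `em₂ k = inl (1, k)`,
`G = Φ.G 0`, `E = Φ.E 0`, `G' = Φ.G 1`, `E' = Φ.E 1`, the hypothesis `μ J ≤ span` is the third part of `Nz`; first value zero: T2z with the vector
`ev (Φ.E 0 k) x` (not zero by the first part of `Nz` at an infinite place). -/
theorem G6 {K : Type u} [Field K] [NumberField K] {N r d D e : ℕ} (hr : 2 ≤ r)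
    (Φ : Fam K N r d D) (ω : Module.Basis (Fin e) ℤ (𝓞 K)) (μ : 𝓞 K) (hμ : μ ≠ 0) (C' C₁ : ℝ) :
    ∃ C η : ℝ, 0 ≤ C ∧ 0 < η ∧ ∀ x : Fin (N + 1) → K, x ≠ 0 → (∀ j, Nz (Φ.E j) d μ C' x) →
      ∀ (H : ℕ) (u : ℝ), 1 ≤ H → 0 ≤ u → Height.logHeight x ≤ C₁ * (1 + Real.log H) →
        (cnt H (fun a : Φ.Ix × Fin e → ℤ => ¬ ((∃ j, Φ.g (ck ω a) x j ≠ 0) ∧
          d * FP x - FP (Φ.g (ck ω a) x) ≤ u)) : ℝ) ≤
            C * (Real.exp (-u) + (H : ℝ) ^ (-η)) * (H : ℝ) ^ (Fintype.card Φ.Ix * e) := by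
  classical
  obtain ⟨C, hC, h⟩ := G6_main hr Φ ω μ hμ C' C₁
  have hd : 0 < Module.finrank ℚ K := Module.finrank_pos
  have hd0 : (0 : ℝ) < Module.finrank ℚ K := by exact_mod_cast hd
  refine ⟨3 * C + 3 ^ (Fintype.card Φ.Ix * e), min (1 / 2) (1 / (Module.finrank ℚ K : ℝ)),
    by positivity, lt_min (by norm_num) (by positivity), ?_⟩
  intro x hx hnz H u hH hu hht
  obtain ⟨η, hη⟩ : ∃ η : ℝ, η = min (1 / 2) (1 / (Module.finrank ℚ K : ℝ)) := ⟨_, rfl⟩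
  rw [← hη]
  have hη1 : η ≤ 1 / 2 := by rw [hη]; exact min_le_left _ _
  have hη2 : η ≤ 1 / (Module.finrank ℚ K : ℝ) := by rw [hη]; exact min_le_right _ _
  have hH1 : (1 : ℝ) ≤ H := by exact_mod_cast hH
  have hH0 : (0 : ℝ) < H := by linarith
  have hW : 0 < (H : ℝ) ^ (-η) := Real.rpow_pos_of_pos hH0 _
  have hE : 0 < Real.exp (-u) := Real.exp_pos _
  have hP0 : (0 : ℝ) ≤ (H : ℝ) ^ (Fintype.card Φ.Ix * e) := by positivity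
  by_cases htriv : u = 0 ∨ H = 1
  · have h1 : 1 ≤ Real.exp (-u) + (H : ℝ) ^ (-η) := by
      rcases htriv with h1 | h1
      · rw [h1, neg_zero, Real.exp_zero]
        linarith
      · rw [h1, Nat.cast_one, Real.one_rpow]
        linarith
    have h2 := cnt_le (ι := Φ.Ix × Fin e) H hH (fun a : Φ.Ix × Fin e → ℤ =>
      ¬ ((∃ j, Φ.g (ck ω a) x j ≠ 0) ∧ d * FP x - FP (Φ.g (ck ω a) x) ≤ u))
    rw [Fintype.card_prod, Fintype.card_fin] at h2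
    have h3 := (Nat.cast_le (α := ℝ)).2 h2
    rw [Nat.cast_mul, Nat.cast_pow, Nat.cast_pow] at h3
    refine h3.trans ?_
    refine mul_le_mul_of_nonneg_right ?_ hP0
    push_cast
    have h4 : (0 : ℝ) < 3 ^ (Fintype.card Φ.Ix * e) := by positivity
    nlinarith [mul_nonneg hC (le_of_lt (add_pos hE hW))]
  · rw [not_or] at htriv
    have hu0 : 0 < u := lt_of_le_of_ne hu (Ne.symm htriv.1)
    have hH2 : (1 : ℝ) < H := by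
      have : 1 < H := lt_of_le_of_ne hH (Ne.symm htriv.2)
      exact_mod_cast this
    obtain ⟨G, hG⟩ : ∃ G : ℝ, G = min (Real.exp u) (Real.sqrt H) := ⟨_, rfl⟩
    have hs1 : 1 < Real.sqrt H := by
      rw [Real.lt_sqrt zero_le_one]
      linarith
    have hG1 : 1 < G := by
      rw [hG]
      exact lt_min (Real.one_lt_exp_iff.2 hu0) hs1
    have hG0 : 0 < G := by linarith
    have hG2 : G ^ 2 ≤ H := by
      have h1 : G ≤ Real.sqrt H := by rw [hG]; exact min_le_right _ _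
      calc G ^ 2 ≤ Real.sqrt H ^ 2 := pow_le_pow_left₀ hG0.le h1 2
        _ = H := Real.sq_sqrt hH0.le
    have hG3 : G ≤ Real.exp u := by rw [hG]; exact min_le_left _ _
    have h1 := h x hx hnz H u G hH hG1 hG2 hG3 hht
    refine h1.trans (mul_le_mul_of_nonneg_right ?_ hP0)
    have hsq : 1 / Real.sqrt H ≤ (H : ℝ) ^ (-η) := by
      have e1 : 1 / Real.sqrt H = (H : ℝ) ^ (-(1 / 2) : ℝ) := by
        rw [Real.rpow_neg hH0.le, ← Real.sqrt_eq_rpow, one_div]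
      rw [e1]
      exact Real.rpow_le_rpow_of_exponent_le hH1 (by linarith)
    have hGi : 1 / G ≤ Real.exp (-u) + (H : ℝ) ^ (-η) := by
      rcases le_total (Real.exp u) (Real.sqrt H) with h2 | h2
      · rw [hG, min_eq_left h2, one_div, ← Real.exp_neg]
        linarith
      · rw [hG, min_eq_right h2]
        linarith
    have hHi : 1 / (H : ℝ) ≤ (H : ℝ) ^ (-η) := by
      have e1 : 1 / (H : ℝ) = (H : ℝ) ^ (-1 : ℝ) := by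
        rw [Real.rpow_neg_one, one_div]
      rw [e1]
      exact Real.rpow_le_rpow_of_exponent_le hH1 (by linarith)
    have hWi : (H : ℝ) ^ (-(1 / (Module.finrank ℚ K : ℝ))) ≤ (H : ℝ) ^ (-η) :=
      Real.rpow_le_rpow_of_exponent_le hH1 (by linarith)
    calc C * (1 / G + 1 / H + (H : ℝ) ^ (-(1 / (Module.finrank ℚ K : ℝ))))
        ≤ C * (3 * (Real.exp (-u) + (H : ℝ) ^ (-η))) := by
          refine mul_le_mul_of_nonneg_left ?_ hC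
          linarith
      _ = 3 * C * (Real.exp (-u) + (H : ℝ) ^ (-η)) := by ring
      _ ≤ (3 * C + 3 ^ (Fintype.card Φ.Ix * e)) * (Real.exp (-u) + (H : ℝ) ^ (-η)) := by
          refine mul_le_mul_of_nonneg_right ?_ (add_pos hE hW).le
          have h4 : (0 : ℝ) < 3 ^ (Fintype.card Φ.Ix * e) := by positivity
          linarith

end UVC
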