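import Mathlib

/-!
uv2 general form, leaf NSi: powers of the generators of an ideal of a Dedekind domain.
-/

universe u

namespace UVC

private theorem NSi_sup {R : Type u} [CommRing R] [IsDedekindDomain R] (I J : Ideal R) {m : ℕ}
    (_hm : m ≠ 0) : (I ⊔ J) ^ m = I ^ m ⊔ J ^ m := by
  by_cases hD : I ⊔ J = ⊥
  · obtain ⟨h1, h2⟩ := sup_eq_bot_iff.1 hD
    rw [hD, h1, h2, sup_idem]
  · obtain ⟨I', hI⟩ := Ideal.dvd_iff_le.2 (le_sup_left : I ≤ I ⊔ J)
    obtain ⟨J', hJ⟩ := Ideal.dvd_iff_le.2 (le_sup_right : J ≤ I ⊔ J)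
    have h1 : (I ⊔ J) * (I' ⊔ J') = (I ⊔ J) * 1 := by
      rw [Ideal.mul_sup, ← hI, ← hJ, mul_one]
    have h2 : I' ⊔ J' = 1 := mul_left_cancel₀ hD h1
    have h3 : IsCoprime I' J' := by
      rw [Ideal.isCoprime_iff_sup_eq, h2, Ideal.one_eq_top]
    have h4 : I' ^ m ⊔ J' ^ m = ⊤ := Ideal.isCoprime_iff_sup_eq.1 (h3.pow (m := m) (n := m))
    have h5 : I ^ m ⊔ J ^ m = (I ⊔ J) ^ m * (I' ^ m ⊔ J' ^ m) := by
      rw [Ideal.mul_sup, ← mul_pow, ← mul_pow, ← hI, ← hJ]
    rw [h5, h4, Ideal.mul_top]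

private theorem NSi_fin {R : Type u} [CommRing R] [IsDedekindDomain R] {ι : Type}
    (x : ι → R) {m : ℕ} (hm : m ≠ 0) (S : Finset ι) :
    (S.sup fun i => Ideal.span {x i ^ m}) = (S.sup fun i => Ideal.span {x i}) ^ m := by
  classical
  induction S using Finset.induction_on with
  | empty =>
    rw [Finset.sup_empty, Finset.sup_empty, ← Ideal.zero_eq_bot, zero_pow hm]
  | insert i S _ ih =>
    rw [Finset.sup_insert, Finset.sup_insert, ih, NSi_sup _ _ hm, Ideal.span_singleton_pow]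

/-- PROOF.  `≤` is clear.  If `J = span (range x) = ⊥` then all `x i = 0` (`m = 0`: both sides are `⊤`; `m > 0`: both are `⊥`).  Let `J ≠ ⊥`.  `J ^ ((N + 1) m)` is generated by the
products of `(N + 1) m` of the `x i` (`Ideal.span_pow`/`Submodule.span_pow`, or induction); for `m ≥ 1` in such a product some `x i` occurs at least `m`
times (pigeonhole), so it is in `span (x i ^ m) * J ^ (N m)`.  So `J ^ m * J ^ (N m) ≤ span (range fun i => x i ^ m) * J ^ (N m)`; cancel the nonzero ideal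
`J ^ (N m)` (`Ideal.dvd_iff_le`, `mul_dvd_mul_iff_right`). -/
theorem NSi {R : Type u} [CommRing R] [IsDedekindDomain R] {N : ℕ}
    (x : Fin (N + 1) → R) (m : ℕ) :
    Ideal.span (Set.range fun i => x i ^ m) = Ideal.span (Set.range x) ^ m := by
  rcases Nat.eq_zero_or_pos m with rfl | hm
  · rw [pow_zero, Ideal.one_eq_top]
    refine (Ideal.eq_top_iff_one _).2 (Ideal.subset_span ⟨0, ?_⟩)
    exact pow_zero _
  · have h1 : ∀ y : Fin (N + 1) → R, Ideal.span (Set.range y) =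
        (Finset.univ : Finset (Fin (N + 1))).sup fun i => Ideal.span {y i} := by
      intro y
      rw [Finset.sup_univ_eq_iSup]
      exact Submodule.span_range_eq_iSup
    rw [h1, h1, NSi_fin x hm.ne']

/-- Cancellation.  PROOF.  `Ideal.dvd_iff_le` and `mul_dvd_mul_iff_right` for `J ≠ ⊥`. -/
theorem NSc {R : Type u} [CommRing R] [IsDedekindDomain R] (I I' J : Ideal R)
    (hJ : J ≠ ⊥) (h : I * J ≤ I' * J) : I ≤ I' := by
  exact Ideal.dvd_iff_le.1 ((mul_dvd_mul_iff_right hJ).1 (Ideal.dvd_iff_le.2 h))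

end UVC
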