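import Pool.Agent.Lib.MP_17a322_ntU3.NSa
import Pool.Agent.Lib.MP_17a322_ntU3.NSi

/-!
uv2 general form, leaf NS: forms without common zero on `A`.
-/

universe u

namespace UVC

open NumberField UVB MvPolynomial
open Pool.Agent.Lib.MP_17a322_nt.VA

private theorem NS_eval {K : Type u} [Field K] [NumberField K] {N : ℕ} (q : MvPolynomial (Fin (N + 1)) (𝓞 K))
    (x : Fin (N + 1) → K) : ev q x = eval x (map (algebraMap (𝓞 K) K) q) := by
  unfold ev
  exact congrArg (fun φ : MvPolynomial (Fin (N + 1)) K →+* K => φ (map (algebraMap (𝓞 K) K) q)) (coe_aeval_eq_eval x)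

private theorem NS_inf {K : Type u} [Field K] [NumberField K] {N s : ℕ} (v : InfinitePlace K)
    (q : MvPolynomial (Fin (N + 1)) (𝓞 K)) (hq : q.IsHomogeneous s) :
    ∃ B : ℝ, 0 ≤ B ∧ ∀ x : Fin (N + 1) → K, v (ev q x) ≤ B * (⨆ i, v (x i)) ^ s := by
  refine ⟨(AddMonoidAlgebra.coeff (map (algebraMap (𝓞 K) K) q)).sum (fun _ c => v.1 c),
    Finset.sum_nonneg fun _ _ => v.1.nonneg _, fun x => ?_⟩
  rw [NS_eval]
  exact AbsoluteValue.eval_mvPolynomial_le v.1 (hq.map (algebraMap (𝓞 K) K)) x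

private theorem NS_le_one {K : Type u} [Field K] [NumberField K] (v : FinitePlace K) (x : 𝓞 K) :
    v (algebraMap (𝓞 K) K x) ≤ 1 := by
  rw [← FinitePlace.norm_embedding_eq]
  exact FinitePlace.norm_le_one K _ x

private theorem NS_fin {K : Type u} [Field K] [NumberField K] {N s : ℕ} (v : FinitePlace K)
    (q : MvPolynomial (Fin (N + 1)) (𝓞 K)) (hq : q.IsHomogeneous s) (x : Fin (N + 1) → K) :
    v (ev q x) ≤ (⨆ i, v (x i)) ^ s := by
  have hv : IsNonarchimedean (v.1 : K → ℝ) := FinitePlace.add_le v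
  have h := IsNonarchimedean.eval_mvPolynomial_le hv (hq.map (algebraMap (𝓞 K) K)) x
  rw [NS_eval]
  have h0 : 0 ≤ (⨆ i, v.1 (x i)) ^ s := pow_nonneg (Real.iSup_nonneg fun i => v.1.nonneg _) s
  have h1 : (⨆ m : (map (algebraMap (𝓞 K) K) q).support, v.1 (coeff m.1 (map (algebraMap (𝓞 K) K) q))) ≤ 1 := by
    refine Real.iSup_le (fun m => ?_) zero_le_one
    rw [coeff_map]
    exact NS_le_one v _
  refine h.trans ?_
  have h2 := mul_le_mul_of_nonneg_right h1 h0
  rwa [one_mul] at h2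

private theorem NS_mem {R : Type u} [CommRing R] {N s : ℕ} (x : Fin (N + 1) → R)
    (f : MvPolynomial (Fin (N + 1)) R) (hf : f.IsHomogeneous s) :
    aeval x f ∈ Ideal.span (Set.range x) ^ s := by
  classical
  rw [aeval_def, eval₂_eq']
  refine Ideal.sum_mem _ fun m hm => Ideal.mul_mem_left _ _ ?_
  have h4 : ∑ i, m i = s := by
    have h5 := hf (mem_support_iff.1 hm)
    rw [← h5, Finsupp.weight_apply, Finsupp.sum_fintype]
    · simp
    · intro i
      simp
  rw [← h4, ← Finset.prod_pow_eq_pow_sum]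
  exact Ideal.prod_mem_prod fun i _ => Ideal.pow_mem_pow (Ideal.subset_span (Set.mem_range_self i)) _

private theorem NS_ev {K : Type u} [Field K] [NumberField K] {N : ℕ} (f : MvPolynomial (Fin (N + 1)) (𝓞 K))
    (x : Fin (N + 1) → 𝓞 K) (y : Fin (N + 1) → K) (h : ∀ i, algebraMap (𝓞 K) K (x i) = y i) :
    algebraMap (𝓞 K) K (aeval x f) = ev f y := by
  have hy : y = fun i => algebraMap (𝓞 K) K (x i) := funext fun i => (h i).symm
  unfold ev
  rw [hy, aeval_map_algebraMap]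
  exact (aeval_algebraMap_apply K x f).symm

private theorem NS_sup {K : Type u} [Field K] {N : ℕ} (v : AbsoluteValue K ℝ) {x : Fin (N + 1) → K} (hx : x ≠ 0) :
    0 < (⨆ i, v (x i)) ∧ ∃ i, v (x i) = ⨆ i, v (x i) := by
  obtain ⟨i, hi⟩ := Function.ne_iff.1 hx
  refine ⟨lt_of_lt_of_le (v.pos hi) (le_ciSup (f := fun i => v (x i)) (Set.finite_range _).bddAbove i), ?_⟩
  exact exists_eq_ciSup_of_finite (f := fun i => v (x i))

/-- Cancellation of a positive power. -/
private theorem NS_cancel {a M b : ℝ} {s n : ℕ} (hM : 0 < M) (h : a * M ^ (s + n) ≤ M ^ s * b) : a * M ^ n ≤ b := by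
  rw [pow_add] at h
  have h1 : M ^ s * (a * M ^ n) ≤ M ^ s * b := by linarith
  exact le_of_mul_le_mul_left h1 (pow_pos hM s)

/-- PROOF from NSa.  Let `A.IsPt x`, `x ≠ 0`.  (1) At a place `v` take `i` with `v (x i) = M = ⨆ v (x i) > 0`:
`v μ M ^ (s + n) ≤ ∑ k, v (q_ik (x)) v (E_k (x))` (`≤ max` for finite `v`), `v (q_ik (x)) ≤ c_v M ^ s` (`c_v` = sum of the absolute values of the
coefficients, for finite `v` one may take `1`); cancel `M ^ s`.  The constant for all the finitely many infinite places: `C`.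
(2) Ideals: `x'` integral and proportional to `x`, `J₁ = span (range x')`: `μ x'_i ^ (s + n) = ∑ k, q_ik (x') E_k (x')` (in `K`, hence in `𝓞 K`: the
element of `A.I` vanishes at `s x` by homogeneity of `A.I`, `Z_isPt_smul` in VA) and `q_ik (x') ∈ J₁ ^ s`.  In the Dedekind domain `𝓞 K` the ideal generated by the
`x'_i ^ (s + n)` is `J₁ ^ (s + n)` (NSi; `J₁ ≠ ⊥`), so `μ J₁ ^ (s + n) ≤ span (E_k (x')) * J₁ ^ s`; cancel `J₁ ^ s` (NSc): `μ J₁ ^ n ≤ span (E_k (x'))`. -/
theorem NS {K : Type u} [Field K] [NumberField K] {N p n : ℕ} (A : AV K N)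
    (E : Fin p → MvPolynomial (Fin (N + 1)) (𝓞 K)) (hE : ∀ k, (E k).IsHomogeneous n)
    (hb : ∀ (L : Type u) [Field L] [Algebra K L] (P : A.Pts L), ∃ k, ev (E k) (A.x P) ≠ 0) :
    ∃ (μ : 𝓞 K) (C : ℝ), μ ≠ 0 ∧ 0 < C ∧ ∀ P : A.Pts K, Nz E n μ C (A.x P) := by
  obtain ⟨μ, s, q, hμ, hq, hI⟩ := NSa A E hE hb
  have key : ∀ (y : Fin (N + 1) → K), A.IsPt y → ∀ i,
      algebraMap (𝓞 K) K μ * y i ^ (s + n) = ∑ k, ev (q i k) y * ev (E k) y := by
    intro y hy i
    have h := hy _ (hI i)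
    rw [map_sub, map_mul, map_pow, aeval_C, aeval_X, map_sum, sub_eq_zero, Algebra.algebraMap_self_apply] at h
    rw [h]
    refine Finset.sum_congr rfl fun k _ => ?_
    rw [map_mul, map_mul]
    rfl
  have hB : ∀ v : InfinitePlace K, ∃ T : ℝ, 0 ≤ T ∧ ∀ (i : Fin (N + 1)) (k : Fin p) (y : Fin (N + 1) → K),
      v (ev (q i k) y) ≤ T * (⨆ a, v (y a)) ^ s := by
    intro v
    choose B hB0 hB using fun i k => NS_inf v (q i k) (hq i k)
    refine ⟨∑ i, ∑ k, B i k, Finset.sum_nonneg fun i _ => Finset.sum_nonneg fun k _ => hB0 i k, fun i k y => ?_⟩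
    refine (hB i k y).trans (mul_le_mul_of_nonneg_right ?_
      (pow_nonneg (Real.iSup_nonneg fun a => v.1.nonneg _) s))
    refine (Finset.single_le_sum (f := fun k => B i k) (fun k _ => hB0 i k) (Finset.mem_univ k)).trans ?_
    exact Finset.single_le_sum (f := fun i => ∑ k, B i k)
      (fun i _ => Finset.sum_nonneg fun k _ => hB0 i k) (Finset.mem_univ i)
  choose T hT0 hT using hB
  have hμK : algebraMap (𝓞 K) K μ ≠ 0 := by
    intro h
    exact hμ ((FaithfulSMul.algebraMap_injective (𝓞 K) K) (by rw [h, map_zero]))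
  have hc0 : ∀ v : InfinitePlace K, 0 ≤ (p : ℝ) * T v / v (algebraMap (𝓞 K) K μ) := fun v =>
    div_nonneg (mul_nonneg (Nat.cast_nonneg _) (hT0 v)) (v.1.nonneg _)
  refine ⟨μ, 1 + ∑ v : InfinitePlace K, (p : ℝ) * T v / v (algebraMap (𝓞 K) K μ), hμ, ?_, fun P => ⟨?_, ?_, ?_⟩⟩
  · have := Finset.sum_nonneg fun (v : InfinitePlace K) (_ : v ∈ Finset.univ) => hc0 v
    linarith
  · intro v
    obtain ⟨hM, i, hi⟩ := NS_sup v.1 (Z_x_ne A P)
    obtain ⟨M, hMdef⟩ : ∃ M : ℝ, M = ⨆ i, v.1 (A.x P i) := ⟨_, rfl⟩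
    obtain ⟨S, hSdef⟩ : ∃ S : ℝ, S = ⨆ k, v.1 (ev (E k) (A.x P)) := ⟨_, rfl⟩
    have hS0 : 0 ≤ S := by rw [hSdef]; exact Real.iSup_nonneg fun k => v.1.nonneg _
    have hSk : ∀ k, v.1 (ev (E k) (A.x P)) ≤ S := fun k => by
      rw [hSdef]
      exact le_ciSup (f := fun k => v.1 (ev (E k) (A.x P))) (Set.finite_range _).bddAbove k
    rw [← hMdef] at hM hi
    have h1 := congrArg v.1 (key _ (Z_x_isPt A P) i)
    rw [map_mul v.1, map_pow v.1, hi] at h1
    have h2 : v.1 (algebraMap (𝓞 K) K μ) * M ^ (s + n) ≤ M ^ s * (p * T v * S) := by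
      rw [h1]
      refine (v.1.sum_le _ _).trans ?_
      have h3 : ∀ k ∈ (Finset.univ : Finset (Fin p)), v.1 (ev (q i k) (A.x P) * ev (E k) (A.x P)) ≤
          (T v * M ^ s) * S := by
        intro k _
        rw [map_mul v.1]
        have h4 := hT v i k (A.x P)
        refine mul_le_mul ?_ (hSk k) (v.1.nonneg _) (mul_nonneg (hT0 v) (pow_nonneg hM.le s))
        rw [hMdef]
        exact h4
      refine (Finset.sum_le_sum h3).trans (le_of_eq ?_)
      rw [Finset.sum_const, Finset.card_univ, Fintype.card_fin, nsmul_eq_mul]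
      ring
    have h5 := NS_cancel hM h2
    have hvμ : 0 < v.1 (algebraMap (𝓞 K) K μ) := v.1.pos hμK
    have h6 : M ^ n ≤ (p : ℝ) * T v / v (algebraMap (𝓞 K) K μ) * S := by
      have h7 : v (algebraMap (𝓞 K) K μ) = v.1 (algebraMap (𝓞 K) K μ) := rfl
      rw [h7, div_mul_eq_mul_div, le_div_iff₀ hvμ]
      linarith
    have h8 := Finset.single_le_sum (f := fun v : InfinitePlace K => (p : ℝ) * T v / v (algebraMap (𝓞 K) K μ))
      (fun v _ => hc0 v) (Finset.mem_univ v)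
    have h9 : M ^ n ≤ (1 + ∑ v : InfinitePlace K, (p : ℝ) * T v / v (algebraMap (𝓞 K) K μ)) * S :=
      h6.trans (mul_le_mul_of_nonneg_right (by linarith) hS0)
    rw [hMdef, hSdef] at h9
    exact h9
  · intro v
    obtain ⟨hM, i, hi⟩ := NS_sup v.1 (Z_x_ne A P)
    obtain ⟨M, hMdef⟩ : ∃ M : ℝ, M = ⨆ i, v.1 (A.x P i) := ⟨_, rfl⟩
    obtain ⟨S, hSdef⟩ : ∃ S : ℝ, S = ⨆ k, v.1 (ev (E k) (A.x P)) := ⟨_, rfl⟩
    have hS0 : 0 ≤ S := by rw [hSdef]; exact Real.iSup_nonneg fun k => v.1.nonneg _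
    have hSk : ∀ k, v.1 (ev (E k) (A.x P)) ≤ S := fun k => by
      rw [hSdef]
      exact le_ciSup (f := fun k => v.1 (ev (E k) (A.x P))) (Set.finite_range _).bddAbove k
    rw [← hMdef] at hM hi
    have h1 := congrArg v.1 (key _ (Z_x_isPt A P) i)
    rw [map_mul v.1, map_pow v.1, hi] at h1
    have hv : IsNonarchimedean (v.1 : K → ℝ) := FinitePlace.add_le v
    have h2 : v.1 (algebraMap (𝓞 K) K μ) * M ^ (s + n) ≤ M ^ s * S := by
      rw [h1]
      refine hv.apply_sum_univ_le.trans ?_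
      refine Real.iSup_le (fun k => ?_) (mul_nonneg (pow_nonneg hM.le s) hS0)
      rw [map_mul v.1]
      refine mul_le_mul ?_ (hSk k) (v.1.nonneg _) (pow_nonneg hM.le s)
      rw [hMdef]
      exact NS_fin v (q i k) (hq i k) (A.x P)
    have h5 := NS_cancel hM h2
    rw [hMdef, hSdef] at h5
    exact h5
  · intro t x' ht hx' z hz
    have hpt : A.IsPt fun i => t * A.x P i := Z_isPt_smul A (Z_x_isPt A P) t
    have key' : ∀ i, μ * x' i ^ (s + n) = ∑ k, aeval x' (q i k) * aeval x' (E k) := by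
      intro i
      apply FaithfulSMul.algebraMap_injective (𝓞 K) K
      rw [map_mul, map_pow, map_sum, hx' i]
      refine (key _ hpt i).trans (Finset.sum_congr rfl fun k _ => ?_)
      rw [map_mul, NS_ev (q i k) x' _ hx', NS_ev (E k) x' _ hx']
    have hJ : Ideal.span (Set.range x') ≠ ⊥ := by
      intro h0
      obtain ⟨i, hi⟩ := Function.ne_iff.1 (Z_x_ne A P)
      have h1 : x' i ∈ Ideal.span (Set.range x') := Ideal.subset_span ⟨i, rfl⟩
      rw [h0, Ideal.mem_bot] at h1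
      have h2 := hx' i
      rw [h1, map_zero] at h2
      exact (mul_ne_zero ht hi) h2.symm
    have hJs : Ideal.span (Set.range x') ^ s ≠ ⊥ := by
      rw [← Ideal.zero_eq_bot] at hJ ⊢
      exact pow_ne_zero s hJ
    have h1 : Ideal.span {μ} * Ideal.span (Set.range x') ^ n * Ideal.span (Set.range x') ^ s ≤
        Ideal.span (Set.range fun k => aeval x' (E k)) * Ideal.span (Set.range x') ^ s := by
      have e : Ideal.span {μ} * Ideal.span (Set.range x') ^ n * Ideal.span (Set.range x') ^ s =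
          Ideal.span {μ} * Ideal.span (Set.range fun i => x' i ^ (s + n)) := by
        rw [NSi x' (s + n), mul_assoc, ← pow_add, add_comm n s]
      rw [e, Ideal.span_mul_span', Ideal.span_le]
      rintro _ ⟨a, ha, b, ⟨i, rfl⟩, rfl⟩
      rw [Set.mem_singleton_iff] at ha
      subst ha
      show a * x' i ^ (s + n) ∈ _
      rw [key' i]
      refine Ideal.sum_mem _ fun k _ => ?_
      have h2 : aeval x' (E k) ∈ Ideal.span (Set.range fun k => aeval x' (E k)) :=
        Ideal.subset_span (Set.mem_range_self k)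
      have h3 := Ideal.mul_mem_mul h2 (NS_mem x' (q i k) (hq i k))
      rwa [mul_comm (aeval x' (E k))] at h3
    exact NSc _ _ _ hJs h1 (Ideal.mul_mem_mul (Ideal.mem_span_singleton_self μ) hz)

end UVC
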