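import Pool.Agent.Lib.MP_17a322_ntU3.Defs
import Pool.Agent.Lib.MP_17a322_nt.VA.Z7

/-!
uv2 general form, leaf NSa: forms without common zero on `A`.
-/

universe u

namespace UVC

open NumberField UVB MvPolynomial
open Pool.Agent.Lib.MP_17a322_nt.VA

/-- Clearing the denominators of finitely many polynomials. -/
private theorem NSa_denom {K : Type u} [Field K] [NumberField K] {σ ι : Type*} [Finite ι]
    (Q : ι → MvPolynomial σ K) :
    ∃ (μ : 𝓞 K) (q : ι → MvPolynomial σ (𝓞 K)), μ ≠ 0 ∧
      ∀ i, map (algebraMap (𝓞 K) K) (q i) = C (algebraMap (𝓞 K) K μ) * Q i := by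
  classical
  cases nonempty_fintype ι
  obtain ⟨b, hb⟩ := IsLocalization.exist_integer_multiples_of_finset (nonZeroDivisors (𝓞 K))
    (Finset.univ.biUnion fun i => (Q i).support.image fun m => coeff m (Q i))
  have h1 : ∀ i, ∃ q : MvPolynomial σ (𝓞 K),
      map (algebraMap (𝓞 K) K) q = C (algebraMap (𝓞 K) K b) * Q i := by
    intro i
    have h2 : ∀ m, ∃ a : 𝓞 K, algebraMap (𝓞 K) K a = algebraMap (𝓞 K) K b * coeff m (Q i) := by
      intro m
      by_cases hm : m ∈ (Q i).support
      · obtain ⟨a, ha⟩ := hb (coeff m (Q i)) (Finset.mem_biUnion.2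
          ⟨i, Finset.mem_univ i, Finset.mem_image_of_mem _ hm⟩)
        refine ⟨a, ha.trans ?_⟩
        rw [Algebra.smul_def]
      · rw [notMem_support_iff] at hm
        exact ⟨0, by rw [hm, map_zero, mul_zero]⟩
    choose a ha using h2
    refine ⟨∑ m ∈ (Q i).support, monomial m (a m), ?_⟩
    rw [map_sum]
    conv_rhs => rw [(Q i).as_sum, Finset.mul_sum]
    refine Finset.sum_congr rfl fun m _ => ?_
    rw [map_monomial, ha, C_mul_monomial]
  choose q hq using h1
  exact ⟨b, q, nonZeroDivisors.coe_ne_zero b, hq⟩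

/-- Homogeneous components of the product with a form. -/
private theorem NSa_comp {K σ : Type*} [Field K] {e : MvPolynomial σ K} {n : ℕ}
    (he : e.IsHomogeneous n) (Q : MvPolynomial σ K) (s : ℕ) :
    homogeneousComponent (s + n) (Q * e) = homogeneousComponent s Q * e := by
  classical
  conv_lhs => rw [← sum_homogeneousComponent Q, Finset.sum_mul, map_sum]
  have h1 : ∀ j, homogeneousComponent (s + n) (homogeneousComponent j Q * e) =
      if s = j then homogeneousComponent j Q * e else 0 := by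
    intro j
    have h2 : (homogeneousComponent j Q * e).IsHomogeneous (j + n) :=
      (homogeneousComponent_isHomogeneous j Q).mul he
    rw [homogeneousComponent_of_mem h2]
    by_cases hj : s = j
    · rw [if_pos hj, if_pos (by rw [hj])]
    · rw [if_neg hj, if_neg (by omega)]
  rw [Finset.sum_congr rfl fun j _ => h1 j, Finset.sum_ite_eq]
  by_cases hs : s ∈ Finset.range (Q.totalDegree + 1)
  · rw [if_pos hs]
  · rw [if_neg hs, homogeneousComponent_eq_zero s Q (by
      rw [Finset.mem_range] at hs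
      omega), zero_mul]

/-- The coordinates are in the radical. -/
private theorem NSa_rad {K : Type u} [Field K] [NumberField K] {N p n : ℕ} (A : AV K N)
    (E : Fin p → MvPolynomial (Fin (N + 1)) (𝓞 K)) (hE : ∀ k, (E k).IsHomogeneous n)
    (hb : ∀ (L : Type u) [Field L] [Algebra K L] (P : A.Pts L), ∃ k, ev (E k) (A.x P) ≠ 0)
    (i : Fin (N + 1)) :
    (X i : MvPolynomial (Fin (N + 1)) K) ∈
      (A.I ⊔ Ideal.span (Set.range fun k => map (algebraMap (𝓞 K) K) (E k))).radical := by
  by_contra hcon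
  rw [Ideal.radical_eq_sInf, Submodule.mem_sInf] at hcon
  push Not at hcon
  obtain ⟨q, ⟨hJ, hq⟩, hX⟩ := hcon
  have := hq
  obtain ⟨x, hx⟩ : ∃ x : Fin (N + 1) → FractionRing (MvPolynomial (Fin (N + 1)) K ⧸ q),
      ∀ f : MvPolynomial (Fin (N + 1)) K, aeval x f =
        algebraMap (MvPolynomial (Fin (N + 1)) K ⧸ q)
          (FractionRing (MvPolynomial (Fin (N + 1)) K ⧸ q)) (Ideal.Quotient.mk q f) := by
    refine ⟨fun a => algebraMap (MvPolynomial (Fin (N + 1)) K ⧸ q)
      (FractionRing (MvPolynomial (Fin (N + 1)) K ⧸ q)) (Ideal.Quotient.mk q (X a)), fun f => ?_⟩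
    have h1 : (aeval fun a => algebraMap (MvPolynomial (Fin (N + 1)) K ⧸ q)
        (FractionRing (MvPolynomial (Fin (N + 1)) K ⧸ q)) (Ideal.Quotient.mk q (X a))) =
        ((IsScalarTower.toAlgHom K (MvPolynomial (Fin (N + 1)) K ⧸ q)
          (FractionRing (MvPolynomial (Fin (N + 1)) K ⧸ q))).comp (Ideal.Quotient.mkₐ K q)) := by
      refine algHom_ext fun a => ?_
      rw [aeval_X]
      rfl
    rw [h1]
    rfl
  have hzero : ∀ f ∈ q, aeval x f = 0 := by
    intro f hf
    rw [hx, Ideal.Quotient.eq_zero_iff_mem.2 hf, map_zero]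
  have hx0 : x ≠ 0 := by
    rintro rfl
    apply hX
    have h1 := hx (X i)
    rw [aeval_X, Pi.zero_apply] at h1
    rw [← Ideal.Quotient.eq_zero_iff_mem]
    exact IsFractionRing.injective (MvPolynomial (Fin (N + 1)) K ⧸ q)
      (FractionRing (MvPolynomial (Fin (N + 1)) K ⧸ q)) (by rw [← h1, map_zero])
  have hxP : A.IsPt x := fun f hf => hzero f (hJ (Ideal.mem_sup_left hf))
  obtain ⟨P, c, hc, hP⟩ := Z_exists_pt A hx0 hxP
  obtain ⟨k, hk⟩ := hb _ P
  apply hk
  have h1 : A.x P = fun a => c * x a := funext hP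
  unfold ev
  rw [h1, Z_aeval_smul ((hE k).map _), hzero _ (hJ (Ideal.mem_sup_right
    (Ideal.subset_span ⟨k, rfl⟩))), mul_zero]

/-- A power of each coordinate is a combination, on `A`, of the forms without common zero.

PROOF.  Let `J = A.I + (E_k)` in `K[X_0, .., X_N]` (`E_k` mapped to `K`) and suppose that `X i` is not in the radical of `J`.  Then there is a
prime ideal `𝔮 ⊇ J` with `X i ∉ 𝔮` (`Ideal.radical_eq_sInf`); let `L` be the field of fractions of `K[X] / 𝔮` (`Type u`), `x a` the class of `X a`: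
`x ≠ 0`, `A.IsPt x`, all `aeval x (E_k) = 0`.  By `Z_exists_pt` (VA/Z5, or Z2 or Z3 there; the vector gives a point `P` of `A` over `L` with
`A.x P` proportional to `x`) and homogeneity all `ev (E k) (A.x P) = 0`, a contradiction.  So `X i ^ s = f + ∑ k, q_k E_k`, `f ∈ A.I`; if it holds for
`s` then for all larger `s`, so one `s ≥ n` for all `i`; take homogeneous components of degree `s` (`A.homog`, `homogeneousComponent` of a product with a
homogeneous `E_k`): `q_k` homogeneous of degree `s - n`; multiply by a common denominator `μ ≠ 0` of all coefficients of all `q_{i k}`. -/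
theorem NSa {K : Type u} [Field K] [NumberField K] {N p n : ℕ} (A : AV K N)
    (E : Fin p → MvPolynomial (Fin (N + 1)) (𝓞 K)) (hE : ∀ k, (E k).IsHomogeneous n)
    (hb : ∀ (L : Type u) [Field L] [Algebra K L] (P : A.Pts L), ∃ k, ev (E k) (A.x P) ≠ 0) :
    ∃ (μ : 𝓞 K) (s : ℕ) (q : Fin (N + 1) → Fin p → MvPolynomial (Fin (N + 1)) (𝓞 K)),
      μ ≠ 0 ∧ (∀ i k, (q i k).IsHomogeneous s) ∧ ∀ i,
        C (algebraMap (𝓞 K) K μ) * X i ^ (s + n) -
          ∑ k, map (algebraMap (𝓞 K) K) (q i k * E k) ∈ A.I := by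
  classical
  have he : ∀ k, (map (algebraMap (𝓞 K) K) (E k)).IsHomogeneous n := fun k => (hE k).map _
  choose t ht using fun i => NSa_rad A E hE hb i
  obtain ⟨s, hs⟩ : ∃ s, ∀ i, t i ≤ s + n := ⟨∑ i, t i, fun i =>
    (Finset.single_le_sum (fun j _ => Nat.zero_le (t j)) (Finset.mem_univ i)).trans
      (Nat.le_add_right _ _)⟩
  have h1 : ∀ i, ∃ Q : Fin p → MvPolynomial (Fin (N + 1)) K, (∀ k, (Q k).IsHomogeneous s) ∧
      X i ^ (s + n) - ∑ k, Q k * map (algebraMap (𝓞 K) K) (E k) ∈ A.I := by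
    intro i
    have h2 := Ideal.mul_mem_left (A.I ⊔ Ideal.span (Set.range fun k =>
      map (algebraMap (𝓞 K) K) (E k))) (X i ^ (s + n - t i)) (ht i)
    rw [← pow_add, Nat.sub_add_cancel (hs i)] at h2
    obtain ⟨f, hf, g, hg, hfg⟩ := Submodule.mem_sup.1 h2
    obtain ⟨Q, hQ⟩ := Ideal.mem_span_range_iff_exists_fun.1 hg
    refine ⟨fun k => homogeneousComponent s (Q k), fun k =>
      homogeneousComponent_isHomogeneous s (Q k), ?_⟩
    have h3 : homogeneousComponent (s + n) (X i ^ (s + n) : MvPolynomial (Fin (N + 1)) K) =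
        X i ^ (s + n) := by
      have h4 := (isHomogeneous_X K i).pow (s + n)
      rw [one_mul] at h4
      rw [homogeneousComponent_of_mem h4, if_pos rfl]
    have h5 : X i ^ (s + n) - ∑ k, homogeneousComponent s (Q k) *
        map (algebraMap (𝓞 K) K) (E k) = homogeneousComponent (s + n) f := by
      rw [← h3, ← hfg, map_add, ← hQ, map_sum,
        Finset.sum_congr rfl fun k _ => NSa_comp (he k) (Q k) s]
      ring
    rw [h5]
    exact A.homog f hf _
  choose Q hQh hQ using h1
  obtain ⟨μ, q, hμ, hq⟩ := NSa_denom fun z : Fin (N + 1) × Fin p => Q z.1 z.2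
  refine ⟨μ, s, fun i k => q (i, k), hμ, fun i k => ?_, fun i => ?_⟩
  · refine IsHomogeneous.of_map (FaithfulSMul.algebraMap_injective (𝓞 K) K) ?_
    rw [hq]
    have h2 := (isHomogeneous_C (Fin (N + 1)) (algebraMap (𝓞 K) K μ)).mul (hQh i k)
    rwa [zero_add] at h2
  · have h2 := Ideal.mul_mem_left A.I (C (algebraMap (𝓞 K) K μ)) (hQ i)
    rw [mul_sub, Finset.mul_sum] at h2
    have h3 : ∀ k, map (algebraMap (𝓞 K) K) (q (i, k) * E k) =
        C (algebraMap (𝓞 K) K μ) * (Q i k * map (algebraMap (𝓞 K) K) (E k)) := by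
      intro k
      rw [map_mul, hq, mul_assoc]
    rw [Finset.sum_congr rfl fun k _ => h3 k]
    exact h2

end UVC
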