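import Pool.Agent.Lib.MP_17a322_ntU2.T0
import Pool.Agent.Lib.MP_17a322_ntU2.T1
import Pool.Agent.Lib.MP_17a322_ntU2.T3a

/-!
uv2 general form, leaf T3: values of a random linear form at a finite place.
-/

universe u

namespace UVC

open NumberField UVB

private theorem T3_le_one {K : Type u} [Field K] [NumberField K] (v : FinitePlace K) (y : 𝓞 K) :
    v (algebraMap (𝓞 K) K y) ≤ 1 := by
  rw [← NumberField.FinitePlace.norm_embedding_eq]
  exact FinitePlace.norm_le_one _ _ y

private theorem T3_int {K : Type u} [Field K] [NumberField K] (v : FinitePlace K) (m : ℤ) :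
    v (m : K) ≤ 1 := by
  have h := T3_le_one v (m : 𝓞 K)
  rwa [map_intCast] at h

private theorem T3_add {K : Type u} [Field K] [NumberField K] (v : FinitePlace K) (a b : K) :
    v (a + b) ≤ max (v a) (v b) := FinitePlace.add_le v a b

private theorem T3_sub {K : Type u} [Field K] [NumberField K] (v : FinitePlace K) (a b : K) :
    v (a - b) ≤ max (v a) (v b) := by
  have h := T3_add v a (-b)
  have h1 : v (-b) = v b := by
    rw [NumberField.FinitePlace.coe_apply, NumberField.FinitePlace.coe_apply]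
    exact AbsoluteValue.map_neg _ b
  rwa [h1, ← sub_eq_add_neg] at h

private theorem T3_basis {K : Type u} [Field K] [NumberField K] {e : ℕ}
    (ω : Module.Basis (Fin e) ℤ (𝓞 K)) (v : FinitePlace K) :
    ∃ k₀, v (algebraMap (𝓞 K) K (ω k₀)) = 1 := by
  by_contra hcon
  push Not at hcon
  have hlt : ∀ k, v (algebraMap (𝓞 K) K (ω k)) < 1 := fun k =>
    lt_of_le_of_ne (T3_le_one v _) (hcon k)
  have h1 : ∀ (c : Fin e → ℤ) (s : Finset (Fin e)),
      v (algebraMap (𝓞 K) K (∑ k ∈ s, c k • ω k)) < 1 := by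
    intro c s
    classical
    induction s using Finset.induction_on with
    | empty =>
      rw [Finset.sum_empty, map_zero, map_zero]
      exact one_pos
    | insert a s ha ih =>
      rw [Finset.sum_insert ha, map_add]
      refine lt_of_le_of_lt (T3_add v _ _) (max_lt ?_ ih)
      rw [zsmul_eq_mul, map_mul, map_intCast, map_mul]
      calc v ((c a : ℤ) : K) * v (algebraMap (𝓞 K) K (ω a))
          ≤ 1 * v (algebraMap (𝓞 K) K (ω a)) :=
            mul_le_mul_of_nonneg_right (T3_int v _) (apply_nonneg _ _)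
        _ < 1 := by rw [one_mul]; exact hlt a
  have h2 := h1 (fun k => ω.repr 1 k) Finset.univ
  rw [ω.sum_repr, map_one, map_one] at h2
  exact lt_irrefl _ h2

private theorem T3_ck_sub {K : Type u} [Field K] [NumberField K] {e : ℕ}
    (ω : Module.Basis (Fin e) ℤ (𝓞 K)) {ι : Type} (a b : ι × Fin e → ℤ) (i : ι) :
    ck ω (a - b) i = ck ω a i - ck ω b i := by
  unfold ck co
  rw [← map_sub, ← Finset.sum_sub_distrib]
  refine congrArg _ (Finset.sum_congr rfl fun k _ => ?_)
  rw [Pi.sub_apply, sub_smul]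

open Classical in
private theorem T3_ck_single {K : Type u} [Field K] [NumberField K] {e : ℕ}
    (ω : Module.Basis (Fin e) ℤ (𝓞 K)) {ι : Type} (i₁ : ι) (k₀ : Fin e) (b : ℤ) (i : ι) :
    ck ω (Pi.single (i₁, k₀) b) i = if i = i₁ then (b : K) * algebraMap (𝓞 K) K (ω k₀) else 0 := by
  unfold ck co
  by_cases h : i = i₁
  · subst h
    rw [if_pos rfl, Finset.sum_eq_single k₀]
    · rw [Pi.single_eq_same, zsmul_eq_mul, map_mul, map_intCast]
    · intro k _ hk
      rw [Pi.single_eq_of_ne (fun h2 => hk (Prod.ext_iff.1 h2).2), zero_smul]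
    · intro h2
      exact absurd (Finset.mem_univ _) h2
  · rw [if_neg h, Finset.sum_eq_zero, map_zero]
    intro k _
    rw [Pi.single_eq_of_ne (fun h2 => h (Prod.ext_iff.1 h2).1), zero_smul]

/-- ONE FINITE PLACE.  UVB.T3 (file MP_17a322_ntU2/T3.lean, done by helper14) with the vector of the monomials replaced by ANY vector
`y ≠ 0` and an arbitrary constant term `y₀`: same proof. -/
theorem T3 {K : Type u} [Field K] [NumberField K] {p e : ℕ} (ω : Module.Basis (Fin e) ℤ (𝓞 K))
    (v : FinitePlace K) {ι : Type} [Fintype ι] (em : Fin p → ι)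
    (hem : Function.Injective em) : ∃ C : ℝ, 0 ≤ C ∧ ∀ (y : Fin p → K) (y₀ : K), y ≠ 0 →
      ∀ (H : ℕ) (u : ℝ), 1 ≤ H → 0 ≤ u →
        (cnt H (fun a : ι × Fin e → ℤ => v (y₀ + ∑ k, ck ω a (em k) * y k) ≤
          Real.exp (-u) * ⨆ k, v (y k)) : ℝ) ≤
            C * (Real.exp (-(u / Module.finrank ℚ K)) + 1 / H) *
              (H : ℝ) ^ (Fintype.card ι * e) := by
  classical
  obtain ⟨k₀, hk₀⟩ := T3_basis ω v
  refine ⟨4 ^ (Fintype.card ι * e), by positivity, fun x y₀ hx H u hH hu => ?_⟩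
  have hne : Nonempty (Fin p) := by
    obtain ⟨j, _⟩ := Function.ne_iff.1 hx
    exact ⟨j⟩
  obtain ⟨μ₀, hμ₀⟩ := exists_eq_ciSup_of_finite (f := fun i => v (x i))
  have hM : 0 < v (x μ₀) := by
    obtain ⟨j, hj⟩ := Function.ne_iff.1 hx
    have h1 : 0 < v (x j) := NumberField.FinitePlace.pos_iff.2 hj
    have h2 : v (x j) ≤ ⨆ i, v (x i) := le_ciSup (Set.finite_range fun i => v (x i)).bddAbove j
    rw [← hμ₀] at h2
    exact lt_of_lt_of_le h1 h2
  set D : ℕ := Module.finrank ℚ K with hD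
  have hD0 : 0 < D := Module.finrank_pos
  have hD1 : (0 : ℝ) < (D : ℝ) := by exact_mod_cast hD0
  set E : ℝ := Real.exp (u / D) with hE
  have hE1 : 1 ≤ E := Real.one_le_exp (by positivity)
  have hE0 : 0 < E := by linarith
  have hED : E ^ D = Real.exp u := by
    rw [hE, ← Real.exp_nat_mul]
    congr 1
    field_simp
  set s : ℕ := ⌈E⌉₊ with hs
  have hs1 : 1 ≤ s := Nat.one_le_ceil_iff.2 hE0
  have hsE : E ≤ (s : ℝ) := Nat.le_ceil E
  have hsE2 : (s : ℝ) < E + 1 := Nat.ceil_lt_add_one hE0.le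
  set q : ℕ := min (H + 1) s with hq
  have hq1 : 1 ≤ q := le_min (by omega) hs1
  have hqs : q ≤ s := min_le_right _ _
  have hqH : q ≤ H + 1 := min_le_left _ _
  set P : (ι × Fin e → ℤ) → Prop := fun a => v (y₀ + ∑ k, ck ω a (em k) * x k) ≤
          Real.exp (-u) * ⨆ k, v (x k) with hP
  set sg : ℕ → (ι × Fin e → ℤ) := fun a => Pi.single (em μ₀, k₀) (a : ℤ) with hsg
  have hinj : Function.Injective sg := by
    intro a b hab
    have h1 := Pi.single_injective (em μ₀, k₀) hab
    exact_mod_cast h1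
  have hval : ∀ (y : ι × Fin e → ℤ) (a : ℕ),
      y₀ + ∑ k, ck ω (y - sg a) (em k) * x k =
        (y₀ + ∑ k, ck ω y (em k) * x k) - ((a : ℤ) : K) * algebraMap (𝓞 K) K (ω k₀) * x μ₀ := by
    intro y a
    have h1 : ∀ μ, ck ω (y - sg a) (em μ) * x μ =
        ck ω y (em μ) * x μ -
          (if μ = μ₀ then ((a : ℤ) : K) * algebraMap (𝓞 K) K (ω k₀) * x μ else 0) := by
      intro μ
      rw [T3_ck_sub, hsg]
      simp only
      rw [T3_ck_single]
      by_cases h : μ = μ₀
      · rw [if_pos h, if_pos (congrArg em h), sub_mul]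
      · rw [if_neg h, if_neg fun h2 => h (hem h2), sub_zero, sub_zero]
    rw [Finset.sum_congr rfl fun μ _ => h1 μ, Finset.sum_sub_distrib, Finset.sum_ite_eq' Finset.univ μ₀,
      if_pos (Finset.mem_univ _)]
    ring
  have hT := T1 H P ((Finset.range q).image sg) (by
    intro r hr i
    obtain ⟨a, ha, rfl⟩ := Finset.mem_image.1 hr
    have ha2 := Finset.mem_range.1 ha
    rw [hsg]
    simp only
    by_cases h : i = (em μ₀, k₀)
    · rw [h, Pi.single_eq_same]
      constructor
      · positivity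
      · have h3 : a ≤ H := by omega
        exact_mod_cast h3
    · rw [Pi.single_eq_of_ne h]
      constructor
      · exact le_refl _
      · positivity) 1 (by
    intro y
    have : Finite {r : ι × Fin e → ℤ // r ∈ (Finset.range q).image sg ∧ P (y - r)} :=
      Set.Finite.subset (Finset.finite_toSet ((Finset.range q).image sg)) (fun r hr => hr.1)
    rw [Finite.card_le_one_iff_subsingleton]
    refine ⟨fun r r' => ?_⟩
    obtain ⟨r, hr, hpr⟩ := r
    obtain ⟨r', hr', hpr'⟩ := r'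
    obtain ⟨a, ha, rfl⟩ := Finset.mem_image.1 hr
    obtain ⟨a', ha', rfl⟩ := Finset.mem_image.1 hr'
    have ha2 := Finset.mem_range.1 ha
    have ha2' := Finset.mem_range.1 ha'
    by_cases haa : a = a'
    · subst haa
      rfl
    exfalso
    have hpr1 : v (y₀ + ∑ k, ck ω (y - sg a) (em k) * x k) ≤ Real.exp (-u) * v (x μ₀) := by
      rw [hμ₀]
      exact hpr
    have hpr1' : v (y₀ + ∑ k, ck ω (y - sg a') (em k) * x k) ≤ Real.exp (-u) * v (x μ₀) := by
      rw [hμ₀]
      exact hpr'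
    rw [hval] at hpr1 hpr1'
    set m : ℤ := (a : ℤ) - (a' : ℤ) with hm
    have hm0 : m ≠ 0 := by omega
    have h1 := T3_sub v
      ((y₀ + ∑ k, ck ω y (em k) * x k) - ((a' : ℤ) : K) * algebraMap (𝓞 K) K (ω k₀) * x μ₀)
      ((y₀ + ∑ k, ck ω y (em k) * x k) - ((a : ℤ) : K) * algebraMap (𝓞 K) K (ω k₀) * x μ₀)
    have h2 : ((y₀ + ∑ k, ck ω y (em k) * x k) - ((a' : ℤ) : K) * algebraMap (𝓞 K) K (ω k₀) * x μ₀) -
      ((y₀ + ∑ k, ck ω y (em k) * x k) - ((a : ℤ) : K) * algebraMap (𝓞 K) K (ω k₀) * x μ₀) =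
      (m : K) * algebraMap (𝓞 K) K (ω k₀) * x μ₀ := by
      rw [hm]
      push_cast
      ring
    rw [h2, map_mul, map_mul, hk₀, mul_one] at h1
    have h3 : v (m : K) * v (x μ₀) ≤ Real.exp (-u) * v (x μ₀) :=
      h1.trans (max_le hpr1' hpr1)
    have h4 : v (m : K) ≤ Real.exp (-u) := le_of_mul_le_mul_right h3 hM
    have h5 := T3a v m hm0
    have h6 : |(m : ℝ)| < E := by
      have h7 : |m| ≤ (s : ℤ) - 1 := by
        rw [abs_le]
        constructor <;> omega
      have h8 : ((|m| : ℤ) : ℝ) ≤ (((s : ℤ) - 1 : ℤ) : ℝ) := by exact_mod_cast h7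
      rw [Int.cast_abs] at h8
      push_cast at h8
      linarith
    have h9 : |(m : ℝ)| ^ D < E ^ D := pow_lt_pow_left₀ h6 (abs_nonneg _) hD0.ne'
    rw [hED] at h9
    have h10 : v (m : K) * |(m : ℝ)| ^ D ≤ Real.exp (-u) * |(m : ℝ)| ^ D :=
      mul_le_mul_of_nonneg_right h4 (by positivity)
    have h11 : Real.exp (-u) * |(m : ℝ)| ^ D < Real.exp (-u) * Real.exp u :=
      mul_lt_mul_of_pos_left h9 (Real.exp_pos _)
    rw [← Real.exp_add, neg_add_cancel, Real.exp_zero] at h11
    linarith)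
  rw [Finset.card_image_of_injective _ hinj, Finset.card_range, one_mul, Fintype.card_prod,
    Fintype.card_fin] at hT
  have hTr : (q : ℝ) * (cnt H P : ℝ) ≤ (4 : ℝ) ^ (Fintype.card ι * e) * (H : ℝ) ^ (Fintype.card ι * e) := by
    have h1 : ((q * cnt H P : ℕ) : ℝ) ≤ (((3 * H + 1) ^ (Fintype.card ι * e) : ℕ) : ℝ) := by
      exact_mod_cast hT
    push_cast at h1
    refine h1.trans ?_
    rw [← mul_pow]
    have h2 : (1 : ℝ) ≤ (H : ℝ) := by exact_mod_cast hH
    exact pow_le_pow_left₀ (by positivity) (by linarith) _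
  have hq0 : (0 : ℝ) < (q : ℝ) := by exact_mod_cast hq1
  have hH0 : (0 : ℝ) < (H : ℝ) := by exact_mod_cast hH
  have hqi : 1 / (q : ℝ) ≤ Real.exp (-(u / D)) + 1 / H := by
    have hexp : Real.exp (-(u / D)) = 1 / E := by rw [Real.exp_neg, one_div]
    rw [hexp]
    rcases min_choice (H + 1) s with h | h
    · have h1 : (q : ℝ) = (H : ℝ) + 1 := by
        rw [hq, h]
        push_cast
        ring
      have h2 : 1 / (q : ℝ) ≤ 1 / H := by
        rw [h1]
        exact one_div_le_one_div_of_le hH0 (by linarith)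
      have h3 : 0 < 1 / E := by positivity
      linarith
    · have h1 : (q : ℝ) = (s : ℝ) := by rw [hq, h]
      have h2 : 1 / (q : ℝ) ≤ 1 / E := by
        rw [h1]
        exact one_div_le_one_div_of_le hE0 hsE
      have h3 : 0 < 1 / (H : ℝ) := by positivity
      linarith
  have hcnt : (cnt H P : ℝ) ≤ (4 : ℝ) ^ (Fintype.card ι * e) * (H : ℝ) ^ (Fintype.card ι * e) * (1 / q) := by
    rw [mul_one_div, le_div_iff₀ hq0]
    linarith
  refine hcnt.trans ?_
  calc (4 : ℝ) ^ (Fintype.card ι * e) * (H : ℝ) ^ (Fintype.card ι * e) * (1 / q)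
      ≤ (4 : ℝ) ^ (Fintype.card ι * e) * (H : ℝ) ^ (Fintype.card ι * e) * (Real.exp (-(u / D)) + 1 / H) :=
        mul_le_mul_of_nonneg_left hqi (by positivity)
    _ = (4 : ℝ) ^ (Fintype.card ι * e) * (Real.exp (-(u / D)) + 1 / H) * (H : ℝ) ^ (Fintype.card ι * e) := by
        ring

end UVC
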