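import Pool.Agent.Lib.MP_17a322_ntU3.T2
import Pool.Agent.Lib.MP_17a322_ntU3.T3
import Pool.Agent.Lib.MP_17a322_ntU3.G6
import Pool.Agent.Lib.MP_17a322_ntU2.Q1a

/-!
uv2 general form, leaf Q1: one point.
-/

universe u

namespace UVC

open NumberField Height UVB

private theorem Q1_le {K : Type u} [Field K] {κ : Type} [Finite κ] (v : AbsoluteValue K ℝ) (y : κ → K) (i : κ) :
    v (y i) ≤ ⨆ i, v (y i) := le_ciSup (f := fun i => v (y i)) (Set.finite_range _).bddAbove i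

private theorem Q1_pos {K : Type u} [Field K] {κ : Type} [Finite κ] (v : AbsoluteValue K ℝ) (y : κ → K) (hy : y ≠ 0) :
    0 < ⨆ i, v (y i) := by
  obtain ⟨i, hi⟩ := Function.ne_iff.1 hy
  exact lt_of_lt_of_le (v.pos hi) (Q1_le v y i)

private theorem Q1_fp {K : Type u} [Field K] [NumberField K] {κ : Type} (c : κ → K)
    (hc : ∀ v : FinitePlace K, (⨆ i, v (c i)) ≤ 1) : FP c ≤ 0 := by
  unfold FP
  have h := finprod_induction (fun y : ℝ => 0 ≤ y ∧ y ≤ 1) (f := fun v : FinitePlace K => ⨆ i, v (c i))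
    ⟨zero_le_one, le_rfl⟩ (fun x y hx hy => ⟨mul_nonneg hx.1 hy.1, mul_le_one₀ hx.2 hy.1 hy.2⟩)
    (fun v => ⟨Real.iSup_nonneg fun i => v.val.nonneg _, hc v⟩)
  exact Real.log_nonpos h.1 h.2

/-- the vector `(1, c)` -/
private theorem Q1_one {K : Type u} [Field K] {κ : Type} [Finite κ] (v : AbsoluteValue K ℝ) (c : κ → K) (B : ℝ)
    (hB : 1 ≤ B) (hc : (⨆ i, v (c i)) ≤ B) : (⨆ i, v (one c i)) ≤ B := by
  refine ciSup_le fun i => ?_
  rcases i with i | i
  · show v 1 ≤ B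
    rw [map_one]
    exact hB
  · exact (Q1_le v c i).trans hc

private theorem Q1_one_ne {K : Type u} [Field K] {κ : Type} (c : κ → K) : one c ≠ 0 := by
  intro h
  have h1 := congrFun h (Sum.inl ())
  exact one_ne_zero h1

/-- the deterministic part -/
private theorem Q1_det {K : Type u} [Field K] [NumberField K] {N r d D : ℕ} (Φ : Fam K N r d D)
    (S : Finset (FinitePlace K)) {C₀ : ℝ} (hC₀ : 1 ≤ C₀) {H : ℕ} (hH : 1 ≤ H) {c : Φ.Ix → K} {x : Fin (N + 1) → K}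
    (hx : x ≠ 0) (j₀ : Fin r) {s s₂ W : ℝ} {μ : K} (hμ : μ ≠ 0)
    (hc1 : ∀ v : InfinitePlace K, (⨆ i, v (one c i)) ≤ C₀ * H) (hc2 : ∀ v : FinitePlace K, (⨆ i, v (one c i)) ≤ 1)
    (h1 : ∀ v : InfinitePlace K, Real.exp (-s₂) * H * (⨆ i, v (x i)) ^ d < v (Φ.g c x j₀))
    (h2 : ∀ v : InfinitePlace K, Real.exp (-s₂) * H * (⨆ i, v (x i)) ^ D < v (Φ.f c x))
    (h3 : ∀ v ∈ S, Real.exp (-s) * (v μ * (⨆ i, v (x i)) ^ D) < v (Φ.f c x))
    (h4 : (∃ j, Φ.g c x j ≠ 0) ∧ d * FP x - FP (Φ.g c x) ≤ s)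
    (hW : 2 * (Module.finrank ℚ K : ℝ) * (Real.log C₀ + s₂) + s + (S.card * s + ∑ v ∈ S, -Real.log (v μ)) ≤ W) :
    Φ.Ok S W c x := by
  have hH0 : (0 : ℝ) < H := by exact_mod_cast (by omega : 0 < H)
  have hC0 : 0 < C₀ := by linarith
  obtain ⟨v₀⟩ : Nonempty (InfinitePlace K) := inferInstance
  have hXp : ∀ v : AbsoluteValue K ℝ, 0 < ⨆ i, v (x i) := fun v => Q1_pos v x hx
  have hh : Φ.f c x ≠ 0 := by
    intro h0
    have h5 := h2 v₀
    rw [h0, map_zero] at h5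
    have h6 : 0 ≤ Real.exp (-s₂) * H * (⨆ i, v₀ (x i)) ^ D :=
      mul_nonneg (mul_nonneg (Real.exp_pos _).le hH0.le) (pow_nonneg (hXp v₀.val).le _)
    linarith
  have hc : one c ≠ 0 := Q1_one_ne c
  have hg : Φ.g c x ≠ 0 := by
    obtain ⟨j, hj⟩ := h4.1
    exact Function.ne_iff.2 ⟨j, hj⟩
  have hsum : ∑ v : InfinitePlace K, (v.mult : ℝ) = Module.finrank ℚ K := by
    have h5 := InfinitePlace.sum_mult_eq (K := K)
    exact_mod_cast h5
  -- logarithms of the lower bounds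
  have hlog : ∀ (n : ℕ) (v : InfinitePlace K) (t : ℝ), Real.exp (-s₂) * H * (⨆ i, v (x i)) ^ n < t →
      -s₂ + Real.log H + n * Real.log (⨆ i, v (x i)) ≤ Real.log t := by
    intro n v t ht
    have hXv : 0 < ⨆ i, v (x i) := hXp v.val
    have h5 : Real.log (Real.exp (-s₂) * H * (⨆ i, v (x i)) ^ n) =
        -s₂ + Real.log H + n * Real.log (⨆ i, v (x i)) := by
      rw [Real.log_mul (mul_pos (Real.exp_pos _) hH0).ne' (pow_pos hXv _).ne', Real.log_mul (Real.exp_pos _).ne' hH0.ne',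
        Real.log_exp, Real.log_pow]
    rw [← h5]
    exact Real.log_le_log (mul_pos (mul_pos (Real.exp_pos _) hH0) (pow_pos hXv _)) ht.le
  have hcl : ∀ v : InfinitePlace K, Real.log (⨆ i, v (one c i)) ≤ Real.log C₀ + Real.log H := by
    intro v
    rw [← Real.log_mul hC0.ne' hH0.ne']
    exact Real.log_le_log (Q1_pos v.val (one c) hc) (hc1 v)
  -- the heights
  have e1 : (d * Height.logHeight x + Height.logHeight (one c) - Height.logHeight (Φ.g c x)) ≤
      Module.finrank ℚ K * (Real.log C₀ + s₂) + s := by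
    rw [logHeight_eq x hx, logHeight_eq (one c) hc, logHeight_eq (Φ.g c x) hg]
    have h5 : ∀ v : InfinitePlace K, (v.mult : ℝ) * (d * Real.log (⨆ i, v (x i)) + Real.log (⨆ i, v (one c i)) -
        Real.log (⨆ j, v (Φ.g c x j))) ≤ v.mult * (Real.log C₀ + s₂) := by
      intro v
      refine mul_le_mul_of_nonneg_left ?_ (Nat.cast_nonneg _)
      have h6 := hlog d v _ (h1 v)
      have h7 : Real.log (v (Φ.g c x j₀)) ≤ Real.log (⨆ j, v (Φ.g c x j)) := by
        refine Real.log_le_log ?_ (Q1_le v.val (Φ.g c x) j₀)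
        refine lt_of_le_of_lt ?_ (h1 v)
        exact mul_nonneg (mul_nonneg (Real.exp_pos _).le hH0.le) (pow_nonneg (hXp v.val).le _)
      linarith [hcl v]
    have h8 := Finset.sum_le_sum fun (v : InfinitePlace K) (_ : v ∈ Finset.univ) => h5 v
    rw [← Finset.sum_mul, hsum] at h8
    have h9 : ∑ v : InfinitePlace K, (v.mult : ℝ) * (d * Real.log (⨆ i, v (x i)) + Real.log (⨆ i, v (one c i)) -
        Real.log (⨆ j, v (Φ.g c x j))) = d * ∑ v : InfinitePlace K, (v.mult : ℝ) * Real.log (⨆ i, v (x i)) +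
        ∑ v : InfinitePlace K, (v.mult : ℝ) * Real.log (⨆ i, v (one c i)) -
        ∑ v : InfinitePlace K, (v.mult : ℝ) * Real.log (⨆ j, v (Φ.g c x j)) := by
      rw [Finset.mul_sum, ← Finset.sum_add_distrib, ← Finset.sum_sub_distrib]
      exact Finset.sum_congr rfl fun v _ => by ring
    rw [h9] at h8
    have h10 := Q1_fp (one c) hc2
    have h11 := h4.2
    linarith
  have e2 : ∑ v : InfinitePlace K, (v.mult : ℝ) * Φ.lam c x v.val ≤ Module.finrank ℚ K * (Real.log C₀ + s₂) := by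
    have h5 : ∀ v : InfinitePlace K, (v.mult : ℝ) * Φ.lam c x v.val ≤ v.mult * (Real.log C₀ + s₂) := by
      intro v
      refine mul_le_mul_of_nonneg_left ?_ (Nat.cast_nonneg _)
      have h6 := hlog D v _ (h2 v)
      show D * Real.log (⨆ i, v (x i)) + Real.log (⨆ i, v (one c i)) - Real.log (v (Φ.f c x)) ≤ _
      linarith [hcl v]
    have h8 := Finset.sum_le_sum fun (v : InfinitePlace K) (_ : v ∈ Finset.univ) => h5 v
    rw [← Finset.sum_mul, hsum] at h8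
    exact h8
  have e3 : ∑ v ∈ S, Φ.lam c x v.val ≤ S.card * s + ∑ v ∈ S, -Real.log (v μ) := by
    have h5 : ∀ v ∈ S, Φ.lam c x v.val ≤ s + -Real.log (v μ) := by
      intro v hv'
      have h6 := h3 v hv'
      have hXv : 0 < ⨆ i, v (x i) := hXp v.val
      have hμv : 0 < v μ := v.val.pos hμ
      have h7 : Real.log (Real.exp (-s) * (v μ * (⨆ i, v (x i)) ^ D)) =
          -s + (Real.log (v μ) + D * Real.log (⨆ i, v (x i))) := by
        rw [Real.log_mul (Real.exp_pos _).ne' (mul_pos hμv (pow_pos hXv _)).ne', Real.log_exp,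
          Real.log_mul hμv.ne' (pow_pos hXv _).ne', Real.log_pow]
      have h8 := Real.log_le_log (mul_pos (Real.exp_pos _) (mul_pos hμv (pow_pos hXv _))) h6.le
      rw [h7] at h8
      have h9 : Real.log (⨆ i, v (one c i)) ≤ 0 :=
        Real.log_nonpos (Real.iSup_nonneg fun i => v.val.nonneg _) (hc2 v)
      show D * Real.log (⨆ i, v (x i)) + Real.log (⨆ i, v (one c i)) - Real.log (v (Φ.f c x)) ≤ _
      linarith
    refine (Finset.sum_le_sum h5).trans (le_of_eq ?_)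
    rw [Finset.sum_add_distrib, Finset.sum_const, nsmul_eq_mul]
  refine ⟨hh, h4.1, ?_⟩
  refine le_trans ?_ hW
  linarith

/-- passing from the values of the forms to the point -/
private theorem Q1_pass {s C₂ X E y : ℝ} {H n : ℕ} (hC₂ : 1 ≤ C₂) (hn : X ^ n ≤ C₂ * E)
    (h : Real.exp (-s) * H * E < y) : Real.exp (-(s + Real.log C₂)) * H * X ^ n < y := by
  have hC : 0 < C₂ := by linarith
  refine lt_of_le_of_lt ?_ h
  have e1 : Real.exp (-(s + Real.log C₂)) = Real.exp (-s) * C₂⁻¹ := by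
    rw [neg_add, Real.exp_add, Real.exp_neg (Real.log C₂), Real.exp_log hC]
  have e2 : C₂⁻¹ * X ^ n ≤ E := by
    rw [inv_mul_le_iff₀ hC]
    exact hn
  have e3 : 0 ≤ Real.exp (-s) * H := mul_nonneg (Real.exp_pos _).le (Nat.cast_nonneg _)
  calc Real.exp (-(s + Real.log C₂)) * H * X ^ n = Real.exp (-s) * H * (C₂⁻¹ * X ^ n) := by rw [e1]; ring
    _ ≤ Real.exp (-s) * H * E := mul_le_mul_of_nonneg_left e2 e3

/-- ONE POINT.  UVB.Q1 (file MP_17a322_ntU2/Q1.lean, done by helper71) for a family.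

PROOF.  Let `c = ck ω a`, `a` in the box, `s ≥ 0`, `t = one c`; `1 ≤ ⨆ v (t i) ≤ C H` at the infinite places and `⨆ v (t i) = 1` at the finite ones (UVB.Q1a,
`H ≥ 1`).  The bad events: (1) for an infinite place `v`: `v (g_0 (x)) ≤ exp (-s) H ⨆_k v (E_0k (x))` (T2 with `em k = inl (0, k)`); (2) for an infinite place `v`:
`v (f (x)) ≤ exp (-s) H ⨆_k v (E'_k (x))` (T2 with `em = inr`); (3) for `v ∈ S`: `v (f (x)) ≤ exp (-s) ⨆_k v (E'_k (x))` (T3); (4) the event of G6 with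
`u = s`.  By `Nz`: `⨆_k v (E_0k (x)) ≥ |x|_v ^ d / C'`, `⨆_k v (E'_k (x)) ≥ |x|_v ^ D / C'` at the infinite places (so the vectors are not zero) and
`⨆_k v (E'_k (x)) ≥ v μ' |x|_v ^ D` at the finite ones.  If no bad event happens then, as in UVB.Q1,
`d logHeight x + logHeight t - logHeight (g) ≤ [K : ℚ] (log C + s + log C') + s` and `lam v ≤ log C + s + log C'` for `v` infinite, `lam v ≤ s - log v (μ')` for
`v ∈ S` (logHeight_eq for the vectors; `FP t = 0` or `≤ 0`).  The rest as in UVB.Q1 with `b` enlarged by the constants `log C'`, `- log v (μ')`, `v ∈ S`. -/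
theorem Q1 {K : Type u} [Field K] [NumberField K] {N r d D e : ℕ} (hr : 2 ≤ r)
    (Φ : Fam K N r d D) (ω : Module.Basis (Fin e) ℤ (𝓞 K)) (S : Finset (FinitePlace K))
    (μ μ' : 𝓞 K) (hμ : μ ≠ 0) (hμ' : μ' ≠ 0) (C' : ℝ) (hC' : 0 < C') (C₁ : ℝ) :
    ∃ C η : ℝ, 0 ≤ C ∧ 0 < η ∧ ∀ x : Fin (N + 1) → K, x ≠ 0 → (∀ j, Nz (Φ.E j) d μ C' x) →
      Nz Φ.E' D μ' C' x → ∀ (H : ℕ) (W : ℝ), 1 ≤ H → 0 ≤ W →
        logHeight x ≤ C₁ * (1 + Real.log H) →
          (cnt H (fun a : Φ.Ix × Fin e → ℤ => ¬ Φ.Ok S W (ck ω a) x) : ℝ) ≤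
            C * (Real.exp (-(η * W)) + (H : ℝ) ^ (-η)) * (H : ℝ) ^ (Fintype.card Φ.Ix * e) := by
  classical
  obtain ⟨C₀, hC₀, hbox⟩ := UVB.Q1a (K := K) ω
  let j₀ : Fin r := ⟨0, by omega⟩
  choose A hA0 hA using fun v : InfinitePlace K => T2 ω v
    (fun k : Fin Φ.p => (Sum.inl (j₀, k) : Φ.Ix)) (fun k k' h => by simpa using h)
  choose B hB0 hB using fun v : InfinitePlace K => T2 ω v
    (fun k : Fin Φ.q => (Sum.inr k : Φ.Ix)) (fun k k' h => by simpa using h)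
  choose F hF0 hF using fun v : FinitePlace K => T3 ω v
    (fun k : Fin Φ.q => (Sum.inr k : Φ.Ix)) (fun k k' h => by simpa using h)
  obtain ⟨C6, η6, hC6, hη6, h6⟩ := G6 hr Φ ω μ hμ C' C₁
  have hμK : algebraMap (𝓞 K) K μ' ≠ 0 := by
    rw [Ne, FaithfulSMul.algebraMap_eq_zero_iff]
    exact hμ'
  set C₂ : ℝ := max C' 1 with hC₂d
  have hC₂ : 1 ≤ C₂ := le_max_right _ _
  set f : ℝ := (Module.finrank ℚ K : ℝ) with hf
  have hf1 : 1 ≤ f := by
    rw [hf]
    exact_mod_cast Module.finrank_pos (R := ℚ) (M := K)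
  set q : ℝ := 2 * f + 1 + S.card with hq
  have hq1 : 1 ≤ q := by
    have : (0 : ℝ) ≤ S.card := Nat.cast_nonneg _
    rw [hq]
    linarith
  have hL : 0 ≤ Real.log C₀ := Real.log_nonneg hC₀
  have hL2 : 0 ≤ Real.log C₂ := Real.log_nonneg hC₂
  have hμle : ∀ v : FinitePlace K, v (algebraMap (𝓞 K) K μ') ≤ 1 := fun v => by
    rw [← FinitePlace.norm_embedding_eq]
    exact FinitePlace.norm_le_one K _ μ'
  have hbS : 0 ≤ ∑ v ∈ S, -Real.log (v (algebraMap (𝓞 K) K μ')) := by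
    refine Finset.sum_nonneg fun v _ => ?_
    have h1 : Real.log (v (algebraMap (𝓞 K) K μ')) ≤ 0 := Real.log_nonpos (v.val.nonneg _) (hμle v)
    linarith
  set bS : ℝ := ∑ v ∈ S, -Real.log (v (algebraMap (𝓞 K) K μ')) with hbSd
  set b : ℝ := 2 * f * (Real.log C₀ + Real.log C₂) + bS with hb
  have hb0 : 0 ≤ b := by positivity
  set η : ℝ := min (1 / (q * f)) (min 1 η6) with hη
  have hqf : 0 < q * f := by positivity
  have hη0 : 0 < η := lt_min (by positivity) (lt_min one_pos hη6)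
  set M : ℝ := ∑ v, A v + ∑ v, B v + ∑ v ∈ S, F v + C6 with hM
  have hM0 : 0 ≤ M := add_nonneg (add_nonneg (add_nonneg (Finset.sum_nonneg fun v _ => hA0 v)
    (Finset.sum_nonneg fun v _ => hB0 v)) (Finset.sum_nonneg fun v _ => hF0 v)) hC6
  refine ⟨M * Real.exp (b / (q * f)) + 3 ^ (Fintype.card Φ.Ix * e) * Real.exp (η * b), η, by positivity, hη0,
    fun x hx hNz hNz' H W hH hW hht => ?_⟩
  have hH1 : (1 : ℝ) ≤ H := by exact_mod_cast hH
  have hH0 : (0 : ℝ) < H := by linarith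
  have hHp : 0 ≤ (H : ℝ) ^ (-η) := Real.rpow_nonneg hH0.le _
  set E : ℝ := Real.exp (-(η * W)) + (H : ℝ) ^ (-η) with hE
  set P : ℝ := (H : ℝ) ^ (Fintype.card Φ.Ix * e) with hP
  have hP0 : 0 ≤ P := by positivity
  -- the vectors of the values of the forms
  have hEn : ∀ {n p : ℕ} (Ev : Fin p → MvPolynomial (Fin (N + 1)) (𝓞 K)) (ν : 𝓞 K), Nz Ev n ν C' x →
      (∀ v : InfinitePlace K, (⨆ i, v (x i)) ^ n ≤ C₂ * ⨆ k, v (ev (Ev k) x)) ∧
        (fun k => ev (Ev k) x : Fin p → K) ≠ 0 := by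
    intro n p Ev ν hN
    have a1 : ∀ v : InfinitePlace K, (⨆ i, v (x i)) ^ n ≤ C₂ * ⨆ k, v (ev (Ev k) x) := fun v =>
      (hN.1 v).trans (mul_le_mul_of_nonneg_right (le_max_left _ _)
        (Real.iSup_nonneg fun k => v.val.nonneg _))
    refine ⟨a1, fun h0 => ?_⟩
    obtain ⟨v₀⟩ : Nonempty (InfinitePlace K) := inferInstance
    have a2 := a1 v₀
    have a3 : (⨆ k, v₀ (ev (Ev k) x)) = 0 := by
      have a4 : ∀ k, v₀ (ev (Ev k) x) = 0 := fun k => by
        have a5 : ev (Ev k) x = 0 := congrFun h0 k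
        rw [a5, map_zero]
      simp only [a4, Real.iSup_const_zero]
    rw [a3, mul_zero] at a2
    have a6 : 0 < (⨆ i, v₀ (x i)) ^ n := pow_pos (Q1_pos v₀.val x hx) n
    linarith
  obtain ⟨n1, y1⟩ := hEn (Φ.E j₀) μ (hNz j₀)
  obtain ⟨n2, y2⟩ := hEn Φ.E' μ' hNz'
  rcases lt_or_ge W b with hWb | hWb
  · -- trivial bound
    have h1 := cnt_le (ι := Φ.Ix × Fin e) H hH
      (fun a : Φ.Ix × Fin e → ℤ => ¬ Φ.Ok S W (ck ω a : Φ.Ix → K) x)
    rw [Fintype.card_prod, Fintype.card_fin] at h1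
    have h2 : (cnt H (fun a : Φ.Ix × Fin e → ℤ => ¬ Φ.Ok S W (ck ω a : Φ.Ix → K) x) : ℝ) ≤
        3 ^ (Fintype.card Φ.Ix * e) * P := by
      rw [hP]
      exact_mod_cast h1
    have h3 : 1 ≤ Real.exp (η * b) * Real.exp (-(η * W)) := by
      rw [← Real.exp_add]
      apply Real.one_le_exp
      nlinarith
    have h4 : 1 ≤ Real.exp (η * b) * E := by
      rw [hE, mul_add]
      have : 0 ≤ Real.exp (η * b) * (H : ℝ) ^ (-η) := mul_nonneg (Real.exp_pos _).le hHp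
      linarith
    have h5 : (3 : ℝ) ^ (Fintype.card Φ.Ix * e) * P ≤
        3 ^ (Fintype.card Φ.Ix * e) * P * (Real.exp (η * b) * E) :=
      le_mul_of_one_le_right (by positivity) h4
    have hE0 : 0 ≤ E := by positivity
    have h6' : 0 ≤ M * Real.exp (b / (q * f)) * E * P := by positivity
    calc (cnt H (fun a : Φ.Ix × Fin e → ℤ => ¬ Φ.Ok S W (ck ω a : Φ.Ix → K) x) : ℝ)
        ≤ 3 ^ (Fintype.card Φ.Ix * e) * P := h2
      _ ≤ 3 ^ (Fintype.card Φ.Ix * e) * P * (Real.exp (η * b) * E) := h5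
      _ ≤ M * Real.exp (b / (q * f)) * E * P + 3 ^ (Fintype.card Φ.Ix * e) * P * (Real.exp (η * b) * E) := by
          linarith
      _ = _ := by ring
  · set s : ℝ := (W - b) / q with hs
    have hs0 : 0 ≤ s := div_nonneg (by linarith) (by linarith)
    have hqs : q * s + b = W := by
      rw [hs]
      field_simp
      ring
    -- the union bound
    have h1 : cnt H (fun a : Φ.Ix × Fin e → ℤ => ¬ Φ.Ok S W (ck ω a : Φ.Ix → K) x) ≤
        (∑ v : InfinitePlace K, cnt H (fun a : Φ.Ix × Fin e → ℤ =>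
          v (ev (Φ.G j₀) x + ∑ k, ck ω a (Sum.inl (j₀, k) : Φ.Ix) * ev (Φ.E j₀ k) x) ≤
            Real.exp (-s) * H * ⨆ k, v (ev (Φ.E j₀ k) x))) +
        ((∑ v : InfinitePlace K, cnt H (fun a : Φ.Ix × Fin e → ℤ =>
          v (ev Φ.F x + ∑ k, ck ω a (Sum.inr k : Φ.Ix) * ev (Φ.E' k) x) ≤
            Real.exp (-s) * H * ⨆ k, v (ev (Φ.E' k) x))) +
        ((∑ v ∈ S, cnt H (fun a : Φ.Ix × Fin e → ℤ =>
          v (ev Φ.F x + ∑ k, ck ω a (Sum.inr k : Φ.Ix) * ev (Φ.E' k) x) ≤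
            Real.exp (-s) * ⨆ k, v (ev (Φ.E' k) x))) +
        cnt H (fun a : Φ.Ix × Fin e → ℤ => ¬ ((∃ j, Φ.g (ck ω a) x j ≠ 0) ∧
          d * FP x - FP (Φ.g (ck ω a) x) ≤ s)))) := by
      refine (cnt_mono' H (q := fun a : Φ.Ix × Fin e → ℤ =>
        (∃ v ∈ (Finset.univ : Finset (InfinitePlace K)),
          v (ev (Φ.G j₀) x + ∑ k, ck ω a (Sum.inl (j₀, k) : Φ.Ix) * ev (Φ.E j₀ k) x) ≤
            Real.exp (-s) * H * ⨆ k, v (ev (Φ.E j₀ k) x)) ∨
        ((∃ v ∈ (Finset.univ : Finset (InfinitePlace K)),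
          v (ev Φ.F x + ∑ k, ck ω a (Sum.inr k : Φ.Ix) * ev (Φ.E' k) x) ≤
            Real.exp (-s) * H * ⨆ k, v (ev (Φ.E' k) x)) ∨
        ((∃ v ∈ S,
          v (ev Φ.F x + ∑ k, ck ω a (Sum.inr k : Φ.Ix) * ev (Φ.E' k) x) ≤
            Real.exp (-s) * ⨆ k, v (ev (Φ.E' k) x)) ∨
        ¬ ((∃ j, Φ.g (ck ω a) x j ≠ 0) ∧ d * FP x - FP (Φ.g (ck ω a) x) ≤ s)))) ?_).trans ?_
      · intro a ha hno
        by_contra hcon
        push Not at hcon
        obtain ⟨k1, k2, k3, k4⟩ := hcon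
        obtain ⟨hc1, hc2⟩ := hbox Φ.Ix H (fun i => a i) ha
        have hCH : 1 ≤ C₀ * H := one_le_mul_of_one_le_of_one_le hC₀ hH1
        refine hno (Q1_det Φ S hC₀ hH hx j₀ (s := s) (s₂ := s + Real.log C₂) hμK
          (fun v => Q1_one v.val (ck ω a) (C₀ * H) hCH (hc1 v))
          (fun v => Q1_one v.val (ck ω a) 1 le_rfl (hc2 v))
          (fun v => Q1_pass hC₂ (n1 v) (k1 v (Finset.mem_univ _)))
          (fun v => Q1_pass hC₂ (n2 v) (k2 v (Finset.mem_univ _)))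
          (fun v hv => lt_of_le_of_lt (mul_le_mul_of_nonneg_left (hNz'.2.1 v) (Real.exp_pos _).le) (k3 v hv))
          k4 (le_of_eq ?_))
        rw [← hqs, hq, hb, hbSd]
        ring
      · refine (cnt_or H _ _).trans (Nat.add_le_add (cnt_exists H _ _) ?_)
        refine (cnt_or H _ _).trans (Nat.add_le_add (cnt_exists H _ _) ?_)
        exact (cnt_or H _ _).trans (Nat.add_le_add (cnt_exists H _ _) le_rfl)
    -- sizes of the errors
    have hsf : Real.exp (-s) ≤ Real.exp (-(s / f)) := by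
      apply Real.exp_le_exp.2
      have : s / f ≤ s := div_le_self hs0 hf1
      linarith
    have hHη : (H : ℝ) ^ (-(min 1 η6)) ≤ (H : ℝ) ^ (-η) :=
      Real.rpow_le_rpow_of_exponent_le hH1 (neg_le_neg (min_le_right _ _))
    have h1H : (1 : ℝ) / H ≤ (H : ℝ) ^ (-η) := by
      refine le_trans ?_ hHη
      rw [one_div, ← Real.rpow_neg_one]
      exact Real.rpow_le_rpow_of_exponent_le hH1 (neg_le_neg (min_le_left _ _))
    have h6H : (H : ℝ) ^ (-η6) ≤ (H : ℝ) ^ (-η) :=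
      le_trans (Real.rpow_le_rpow_of_exponent_le hH1 (neg_le_neg (min_le_right _ _))) hHη
    have hexp : Real.exp (-(s / f)) ≤ Real.exp (b / (q * f)) * Real.exp (-(η * W)) := by
      rw [← Real.exp_add]
      apply Real.exp_le_exp.2
      have h7 : -(s / f) = b / (q * f) - 1 / (q * f) * W := by
        rw [hs]
        field_simp
        ring
      have h8 : η * W ≤ 1 / (q * f) * W := mul_le_mul_of_nonneg_right (min_le_left _ _) hW
      linarith
    have hone : 1 ≤ Real.exp (b / (q * f)) := Real.one_le_exp (by positivity)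
    have hEb : Real.exp (-(s / f)) + (H : ℝ) ^ (-η) ≤ Real.exp (b / (q * f)) * E := by
      rw [hE, mul_add]
      have : (H : ℝ) ^ (-η) ≤ Real.exp (b / (q * f)) * (H : ℝ) ^ (-η) := le_mul_of_one_le_left hHp hone
      linarith
    set E' : ℝ := Real.exp (-(s / f)) + (H : ℝ) ^ (-η) with hE'
    have g1 : (∑ v : InfinitePlace K, (cnt H (fun a : Φ.Ix × Fin e → ℤ =>
          v (ev (Φ.G j₀) x + ∑ k, ck ω a (Sum.inl (j₀, k) : Φ.Ix) * ev (Φ.E j₀ k) x) ≤
            Real.exp (-s) * H * ⨆ k, v (ev (Φ.E j₀ k) x)) : ℝ)) ≤ (∑ v, A v) * E' * P := by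
      rw [Finset.sum_mul, Finset.sum_mul]
      refine Finset.sum_le_sum fun v _ => (hA v _ _ y1 H s hH hs0).trans ?_
      refine mul_le_mul_of_nonneg_right (mul_le_mul_of_nonneg_left ?_ (hA0 v)) hP0
      linarith
    have g2 : (∑ v : InfinitePlace K, (cnt H (fun a : Φ.Ix × Fin e → ℤ =>
          v (ev Φ.F x + ∑ k, ck ω a (Sum.inr k : Φ.Ix) * ev (Φ.E' k) x) ≤
            Real.exp (-s) * H * ⨆ k, v (ev (Φ.E' k) x)) : ℝ)) ≤ (∑ v, B v) * E' * P := by
      rw [Finset.sum_mul, Finset.sum_mul]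
      refine Finset.sum_le_sum fun v _ => (hB v _ _ y2 H s hH hs0).trans ?_
      refine mul_le_mul_of_nonneg_right (mul_le_mul_of_nonneg_left ?_ (hB0 v)) hP0
      linarith
    have g3 : (∑ v ∈ S, (cnt H (fun a : Φ.Ix × Fin e → ℤ =>
          v (ev Φ.F x + ∑ k, ck ω a (Sum.inr k : Φ.Ix) * ev (Φ.E' k) x) ≤
            Real.exp (-s) * ⨆ k, v (ev (Φ.E' k) x)) : ℝ)) ≤ (∑ v ∈ S, F v) * E' * P := by
      rw [Finset.sum_mul, Finset.sum_mul]
      refine Finset.sum_le_sum fun v _ => (hF v _ _ y2 H s hH hs0).trans ?_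
      refine mul_le_mul_of_nonneg_right (mul_le_mul_of_nonneg_left ?_ (hF0 v)) hP0
      exact add_le_add le_rfl h1H
    have g4 : (cnt H (fun a : Φ.Ix × Fin e → ℤ => ¬ ((∃ j, Φ.g (ck ω a) x j ≠ 0) ∧
          d * FP x - FP (Φ.g (ck ω a) x) ≤ s)) : ℝ) ≤ C6 * E' * P := by
      refine (h6 x hx hNz H s hH hs0 hht).trans ?_
      refine mul_le_mul_of_nonneg_right (mul_le_mul_of_nonneg_left ?_ hC6) hP0
      linarith
    have h9 : (cnt H (fun a : Φ.Ix × Fin e → ℤ => ¬ Φ.Ok S W (ck ω a : Φ.Ix → K) x) : ℝ) ≤ M * E' * P := by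
      have h10 := (Nat.cast_le (α := ℝ)).2 h1
      push_cast at h10
      refine h10.trans ?_
      rw [hM]
      linarith
    have hE0 : 0 ≤ E := by positivity
    calc (cnt H (fun a : Φ.Ix × Fin e → ℤ => ¬ Φ.Ok S W (ck ω a : Φ.Ix → K) x) : ℝ) ≤ M * E' * P := h9
      _ ≤ M * (Real.exp (b / (q * f)) * E) * P :=
          mul_le_mul_of_nonneg_right (mul_le_mul_of_nonneg_left hEb hM0) hP0
      _ ≤ M * (Real.exp (b / (q * f)) * E) * P + 3 ^ (Fintype.card Φ.Ix * e) * Real.exp (η * b) * E * P := by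
          have : 0 ≤ (3 : ℝ) ^ (Fintype.card Φ.Ix * e) * Real.exp (η * b) * E * P := by positivity
          linarith
      _ = _ := by ring

end UVC
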