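import Pool.Agent.Lib.MP_17a322_ntU3.Q1
import Pool.Agent.Lib.MP_17a322_ntU3.NS
import Pool.Agent.Lib.MP_17a322_ntU2.P1s
import Pool.Agent.Lib.MP_17a322_ntU2.P2

/-!
uv2 general form, leaf Q2: the points of small height.
-/

universe u

namespace UVC

open NumberField Height UVB
open Pool.Agent.Lib.MP_17a322_nt.VA

private theorem Q2_fin {K : Type u} [Field K] [NumberField K] (v : FinitePlace K) (y : 𝓞 K) :
    v (algebraMap (𝓞 K) K y) ≤ 1 := by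
  rw [← FinitePlace.norm_embedding_eq]
  exact FinitePlace.norm_le_one _ _ y

private theorem Q2_Nz {K : Type u} [Field K] [NumberField K] {N p n : ℕ}
    {E : Fin p → MvPolynomial (Fin (N + 1)) (𝓞 K)} {μ : 𝓞 K} {C : ℝ} {x : Fin (N + 1) → K}
    (h : Nz E n μ C x) (ν : 𝓞 K) {C' : ℝ} (hC : C ≤ C') : Nz E n (ν * μ) C' x := by
  refine ⟨fun v => ?_, fun v => ?_, fun s x' hs hx z hz => ?_⟩
  · exact (h.1 v).trans (mul_le_mul_of_nonneg_right hC (Real.iSup_nonneg fun k => apply_nonneg v _))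
  · refine le_trans ?_ (h.2.1 v)
    refine mul_le_mul_of_nonneg_right ?_ (pow_nonneg (Real.iSup_nonneg fun k => apply_nonneg v _) _)
    rw [map_mul, map_mul]
    exact mul_le_of_le_one_left (apply_nonneg v _) (Q2_fin v ν)
  · rw [mul_assoc]
    exact Ideal.mul_mem_left _ ν (h.2.2 s x' hs hx z hz)

/-- Common constants for all the systems.  PROOF.  NS for each `j` and for `E'`: `μ_j`, `C_j`; take the product of the `μ_j` and the maximum of the `C_j`: `Nz` is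
monotone in `C` and is preserved if `μ` is multiplied by a nonzero integer of `K` (its absolute values at the finite places are at most `1`). -/
theorem Q2a {K : Type u} [Field K] [NumberField K] {N r d D : ℕ} (A : AV K N) (Φ : Fam K N r d D)
    (hb : Φ.Bpf A) : ∃ (μ μ' : 𝓞 K) (C : ℝ), μ ≠ 0 ∧ μ' ≠ 0 ∧ 0 < C ∧ ∀ P : A.Pts K,
      (∀ j, Nz (Φ.E j) d μ C (A.x P)) ∧ Nz Φ.E' D μ' C (A.x P) := by
  classical
  have h1 : ∀ j, ∃ (μ : 𝓞 K) (C : ℝ), μ ≠ 0 ∧ 0 < C ∧ ∀ P : A.Pts K, Nz (Φ.E j) d μ C (A.x P) := fun j =>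
    NS A (Φ.E j) (Φ.hE j) fun L _ _ P => (hb L P).1 j
  choose μ C hμ hC hNz using h1
  obtain ⟨μ', C', hμ', hC', hNz'⟩ := NS A Φ.E' Φ.hE' fun L _ _ P => (hb L P).2
  have hCn : 0 ≤ ∑ j, C j := Finset.sum_nonneg fun j _ => (hC j).le
  refine ⟨∏ j, μ j, μ', ∑ j, C j + C', Finset.prod_ne_zero_iff.mpr fun j _ => hμ j, hμ', by linarith, fun P =>
    ⟨fun j => ?_, ?_⟩⟩
  · have h2 : ∏ j, μ j = (∏ i ∈ Finset.univ.erase j, μ i) * μ j :=
      (Finset.prod_erase_mul Finset.univ μ (Finset.mem_univ j)).symm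
    rw [h2]
    refine Q2_Nz (hNz j P) _ ?_
    have h3 : C j ≤ ∑ j, C j := Finset.single_le_sum (fun i _ => (hC i).le) (Finset.mem_univ j)
    linarith
  · have h2 := Q2_Nz (hNz' P) 1 (show C' ≤ ∑ j, C j + C' by linarith)
    rwa [one_mul] at h2

/-- A power of the logarithm is bounded by a small power. -/
private theorem Q2_log (c η : ℝ) (hc : 0 ≤ c) (hη : 0 < η) (κ : ℕ) :
    ∃ B : ℝ, 0 ≤ B ∧ ∀ H : ℕ, 1 ≤ H →
      (1 + c * (1 + Real.log H)) ^ κ * (H : ℝ) ^ (-η) ≤ B * (H : ℝ) ^ (-(η / 2)) := by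
  obtain ⟨δ, hδ⟩ : ∃ δ : ℝ, δ = η / (2 * (κ + 1)) := ⟨_, rfl⟩
  have hk : (0 : ℝ) ≤ κ := Nat.cast_nonneg _
  have hδ0 : 0 < δ := by
    rw [hδ]
    positivity
  have hδκ : δ * κ ≤ η / 2 := by
    rw [hδ, div_mul_eq_mul_div, div_le_div_iff₀ (by positivity) (by norm_num)]
    nlinarith
  refine ⟨(1 + c * (1 + 1 / δ)) ^ κ, by positivity, fun H hH => ?_⟩
  have hH1 : (1 : ℝ) ≤ H := by exact_mod_cast hH
  have hH0 : (0 : ℝ) < H := by linarith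
  have hlog0 : 0 ≤ Real.log H := Real.log_nonneg hH1
  have hp1 : 1 ≤ (H : ℝ) ^ δ := Real.one_le_rpow hH1 hδ0.le
  have hlog : Real.log H ≤ (H : ℝ) ^ δ / δ := Real.log_le_rpow_div hH0.le hδ0
  have h1 : 1 + c * (1 + Real.log H) ≤ (1 + c * (1 + 1 / δ)) * (H : ℝ) ^ δ := by
    have h2 : 1 + Real.log H ≤ (1 + 1 / δ) * (H : ℝ) ^ δ := by
      have h3 : (1 + 1 / δ) * (H : ℝ) ^ δ = (H : ℝ) ^ δ + (H : ℝ) ^ δ / δ := by ring
      rw [h3]
      linarith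
    have h4 := mul_le_mul_of_nonneg_left h2 hc
    have h5 : (1 + c * (1 + 1 / δ)) * (H : ℝ) ^ δ = (H : ℝ) ^ δ + c * ((1 + 1 / δ) * (H : ℝ) ^ δ) := by ring
    rw [h5]
    linarith
  have h6 : (1 + c * (1 + Real.log H)) ^ κ ≤ (1 + c * (1 + 1 / δ)) ^ κ * (H : ℝ) ^ (η / 2) := by
    refine (pow_le_pow_left₀ (by positivity) h1 κ).trans ?_
    rw [mul_pow, ← Real.rpow_natCast ((H : ℝ) ^ δ) κ, ← Real.rpow_mul hH0.le]
    exact mul_le_mul_of_nonneg_left (Real.rpow_le_rpow_of_exponent_le hH1 hδκ) (by positivity)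
  have h7 : (H : ℝ) ^ (-(η / 2)) = (H : ℝ) ^ (η / 2) * (H : ℝ) ^ (-η) := by
    rw [← Real.rpow_add hH0]
    congr 1
    ring
  rw [h7, ← mul_assoc]
  exact mul_le_mul_of_nonneg_right h6 (Real.rpow_nonneg hH0.le _)

/-- THE SMALL POINTS.  UVB.Q2 (file MP_17a322_ntU2/Q2.lean, done by helper89) for a family: same proof with Q1 and Q2a. -/
theorem Q2 {K : Type u} [Field K] [NumberField K] {N r d D e : ℕ} (A : AV K N)
    (hA : (⊤ : AddSubgroup (A.Pts K)).FG) (hr : 2 ≤ r) (Φ : Fam K N r d D) (hb : Φ.Bpf A)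
    (ω : Module.Basis (Fin e) ℤ (𝓞 K)) (S : Finset (FinitePlace K)) (ε : ℝ) (hε : 0 < ε) (C₁ : ℝ) :
    ∃ C η : ℝ, 0 ≤ C ∧ 0 < η ∧ ∀ (H : ℕ) (w : ℝ), 1 ≤ H → 0 ≤ w →
      (cnt H (fun a : Φ.Ix × Fin e → ℤ => ∃ P : A.Pts K,
        logHeight (A.x P) ≤ C₁ * (1 + Real.log H) ∧
          ¬ Φ.Ok S (ε * logHeight (A.x P) + w) (ck ω a) (A.x P)) : ℝ) ≤
        C * (Real.exp (-(η * w)) + (H : ℝ) ^ (-η)) * (H : ℝ) ^ (Fintype.card Φ.Ix * e) := by
  obtain ⟨μ, μ', Cz, hμ, hμ', hCz, hNz⟩ := Q2a A Φ hb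
  obtain ⟨Cq, η, hCq, hη, hQ⟩ := Q1 hr Φ ω S μ μ' hμ hμ' Cz hCz |C₁|
  obtain ⟨C', κ, hC', hcard⟩ := P2 A hA
  obtain ⟨Cs, hCs, hsum⟩ := P1s (fun P : A.Pts K => logHeight (A.x P)) (fun P => Height.logHeight_nonneg _) C' κ
    (P2a A) hcard (η * ε) (mul_pos hη hε)
  obtain ⟨B, hB, hlog⟩ := Q2_log |C₁| η (abs_nonneg _) hη κ
  refine ⟨Cq * (Cs + C' * B), η / 2, by positivity, by positivity, fun H w hH hw => ?_⟩
  have hH1 : (1 : ℝ) ≤ H := by exact_mod_cast hH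
  have hH0 : (0 : ℝ) < H := by linarith
  have hlog0 : 0 ≤ Real.log H := Real.log_nonneg hH1
  obtain ⟨T, hT⟩ : ∃ T : ℝ, T = |C₁| * (1 + Real.log H) := ⟨_, rfl⟩
  have hT0 : 0 ≤ T := by
    rw [hT]
    positivity
  have hcT := hcard T hT0
  have hcF : Nat.card {P : A.Pts K // logHeight (A.x P) ≤ T} = (P2a A T).toFinset.card := by
    rw [← Set.ncard_eq_toFinset_card _ (P2a A T)]
    rfl
  rw [hcF] at hcT
  obtain ⟨F, hF⟩ : ∃ F : Finset (A.Pts K), F = (P2a A T).toFinset := ⟨_, rfl⟩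
  have hmem : ∀ P, P ∈ F ↔ logHeight (A.x P) ≤ T := by
    intro P
    rw [hF, Set.Finite.mem_toFinset]
    rfl
  rw [← hF] at hcT
  have h1 : (cnt H (fun a : Φ.Ix × Fin e → ℤ => ∃ P : A.Pts K,
        logHeight (A.x P) ≤ C₁ * (1 + Real.log H) ∧
          ¬ Φ.Ok S (ε * logHeight (A.x P) + w) (ck ω a) (A.x P)) : ℝ) ≤
      ∑ P ∈ F, (cnt H (fun a : Φ.Ix × Fin e → ℤ =>
        ¬ Φ.Ok S (ε * logHeight (A.x P) + w) (ck ω a) (A.x P)) : ℝ) := by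
    rw [← Nat.cast_sum]
    refine Nat.cast_le.2 ((cnt_mono H fun a => ?_).trans (cnt_exists H F _))
    rintro ⟨P, hP1, hP2⟩
    refine ⟨P, (hmem P).2 (hP1.trans ?_), hP2⟩
    rw [hT]
    exact mul_le_mul_of_nonneg_right (le_abs_self C₁) (by linarith)
  refine h1.trans ?_
  have h2 : ∀ P ∈ F, (cnt H (fun a : Φ.Ix × Fin e → ℤ =>
        ¬ Φ.Ok S (ε * logHeight (A.x P) + w) (ck ω a) (A.x P)) : ℝ) ≤
      Cq * (Real.exp (-(η * w)) * Real.exp (-(η * ε * logHeight (A.x P))) + (H : ℝ) ^ (-η)) *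
        (H : ℝ) ^ (Fintype.card (Φ.Ix) * e) := by
    intro P hP
    have h3 := hQ (A.x P) P.1.rep_nonzero (hNz P).1 (hNz P).2 H (ε * logHeight (A.x P) + w) hH
      (add_nonneg (mul_nonneg hε.le (Height.logHeight_nonneg _)) hw) (by rw [← hT]; exact (hmem P).1 hP)
    have h4 : Real.exp (-(η * (ε * logHeight (A.x P) + w))) =
        Real.exp (-(η * w)) * Real.exp (-(η * ε * logHeight (A.x P))) := by
      rw [← Real.exp_add]
      congr 1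
      ring
    rwa [h4] at h3
  refine (Finset.sum_le_sum h2).trans ?_
  rw [← Finset.sum_mul, ← Finset.mul_sum, Finset.sum_add_distrib, ← Finset.mul_sum, Finset.sum_const, nsmul_eq_mul]
  refine mul_le_mul_of_nonneg_right ?_ (by positivity)
  rw [mul_assoc]
  refine mul_le_mul_of_nonneg_left ?_ hCq
  have h5 : Real.exp (-(η * w)) * ∑ P ∈ F, Real.exp (-(η * ε * logHeight (A.x P))) ≤
      Cs * Real.exp (-(η / 2 * w)) := by
    rw [mul_comm]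
    refine mul_le_mul (hsum F) ?_ (Real.exp_nonneg _) hCs
    refine Real.exp_le_exp.2 ?_
    nlinarith [mul_nonneg hη.le hw]
  have h6 : (F.card : ℝ) * (H : ℝ) ^ (-η) ≤ C' * B * (H : ℝ) ^ (-(η / 2)) := by
    have h7 := mul_le_mul_of_nonneg_right hcT (Real.rpow_nonneg hH0.le (-η))
    have h8 := mul_le_mul_of_nonneg_left (hlog H hH) hC'
    rw [← hT] at h8
    calc (F.card : ℝ) * (H : ℝ) ^ (-η) ≤ C' * (1 + T) ^ κ * (H : ℝ) ^ (-η) := h7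
      _ = C' * ((1 + T) ^ κ * (H : ℝ) ^ (-η)) := by ring
      _ ≤ C' * (B * (H : ℝ) ^ (-(η / 2))) := h8
      _ = C' * B * (H : ℝ) ^ (-(η / 2)) := by ring
  have h9 : 0 ≤ Real.exp (-(η / 2 * w)) := Real.exp_nonneg _
  have h10 : 0 ≤ (H : ℝ) ^ (-(η / 2)) := Real.rpow_nonneg hH0.le _
  have h11 : 0 ≤ C' * B := by positivity
  nlinarith [mul_nonneg h11 h9, mul_nonneg hCs h10]

end UVC
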