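import Pool.Agent.Lib.MP_17a322_ntU3.E
import Pool.Agent.Lib.MP_17a322_ntU3.B6
import Pool.Agent.Lib.MP_17a322_ntU3.Q2

/-!
Almost all members of base point free families: the assembly.
-/

universe u

namespace UVC

open NumberField Height UVB
open Pool.Agent.Lib.MP_17a322_nt.VA

theorem mainU {K : Type u} [Field K] [NumberField K] {N r d D e : ℕ} (A : AV K N)
    (hA : (⊤ : AddSubgroup (A.Pts K)).FG) (hr : 2 ≤ r) (Φ : Fam K N r d D) (hb : Φ.Bpf A)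
    (ω : Module.Basis (Fin e) ℤ (𝓞 K)) (S : Finset (FinitePlace K)) (ε : ℝ) (hε : 0 < ε) :
    ∃ C η : ℝ, 0 < η ∧ ∀ (H : ℕ) (w : ℝ), 1 ≤ H → 0 ≤ w →
      (cnt H (fun a : Φ.Ix × Fin e → ℤ => ¬ ∀ P : A.Pts K,
        Φ.Ok S (ε * logHeight (A.x P) + w) (ck ω a) (A.x P)) : ℝ) ≤
        C * (Real.exp (-(η * w)) + (H : ℝ) ^ (-η)) * (H : ℝ) ^ (e * Fintype.card Φ.Ix) := by
  obtain ⟨C₁, k, B, hB, hdim, hE⟩ := E A hA Φ ω S ε hε
  obtain ⟨C₂, hC₂, hB6⟩ := B6 A hA hr Φ hb ω B hB hdim C₁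
  obtain ⟨C₃, η, hC₃, hη, hQ⟩ := Q2 A hA hr Φ hb ω S ε hε C₁
  refine ⟨C₃ + C₂, min η (1 / 2), by positivity, fun H w hH hw => ?_⟩
  have hH0 : (1 : ℝ) ≤ H := by exact_mod_cast hH
  have hHp : (0 : ℝ) < H := by linarith
  have h1 : cnt H (fun a : Φ.Ix × Fin e → ℤ => ¬ ∀ P : A.Pts K,
        Φ.Ok S (ε * logHeight (A.x P) + w) (ck ω a) (A.x P)) ≤
      cnt H (fun a : Φ.Ix × Fin e → ℤ => (∃ P : A.Pts K,
        logHeight (A.x P) ≤ C₁ * (1 + Real.log H) ∧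
          ¬ Φ.Ok S (ε * logHeight (A.x P) + w) (ck ω a) (A.x P)) ∨
        ∃ (i : Fin k) (w : A.Pts K), logHeight (A.x w) ≤ C₁ * (1 + Real.log H) ∧
          (Φ.f (ck ω a) (A.x w) = 0 ∨ Φ.BadW (hB i) w (ck ω a))) := by
    refine cnt_mono' H fun a ha hn => ?_
    by_contra hcon
    rw [not_or] at hcon
    obtain ⟨h1, h2⟩ := hcon
    refine hn fun P => ?_
    by_cases hP : logHeight (A.x P) ≤ C₁ * (1 + Real.log H)
    · by_contra hk
      exact h1 ⟨P, hP, hk⟩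
    · rcases hE H hH a ha P (not_le.1 hP) with h | h
      · exact ⟨h.1, h.2.1, h.2.2.trans (by linarith)⟩
      · exact absurd h h2
  have h2 : (cnt H (fun a : Φ.Ix × Fin e → ℤ => ¬ ∀ P : A.Pts K,
        Φ.Ok S (ε * logHeight (A.x P) + w) (ck ω a) (A.x P)) : ℝ) ≤
      C₃ * (Real.exp (-(η * w)) + (H : ℝ) ^ (-η)) * (H : ℝ) ^ (Fintype.card Φ.Ix * e) +
        C₂ * (H : ℝ) ^ (-(1 / 2 : ℝ)) * (H : ℝ) ^ (Fintype.card Φ.Ix * e) := by
    have g1 := h1.trans (cnt_or H _ _)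
    have g2 := Nat.cast_le (α := ℝ).2 g1
    rw [Nat.cast_add] at g2
    exact g2.trans (add_le_add (hQ H w hH hw) (hB6 H hH))
  refine h2.trans ?_
  rw [mul_comm e]
  have e1 : Real.exp (-(η * w)) ≤ Real.exp (-(min η (1 / 2) * w)) := by
    apply Real.exp_le_exp.2
    have := mul_le_mul_of_nonneg_right (min_le_left η (1 / 2)) hw
    linarith
  have e2 : (H : ℝ) ^ (-η) ≤ (H : ℝ) ^ (-(min η (1 / 2))) := by
    apply Real.rpow_le_rpow_of_exponent_le hH0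
    have := min_le_left η (1 / 2)
    linarith
  have e3 : (H : ℝ) ^ (-(1 / 2 : ℝ)) ≤ (H : ℝ) ^ (-(min η (1 / 2))) := by
    apply Real.rpow_le_rpow_of_exponent_le hH0
    have := min_le_right η (1 / 2)
    linarith
  have e5 : 0 ≤ Real.exp (-(min η (1 / 2) * w)) := (Real.exp_pos _).le
  rw [← add_mul]
  refine mul_le_mul_of_nonneg_right ?_ (by positivity)
  have f1 := mul_le_mul_of_nonneg_left (add_le_add e1 e2) hC₃
  have f2 := mul_le_mul_of_nonneg_left e3 hC₂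
  have f4 := mul_nonneg hC₂ e5
  nlinarith [f1, f2, f4]

end UVC
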